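import Pool.Agent.K34RT.Defs

/-! The leaf BASE: facts on the first function and its transform (helper99). -/

set_option autoImplicit false

open Complex MeasureTheory Set Filter Topology

noncomputable section

namespace K34RT

/-! ### the integral of `t exp(a t)` -/

theorem base_bound {b : ℝ} (hb : 0 < b) (t : ℝ) :
    t * Real.exp (-b * t) ≤ 2 / b * Real.exp (-(b / 2) * t) := by
  have h1 : b / 2 * t ≤ Real.exp (b / 2 * t) := by
    have := Real.add_one_le_exp (b / 2 * t)
    linarith
  have e : Real.exp (-(b / 2) * t) = Real.exp (b / 2 * t) * Real.exp (-b * t) := by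
    rw [← Real.exp_add]
    congr 1
    ring
  rw [e, ← mul_assoc]
  refine mul_le_mul_of_nonneg_right ?_ (Real.exp_pos _).le
  have : t = 2 / b * (b / 2 * t) := by field_simp
  calc t = 2 / b * (b / 2 * t) := this
    _ ≤ 2 / b * Real.exp (b / 2 * t) := by
        refine mul_le_mul_of_nonneg_left h1 (by positivity)

theorem base_norm (a : ℂ) (t : ℝ) (ht : 0 ≤ t) :
    ‖(t : ℂ) * Complex.exp (a * t)‖ = t * Real.exp (-(-a.re) * t) := by
  rw [norm_mul, Complex.norm_real, Real.norm_of_nonneg ht, Complex.norm_exp]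
  congr 2
  simp

theorem base_int {a : ℂ} (ha : a.re < 0) :
    IntegrableOn (fun t : ℝ => (t : ℂ) * Complex.exp (a * t)) (Ioi 0) := by
  have hb : 0 < -a.re := by linarith
  have h1 : IntegrableOn (fun t : ℝ => 2 / (-a.re) * Real.exp (-(-a.re / 2) * t)) (Ioi 0) :=
    (exp_neg_integrableOn_Ioi 0 (by positivity)).const_mul _
  refine Integrable.mono' h1 ?_ ?_
  · exact Continuous.aestronglyMeasurable (by fun_prop)
  · rw [ae_restrict_iff' measurableSet_Ioi]
    refine Eventually.of_forall fun t ht => ?_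
    rw [base_norm a t (le_of_lt ht)]
    exact base_bound hb t

theorem base_tendsto {a : ℂ} (ha : a.re < 0) :
    Tendsto (fun t : ℝ => ((t : ℂ) / a - 1 / a ^ 2) * Complex.exp (a * t)) atTop (𝓝 0) := by
  have hb : 0 < -a.re := by linarith
  have he : Tendsto (fun t : ℝ => Real.exp (-(-a.re / 2) * t)) atTop (𝓝 0) := by
    have : Tendsto (fun t : ℝ => (-a.re / 2) * t) atTop atTop :=
      tendsto_id.const_mul_atTop (by positivity)
    refine (Real.tendsto_exp_neg_atTop_nhds_zero.comp this).congr fun t => ?_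
    simp only [Function.comp]
    congr 1
    ring
  have h0 : Tendsto (fun t : ℝ => (2 / (-a.re) / ‖a‖ + 1 / ‖a‖ ^ 2) * Real.exp (-(-a.re / 2) * t))
      atTop (𝓝 0) := by
    have := he.const_mul (2 / (-a.re) / ‖a‖ + 1 / ‖a‖ ^ 2)
    rw [mul_zero] at this
    exact this
  refine squeeze_zero_norm' ?_ h0
  filter_upwards [eventually_ge_atTop (0 : ℝ)] with t ht
  rw [sub_mul]
  refine (norm_sub_le _ _).trans ?_
  rw [add_mul]
  refine add_le_add ?_ ?_
  · have e : (t : ℂ) / a * Complex.exp (a * t) = ((t : ℂ) * Complex.exp (a * t)) / a := by ring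
    rw [e, norm_div, base_norm a t ht]
    have := div_le_div_of_nonneg_right (base_bound hb t) (norm_nonneg a)
    exact this.trans (le_of_eq (by ring))
  · rw [norm_mul, norm_div, norm_one, norm_pow]
    refine mul_le_mul_of_nonneg_left ?_ (by positivity)
    rw [Complex.norm_exp]
    apply Real.exp_le_exp.2
    have : (a * (t : ℂ)).re = a.re * t := by simp
    rw [this]
    nlinarith

theorem base_integral {a : ℂ} (ha : a.re < 0) :
    ∫ t : ℝ in Ioi 0, (t : ℂ) * Complex.exp (a * t) = 1 / a ^ 2 := by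
  have ha0 : a ≠ 0 := by
    intro h
    rw [h] at ha
    simp at ha
  have h := integral_Ioi_of_hasDerivAt_of_tendsto' (a := (0 : ℝ)) (m := 0)
    (f := fun t : ℝ => ((t : ℂ) / a - 1 / a ^ 2) * Complex.exp (a * t))
    (f' := fun t : ℝ => (t : ℂ) * Complex.exp (a * t)) ?_ (base_int ha) (base_tendsto ha)
  · rw [h]
    simp
  · intro t _
    have h1 : HasDerivAt (fun t : ℝ => (t : ℂ)) 1 t := Complex.ofRealCLM.hasDerivAt
    have h2 : HasDerivAt (fun t : ℝ => (t : ℂ) / a - 1 / a ^ 2) (1 / a) t :=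
      (h1.div_const a).sub_const _
    have h3 : HasDerivAt (fun t : ℝ => Complex.exp (a * t)) (Complex.exp (a * t) * (a * 1)) t :=
      (h1.const_mul a).cexp
    have h4 := h2.mul h3
    refine h4.congr_deriv ?_
    field_simp
    ring

/-! ### elementary facts on `F0` -/

theorem w0_re : w0.re = 100 := rfl
theorem w0_im : w0.im = 3 / 16 := rfl

theorem one_add_re (z : ℂ) : (1 + I * z).re = 1 - z.im := by simp; ring
theorem one_add_im (z : ℂ) : (1 + I * z).im = z.re := by simp

theorem one_add_ne {z : ℂ} (hz : z.im < 1) : 1 + I * z ≠ 0 := by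
  intro h
  have := one_add_re z
  rw [h] at this
  simp at this
  linarith

theorem norm_F0 (z : ℂ) : ‖F0 z‖ = ‖z - w0‖ / ‖1 + I * z‖ ^ 2 := by
  unfold F0
  rw [norm_div, norm_mul, Complex.norm_I, one_mul, norm_pow]

theorem F0_small {z : ℂ} (hx : 99 ≤ z.re) (h0 : 0 ≤ z.im) (h1 : z.im ≤ 2) :
    ‖F0 z‖ ≤ 2 / z.re := by
  have hx0 : 0 < z.re := by linarith
  rw [norm_F0]
  have ha : ‖z - w0‖ ≤ 2 * z.re := by
    refine (Complex.norm_le_abs_re_add_abs_im _).trans ?_
    rw [Complex.sub_re, Complex.sub_im, w0_re, w0_im]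
    have e1 : |z.re - 100| ≤ z.re - 98 := by
      rw [abs_le]
      constructor <;> linarith
    have e2 : |z.im - 3 / 16| ≤ 2 := by
      rw [abs_le]
      constructor <;> linarith
    linarith
  have hb : z.re ≤ ‖1 + I * z‖ := by
    have := Complex.abs_im_le_norm (1 + I * z)
    rw [one_add_im] at this
    exact (le_abs_self _).trans this
  have hb2 : z.re ^ 2 ≤ ‖1 + I * z‖ ^ 2 := by gcongr
  calc ‖z - w0‖ / ‖1 + I * z‖ ^ 2 ≤ (2 * z.re) / z.re ^ 2 := by gcongr
    _ = 2 / z.re := by field_simp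

theorem F0_ne {z : ℂ} (hz : z.im ≤ 0) : F0 z ≠ 0 := by
  unfold F0
  have h1 : z - w0 ≠ 0 := by
    intro h
    have : z.im - w0.im = 0 := by rw [← Complex.sub_im, h, Complex.zero_im]
    rw [w0_im] at this
    linarith
  have h2 := one_add_ne (z := z) (by linarith)
  exact div_ne_zero (mul_ne_zero Complex.I_ne_zero h1) (pow_ne_zero 2 h2)

theorem F0_diff : DifferentiableOn ℂ F0 U := by
  intro z hz
  have hz' : z.im < 1 / 2 := hz
  have h := one_add_ne (z := z) (by linarith)
  unfold F0
  apply DifferentiableAt.differentiableWithinAt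
  refine DifferentiableAt.div (by fun_prop) (by fun_prop) (pow_ne_zero 2 h)

theorem F0_FP : FP F0 := by
  refine ⟨F0_diff, ?_, F0_ne (by simp)⟩
  intro η hη
  refine ⟨max 99 (2 / η), fun z hX h0 h1 => ?_⟩
  have hx : 99 ≤ z.re := (le_max_left _ _).trans hX
  have hx2 : 2 / η ≤ z.re := (le_max_right _ _).trans hX
  refine (F0_small hx h0 (by linarith)).trans ?_
  rw [div_le_iff₀ (by linarith)]
  rw [div_le_iff₀ hη] at hx2
  linarith

theorem F0_GZ : GZ F0 (sl 1) (1 / 2) w0 := by
  refine ⟨?_, ?_, ?_, 1, one_pos, ?_⟩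
  · unfold F0
    rw [sub_self, mul_zero, zero_div]
  · rw [w0_im]
    unfold sl
    norm_num
  · rw [w0_im]
    unfold sl
    norm_num
  · intro z hr h0 h1
    rw [w0_re] at hr
    rw [w0_im] at h1
    refine (F0_small (by linarith) h0 (by linarith)).trans ?_
    rw [div_le_iff₀ (by linarith)]
    linarith

/-! ### the transform -/

theorem f0_mul (z : ℂ) (t : ℝ) :
    f0 t * Complex.exp (-(I * t * z)) = Complex.exp ((-1 - I * z) * t) -
      (1 + I * w0) * ((t : ℂ) * Complex.exp ((-1 - I * z) * t)) := by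
  unfold f0
  have e : Complex.exp ((-1 - I * z) * t) = Complex.exp (-(t : ℂ)) * Complex.exp (-(I * t * z)) := by
    rw [← Complex.exp_add]
    congr 1
    ring
  rw [e]
  push_cast
  ring

theorem base_re {z : ℂ} (hz : z.im < 1 / 2) : (-1 - I * z).re < 0 := by
  have : (-1 - I * z).re = -1 + z.im := by simp
  rw [this]
  linarith

theorem f0_int {z : ℂ} (hz : z.im < 1 / 2) :
    IntegrableOn (fun t : ℝ => f0 t * Complex.exp (-(I * t * z))) (Ioi 0) := by
  simp only [f0_mul]
  exact (integrableOn_exp_mul_complex_Ioi (base_re hz) 0).sub ((base_int (base_re hz)).const_mul _)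

theorem f0_integral {z : ℂ} (hz : z.im < 1 / 2) :
    ∫ t : ℝ in Ioi 0, f0 t * Complex.exp (-(I * t * z)) = F0 z := by
  simp only [f0_mul]
  rw [integral_sub (integrableOn_exp_mul_complex_Ioi (base_re hz) 0)
    ((base_int (base_re hz)).const_mul _), integral_const_mul,
    integral_exp_mul_complex_Ioi (base_re hz), base_integral (base_re hz)]
  have h := one_add_ne (z := z) (by linarith)
  have h2 : -1 - I * z ≠ 0 := by
    intro h0
    apply h
    have : 1 + I * z = -(-1 - I * z) := by ring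
    rw [this, h0, neg_zero]
  unfold F0
  rw [Complex.ofReal_zero, mul_zero, Complex.exp_zero]
  have e : -1 - I * z = -(1 + I * z) := by ring
  rw [e]
  field_simp
  ring

theorem f0_meas : Measurable f0 := by
  unfold f0
  fun_prop

theorem f0_int4 : IntegrableOn (fun t => ‖f0 t‖ * Real.exp (t / 4)) (Ioi 0) := by
  have h := (f0_int (z := (((1 / 4 : ℝ) : ℂ) * I)) (by simp; norm_num)).norm
  refine h.congr (Eventually.of_forall fun t => ?_)
  simp only
  rw [norm_mul, Complex.norm_exp]
  congr 2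
  simp
  ring

/-! ### the lower bound and the growth -/

theorem bh_bound {z : ℂ} {c : ℝ} (hz : z.im ≤ 0) (hc : 0 < c) (hc1 : c ≤ 1) :
    c * ‖bh c z‖ ≤ 540 * ‖F0 z‖ := by
  have hone : 1 ≤ ‖1 + I * z‖ := by
    have := Complex.abs_re_le_norm (1 + I * z)
    rw [one_add_re] at this
    have h2 := le_abs_self (1 - z.im)
    linarith
  have h1 : c * ‖1 + I * z‖ ≤ ‖1 + I * c * z‖ := by
    have hn : 0 ≤ ‖1 + I * c * z‖ := norm_nonneg _
    have e1 : ‖1 + I * z‖ ^ 2 = (1 - z.im) ^ 2 + z.re ^ 2 := by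
      rw [Complex.sq_norm, Complex.normSq_apply, one_add_re, one_add_im]
      ring
    have e2 : ‖1 + I * c * z‖ ^ 2 = (1 - c * z.im) ^ 2 + (c * z.re) ^ 2 := by
      have hh : 1 + I * c * z = 1 + I * (c * z) := by ring
      rw [hh, Complex.sq_norm, Complex.normSq_apply, one_add_re, one_add_im]
      have r1 : ((c : ℂ) * z).im = c * z.im := by simp
      have r2 : ((c : ℂ) * z).re = c * z.re := by simp
      rw [r1, r2]
      ring
    apply le_of_sq_le_sq _ hn
    rw [mul_pow, e1, e2]
    have h3 : 0 ≤ -z.im := by linarith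
    have h4 : c * (1 - z.im) ≤ 1 - c * z.im := by nlinarith
    have h5 : 0 ≤ c * (1 - z.im) := by nlinarith
    nlinarith
  have hpos : 0 < ‖1 + I * c * z‖ := lt_of_lt_of_le (by positivity) h1
  have h2 : c * ‖bh c z‖ ≤ 1 / ‖1 + I * z‖ := by
    unfold bh
    rw [norm_div, norm_one, mul_one_div, div_le_div_iff₀ hpos (by positivity), one_mul]
    exact h1
  refine h2.trans ?_
  rw [norm_F0, mul_div_assoc', div_le_div_iff₀ (by positivity) (by positivity), one_mul]
  have h3 : ‖1 + I * z‖ ≤ 540 * ‖z - w0‖ := by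
    have e : 1 + I * z = I * (z - w0) + (1 + I * w0) := by ring
    have h4 : ‖1 + I * w0‖ ≤ 101 := by
      refine (Complex.norm_le_abs_re_add_abs_im _).trans ?_
      rw [one_add_re, one_add_im, w0_re, w0_im]
      norm_num
    have h5 : 3 / 16 ≤ ‖z - w0‖ := by
      have := Complex.abs_im_le_norm (z - w0)
      rw [Complex.sub_im, w0_im] at this
      have h6 := neg_abs_le (z.im - 3 / 16)
      linarith
    calc ‖1 + I * z‖ ≤ ‖I * (z - w0)‖ + ‖1 + I * w0‖ := by rw [e]; exact norm_add_le _ _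
      _ ≤ ‖z - w0‖ + 101 := by
        rw [norm_mul, Complex.norm_I, one_mul]
        linarith
      _ ≤ 540 * ‖z - w0‖ := by linarith
  nlinarith

theorem F0_log : Tendsto (fun y : ℝ => Real.log ‖F0 (y * I)‖ / |y|) atBot (𝓝 0) := by
  have hlog : Tendsto (fun Y : ℝ => (2 * Real.log (1 + Y) + Real.log 101) / Y) atTop (𝓝 0) := by
    have h1 : Tendsto (fun Y : ℝ => Real.log Y / Y) atTop (𝓝 0) := by
      have := Real.isLittleO_log_id_atTop.tendsto_div_nhds_zero
      simpa using this
    have h2 : Tendsto (fun Y : ℝ => 1 + Y) atTop atTop := tendsto_atTop_add_const_left _ _ tendsto_id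
    have h3 : Tendsto (fun Y : ℝ => Real.log (1 + Y) / (1 + Y)) atTop (𝓝 0) := h1.comp h2
    have h4 : Tendsto (fun Y : ℝ => (1 + Y) / Y) atTop (𝓝 1) := by
      have : Tendsto (fun Y : ℝ => 1 / Y + 1) atTop (𝓝 (0 + 1)) :=
        (tendsto_const_nhds.div_atTop tendsto_id).add tendsto_const_nhds
      rw [zero_add] at this
      refine this.congr' ?_
      filter_upwards [eventually_gt_atTop (0 : ℝ)] with Y hY
      field_simp
    have h5 := h3.mul h4
    have h6 : Tendsto (fun Y : ℝ => Real.log 101 / Y) atTop (𝓝 0) :=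
      tendsto_const_nhds.div_atTop tendsto_id
    have h7 := (h5.const_mul 2).add h6
    simp only [zero_mul, mul_zero, add_zero] at h7
    refine h7.congr' ?_
    filter_upwards [eventually_gt_atTop (0 : ℝ)] with Y hY
    have : 1 + Y ≠ 0 := by positivity
    field_simp
  have hcomp := hlog.comp tendsto_neg_atBot_atTop
  refine squeeze_zero_norm' ?_ hcomp
  filter_upwards [eventually_le_atBot (-1 : ℝ)] with y hy
  have hypos : 0 < -y := by linarith
  simp only [Function.comp]
  rw [Real.norm_eq_abs, abs_div, abs_abs, abs_of_neg (by linarith : y < 0)]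
  refine div_le_div_of_nonneg_right ?_ hypos.le
  have him : ((y : ℂ) * I).im = y := by simp
  have hre : ((y : ℂ) * I).re = 0 := by simp
  have e1 : 1 + I * ((y : ℂ) * I) = ((1 - y : ℝ) : ℂ) := by
    apply Complex.ext
    · rw [one_add_re, him, Complex.ofReal_re]
    · rw [one_add_im, hre, Complex.ofReal_im]
  have e2 : ‖1 + I * ((y : ℂ) * I)‖ = 1 - y := by
    rw [e1, Complex.norm_real, Real.norm_of_nonneg (by linarith)]
  have h1 : 1 ≤ ‖(y : ℂ) * I - w0‖ := by
    have := Complex.abs_im_le_norm ((y : ℂ) * I - w0)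
    rw [Complex.sub_im, him, w0_im] at this
    have h6 := neg_abs_le (y - 3 / 16)
    linarith
  have h2 : ‖(y : ℂ) * I - w0‖ ≤ 101 * (1 - y) := by
    refine (Complex.norm_le_abs_re_add_abs_im _).trans ?_
    rw [Complex.sub_re, Complex.sub_im, him, hre, w0_re, w0_im]
    have a1 : |(0 : ℝ) - 100| = 100 := by norm_num
    have a2 : |y - 3 / 16| = 3 / 16 - y := by
      rw [abs_of_neg (by linarith)]
      ring
    rw [a1, a2]
    linarith
  have hy1 : 0 < 1 - y := by linarith
  rw [norm_F0, e2]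
  have hlow : 1 / (1 - y) ^ 2 ≤ ‖(y : ℂ) * I - w0‖ / (1 - y) ^ 2 := by gcongr
  have hup : ‖(y : ℂ) * I - w0‖ / (1 - y) ^ 2 ≤ 101 := by
    rw [div_le_iff₀ (by positivity)]
    nlinarith
  have hp : 0 < ‖(y : ℂ) * I - w0‖ / (1 - y) ^ 2 := lt_of_lt_of_le (by positivity) hlow
  have l1 := Real.log_le_log hp hup
  have l2 := Real.log_le_log (by positivity) hlow
  rw [Real.log_div one_ne_zero (by positivity), Real.log_one, Real.log_pow, zero_sub] at l2
  have l3 : 0 ≤ Real.log (1 - y) := Real.log_nonneg (by linarith)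
  have l4 : 0 ≤ Real.log 101 := Real.log_nonneg (by norm_num)
  have e3 : 1 + -y = 1 - y := by ring
  rw [e3, abs_le]
  push_cast at l2
  constructor <;> linarith

theorem rt_base : S_BASE :=
  ⟨F0_FP, F0_GZ, f0_meas, f0_int4, fun _ hz => ⟨f0_int hz, f0_integral hz⟩, fun _ hz => F0_ne hz,
    ⟨540, by norm_num, fun _ _ hz hc hc1 => bh_bound hz hc hc1⟩, F0_log⟩

end K34RT

end
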