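import Pool.Agent.K34RT.Defs

/-! The leaf BMP: explicit Laplace integrals of the bumps (helper99). -/

set_option autoImplicit false

open Complex MeasureTheory Set Filter Topology

noncomputable section

namespace K34RT

theorem bmp_cut_ae {T : ℝ} (hT : 0 ≤ T) :
    (Ioi (0 : ℝ) ∩ Ici T : Set ℝ) =ᵐ[volume] (Ioi T : Set ℝ) := by
  have h := ae_eq_set_inter (ae_eq_refl (μ := (volume : Measure ℝ)) (Ioi (0 : ℝ)))
    (Ioi_ae_eq_Ici (μ := volume) (a := T)).symm
  rwa [Ioi_inter_Ioi, max_eq_right hT] at h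

theorem bmp_cut_int {E : Type} [NormedAddCommGroup E] {T : ℝ} (hT : 0 ≤ T) {h : ℝ → E}
    (hi : IntegrableOn h (Ioi T)) :
    IntegrableOn (fun t => if T ≤ t then h t else 0) (Ioi 0) := by
  have e : (fun t => if T ≤ t then h t else 0) = (Ici T).indicator h := by
    funext t
    by_cases ht : T ≤ t
    · rw [if_pos ht, indicator_of_mem (mem_Ici.2 ht)]
    · rw [if_neg ht, indicator_of_notMem (fun h => ht (mem_Ici.1 h))]
  rw [e, IntegrableOn, integrable_indicator_iff measurableSet_Ici, IntegrableOn,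
    Measure.restrict_restrict measurableSet_Ici, inter_comm, Measure.restrict_congr_set (bmp_cut_ae hT)]
  exact hi

theorem bmp_cut_eq {E : Type} [NormedAddCommGroup E] [NormedSpace ℝ E] {T : ℝ} (hT : 0 ≤ T)
    (h : ℝ → E) :
    ∫ t in Ioi (0 : ℝ), (if T ≤ t then h t else 0) = ∫ t in Ioi T, h t := by
  have e : (fun t => if T ≤ t then h t else 0) = (Ici T).indicator h := by
    funext t
    by_cases ht : T ≤ t
    · rw [if_pos ht, indicator_of_mem (mem_Ici.2 ht)]
    · rw [if_neg ht, indicator_of_notMem (fun h => ht (mem_Ici.1 h))]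
  rw [e, setIntegral_indicator measurableSet_Ici, setIntegral_congr_set (bmp_cut_ae hT)]

theorem bmp_norm (c T t : ℝ) (hc : 0 < c) :
    ‖bmp c T t‖ = if T ≤ t then c⁻¹ * Real.exp (-((t - T) / c)) else 0 := by
  unfold bmp
  split_ifs with h
  · rw [Complex.norm_real, Real.norm_of_nonneg (by positivity)]
  · exact norm_zero

theorem rt_bmp : S_BMP := by
  intro c T hc hc1 hT
  have hc4 : 1 / 4 < c⁻¹ := by
    have : 1 ≤ c⁻¹ := (one_le_inv₀ hc).2 hc1
    linarith
  have ha : -c⁻¹ + 1 / 4 < 0 := by linarith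
  refine ⟨?_, ?_, ?_, ?_⟩
  · unfold bmp
    refine Measurable.ite measurableSet_Ici ?_ measurable_const
    fun_prop
  · have e : (fun t => ‖bmp c T t‖ * Real.exp (t / 4)) = fun t => if T ≤ t then
        (c⁻¹ * Real.exp (T / c)) * Real.exp ((-c⁻¹ + 1 / 4) * t) else 0 := by
      funext t
      rw [bmp_norm c T t hc]
      split_ifs with h
      · rw [mul_assoc, mul_assoc, ← Real.exp_add, ← Real.exp_add]
        congr 2
        field_simp
        ring
      · rw [zero_mul]
    rw [e]
    exact bmp_cut_int hT ((integrableOn_exp_mul_Ioi ha T).const_mul _)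
  · have e : (fun t => ‖bmp c T t‖ * Real.exp ((t - T) / 4)) = fun t => if T ≤ t then
        (c⁻¹ * Real.exp (T / c - T / 4)) * Real.exp ((-c⁻¹ + 1 / 4) * t) else 0 := by
      funext t
      rw [bmp_norm c T t hc]
      split_ifs with h
      · rw [mul_assoc, mul_assoc, ← Real.exp_add, ← Real.exp_add]
        congr 2
        field_simp
        ring
      · rw [zero_mul]
    rw [e, bmp_cut_eq hT, integral_const_mul, integral_exp_mul_Ioi ha, mul_div_assoc', mul_neg,
      mul_assoc, ← Real.exp_add]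
    have e2 : T / c - T / 4 + (-c⁻¹ + 1 / 4) * T = 0 := by
      field_simp
      ring
    rw [e2, Real.exp_zero, mul_one, div_le_iff_of_neg ha]
    have h1 : 1 ≤ c⁻¹ := (one_le_inv₀ hc).2 hc1
    linarith
  · intro z hz
    have hz' : z.im < 1 / 2 := hz
    have hre : (-(c⁻¹ : ℂ) - I * z).re < 0 := by
      have h1 : 1 ≤ c⁻¹ := (one_le_inv₀ hc).2 hc1
      have : (-(c⁻¹ : ℂ) - I * z).re = -c⁻¹ + z.im := by
        rw [Complex.sub_re, Complex.neg_re, Complex.I_mul_re, ← Complex.ofReal_inv, Complex.ofReal_re]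
        ring
      rw [this]
      linarith
    have hc0 : (c : ℂ) ≠ 0 := by exact_mod_cast hc.ne'
    have e : (fun t : ℝ => bmp c T t * Complex.exp (-(I * t * z))) = fun t : ℝ => if T ≤ t then
        ((c : ℂ)⁻¹ * Complex.exp (T / c)) * Complex.exp ((-(c⁻¹ : ℂ) - I * z) * t) else 0 := by
      funext t
      unfold bmp
      split_ifs with h
      · push_cast
        rw [mul_assoc (c : ℂ)⁻¹ (Complex.exp (-((t - T) / c))) _, ← Complex.exp_add,
          mul_assoc (c : ℂ)⁻¹ (Complex.exp (T / c)) _, ← Complex.exp_add]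
        congr 2
        field_simp
        ring
      · rw [zero_mul]
    rw [e]
    refine ⟨bmp_cut_int hT ((integrableOn_exp_mul_complex_Ioi hre T).const_mul _), ?_⟩
    rw [bmp_cut_eq hT, integral_const_mul, integral_exp_mul_complex_Ioi hre, mul_div_assoc',
      mul_neg, mul_assoc, ← Complex.exp_add]
    have e2 : (T : ℂ) / c + (-(c⁻¹ : ℂ) - I * z) * T = -(I * T * z) := by
      field_simp
      ring
    rw [e2]
    have hne : -(c⁻¹ : ℂ) - I * z ≠ 0 := by
      intro h0
      rw [h0] at hre
      simp at hre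
    unfold bh
    have hne2 : 1 + I * c * z ≠ 0 := by
      intro h0
      apply hne
      have : -(c⁻¹ : ℂ) - I * z = -(c : ℂ)⁻¹ * (1 + I * c * z) := by
        field_simp
        ring
      rw [this, h0, mul_zero]
    have : -(c⁻¹ : ℂ) - I * z = -(c : ℂ)⁻¹ * (1 + I * c * z) := by
      field_simp
      ring
    rw [this]
    field_simp

end K34RT

end
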