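import Pool.Agent.K34RT.Defs2
import Pool.Agent.K34RT.BASE
import Pool.Agent.K34RT.BMP

/-!
Leaf `S_CHAIN` (helper72): iteration of `S_LEVEL`.
-/

set_option autoImplicit false

open Complex MeasureTheory Set Filter Topology

noncomputable section

namespace K34RT

namespace Chn

lemma sl_pos (n : ℕ) : 0 < sl n := by unfold sl; positivity

lemma sl_succ (n : ℕ) : 2 * sl (n + 1) = sl n := by unfold sl; ring

lemma sl_half (n : ℕ) : sl n / 2 = sl (n + 1) := by unfold sl; ring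

lemma sl_le (n : ℕ) : sl n ≤ 1 / 4 := by
  unfold sl
  have : ((1 : ℝ) / 2) ^ n ≤ 1 := pow_le_one₀ (by norm_num) (by norm_num)
  linarith

lemma sl_succ_le (n : ℕ) : sl (n + 1) ≤ 1 / 8 := by
  have h1 := sl_succ n
  have h2 := sl_le n
  linarith

lemma ep_pos (n : ℕ) : 0 < ep n := by unfold ep; positivity

lemma et_pos (n : ℕ) : 0 < et n := by unfold et; positivity

lemma norm_term (w : ℂ) (τ : ℝ) : ‖Complex.exp (-(I * w * τ))‖ = Real.exp (w.im * τ) := by
  rw [Complex.norm_exp]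
  congr 1
  simp

lemma ES_le (g : ℂ →₀ ℂ) (τ : ℝ) :
    ‖ES g τ‖ ≤ ∑ w ∈ g.support, ‖g w‖ * Real.exp (w.im * τ) := by
  unfold ES Finsupp.sum
  refine (norm_sum_le _ _).trans (le_of_eq ?_)
  apply Finset.sum_congr rfl
  intro w _
  rw [norm_mul, norm_term]

lemma ES_bound (g : ℂ →₀ ℂ) (β τ : ℝ) (hτ : 0 ≤ τ) (h : ∀ w ∈ g.support, w.im ≤ β) :
    ‖ES g τ‖ ≤ (∑ w ∈ g.support, ‖g w‖) * Real.exp (β * τ) := by
  refine (ES_le g τ).trans ?_
  rw [Finset.sum_mul]
  apply Finset.sum_le_sum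
  intro w hw
  apply mul_le_mul_of_nonneg_left _ (norm_nonneg _)
  apply Real.exp_le_exp.mpr
  exact mul_le_mul_of_nonneg_right (h w hw) hτ

lemma ES_small (g : ℂ →₀ ℂ) (β η : ℝ) (h : ∀ w ∈ g.support, w.im < β) (hη : 0 < η) :
    ∀ᶠ τ : ℝ in atTop, ‖ES g τ‖ ≤ η * Real.exp (β * τ) := by
  have hlim : Tendsto (fun τ : ℝ => ∑ w ∈ g.support, ‖g w‖ * Real.exp (-((β - w.im) * τ))) atTop
      (𝓝 0) := by
    have : (0 : ℝ) = ∑ w ∈ g.support, (0 : ℝ) := by simp
    rw [this]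
    apply tendsto_finsetSum
    intro w hw
    have h1 : Tendsto (fun τ : ℝ => Real.exp (-((β - w.im) * τ))) atTop (𝓝 0) := by
      apply Real.tendsto_exp_neg_atTop_nhds_zero.comp
      exact tendsto_id.const_mul_atTop (by linarith [h w hw])
    simpa using h1.const_mul ‖g w‖
  filter_upwards [hlim.eventually_le_const hη] with τ hτ
  refine (ES_le g τ).trans ?_
  have e : ∑ w ∈ g.support, ‖g w‖ * Real.exp (w.im * τ) =
      (∑ w ∈ g.support, ‖g w‖ * Real.exp (-((β - w.im) * τ))) * Real.exp (β * τ) := by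
    rw [Finset.sum_mul]
    apply Finset.sum_congr rfl
    intro w _
    rw [mul_assoc, ← Real.exp_add]
    congr 2
    ring
  rw [e]
  exact mul_le_mul_of_nonneg_right hτ (Real.exp_pos _).le

lemma norm_KK (ε s c T : ℝ) (u z : ℂ) (hε : 0 < ε) (hu : ‖u‖ = 1) :
    ‖KK ε s c T u z‖ = ε * Real.exp (-(s * T)) * ‖bh c z‖ * Real.exp (T * z.im) := by
  unfold KK
  rw [norm_mul, norm_mul, norm_mul, norm_mul, hu, Complex.norm_real, Real.norm_eq_abs,
    abs_of_pos hε, Complex.norm_exp, Complex.norm_exp]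
  simp

lemma den_re (c : ℝ) (z : ℂ) : (1 + I * c * z).re = 1 - c * z.im := by simp; ring

lemma den_im (c : ℝ) (z : ℂ) : (1 + I * c * z).im = c * z.re := by simp

lemma den_ne {c : ℝ} (hc : 0 < c) (hc1 : c ≤ 1) {z : ℂ} (hz : z.im < 1 / 2) :
    1 + I * c * z ≠ 0 := by
  intro h
  have h1 := congrArg Complex.re h
  rw [den_re, Complex.zero_re] at h1
  nlinarith

lemma fp_step {F : ℂ → ℂ} (hF : FP F) {ε s c T : ℝ} {u : ℂ} (hu : ‖u‖ = 1) (hε : 0 < ε)
    (hs : 0 < s) (hc : 0 < c) (hc1 : c ≤ 1) (hT : 0 ≤ T) (hne : F 0 + KK ε s c T u 0 ≠ 0) :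
    FP (fun z => F z + KK ε s c T u z) := by
  refine ⟨?_, ?_, hne⟩
  · apply hF.diff.add
    unfold KK bh
    intro z hz
    have hd := den_ne hc hc1 (z := z) hz
    apply DifferentiableAt.differentiableWithinAt
    fun_prop (disch := exact hd)
  · intro η hη
    obtain ⟨X₁, hX₁⟩ := hF.dec (η / 2) (by positivity)
    refine ⟨max X₁ (2 * ε * Real.exp (T / 4) / (c * η) + 1), ?_⟩
    intro z hz h0 h4
    have h1 := hX₁ z ((le_max_left _ _).trans hz) h0 h4
    have h2 : 2 * ε * Real.exp (T / 4) / (c * η) + 1 ≤ z.re := (le_max_right _ _).trans hz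
    have h3 : 0 ≤ 2 * ε * Real.exp (T / 4) / (c * η) := by positivity
    have hre : 0 < z.re := by linarith
    have hK : ‖KK ε s c T u z‖ ≤ η / 2 := by
      rw [norm_KK ε s c T u z hε hu]
      have hb : ‖bh c z‖ ≤ 1 / (c * z.re) := by
        unfold bh
        rw [norm_div, norm_one]
        apply one_div_le_one_div_of_le (by positivity)
        have := Complex.abs_im_le_norm (1 + I * c * z)
        rw [den_im, abs_of_pos (by positivity)] at this
        exact this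
      have he1 : Real.exp (-(s * T)) ≤ 1 := by
        rw [Real.exp_le_one_iff]
        have : 0 ≤ s * T := by positivity
        linarith
      have he2 : Real.exp (T * z.im) ≤ Real.exp (T / 4) := by
        apply Real.exp_le_exp.mpr
        nlinarith
      have h5 : 2 * ε * Real.exp (T / 4) ≤ z.re * (c * η) := by
        have : 2 * ε * Real.exp (T / 4) / (c * η) ≤ z.re := by linarith
        rwa [div_le_iff₀ (by positivity)] at this
      calc ε * Real.exp (-(s * T)) * ‖bh c z‖ * Real.exp (T * z.im)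
          ≤ ε * 1 * (1 / (c * z.re)) * Real.exp (T / 4) := by
            gcongr
        _ = (ε * Real.exp (T / 4)) / (c * z.re) := by ring
        _ ≤ η / 2 := by
            rw [div_le_iff₀ (by positivity)]
            nlinarith
    refine (norm_add_le _ _).trans ?_
    linarith

/-- tail integrals are small -/
lemma tail_small {h : ℝ → ℝ} (hh : IntegrableOn h (Ioi 0)) {η : ℝ} (hη : 0 < η) :
    ∀ᶠ a : ℝ in atTop, ∫ t in Ioi a, h t ≤ η := by
  have h1 := intervalIntegral_tendsto_integral_Ioi 0 hh (tendsto_id (α := ℝ) (x := atTop))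
  have h2 : Tendsto (fun a : ℝ => (∫ t in Ioi 0, h t) - ∫ t in (0 : ℝ)..a, h t) atTop (𝓝 0) := by
    have := (tendsto_const_nhds (x := ∫ t in Ioi 0, h t)).sub h1
    simpa using this
  filter_upwards [h2.eventually_le_const hη, eventually_ge_atTop 0] with a ha ha0
  have h3 : (∫ t in (0 : ℝ)..a, h t) + ∫ t in Ioi a, h t = ∫ t in Ioi 0, h t := by
    apply intervalIntegral.integral_interval_add_Ioi hh
    exact hh.mono_set (Ioi_subset_Ioi ha0)
  linarith

structure St where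
  T : ℝ
  c : ℝ
  u : ℂ
  F : ℂ → ℂ
  g : ℂ →₀ ℂ
  f : ℝ → ℂ

structure Inv (n : ℕ) (x : St) : Prop where
  T1 : 1 ≤ x.T
  fp : FP x.F
  gz : ∀ w ∈ x.g.support, GZ x.F (sl (n + 1)) (ep (n + 1)) w
  F0' : ‖x.F 0 - F0 0‖ ≤ (1 / 4) * (1 - (1 / 2) ^ n) * ‖F0 0‖
  meas : Measurable x.f
  int : IntegrableOn (fun t => ‖x.f t‖ * Real.exp (t / 4)) (Ioi 0)

structure Rel (Cb : ℝ) (n : ℕ) (x y : St) : Prop where
  T4 : 4 * x.T ≤ y.T
  c0 : 0 < y.c
  c1 : y.c ≤ 1
  cdef : y.c = Cb * 2 ^ (n + 3) * (ep (n + 1) * Real.exp (-(sl (n + 1) * y.T)))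
  u1 : ‖y.u‖ = 1
  Fs : y.F = fun z => x.F z + KK (ep (n + 1)) (sl (n + 1)) y.c y.T y.u z
  fs : y.f = fun t => x.f t + (y.u * ep (n + 1) * Complex.exp (-((sl (n + 1) * y.T : ℝ) : ℂ))) *
      bmp y.c y.T t
  A : ∀ τ : ℝ, 0 ≤ τ → τ ≤ y.T / 2 → ‖ES y.g τ - ES x.g τ‖ ≤ et n * Real.exp (sl n * τ)
  B1 : ∀ j : ℕ, 1 ≤ j → ∀ σ : ℝ, 0 ≤ σ → σ ≤ y.T / 2 →
    ‖ES y.g (j * y.T + σ)‖ ≤ et n * Real.exp (j * (sl (n + 1) * y.T) + sl n * σ)
  B2 : ∀ (j : ℕ) (σ : ℝ), y.T / 2 ≤ σ → σ ≤ y.T →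
    ‖ES y.g (j * y.T + σ)‖ ≤ et n * Real.exp ((j + 1) * (sl (n + 1) * y.T))
  R6 : ∀ τ : ℝ, y.T / 4 ≤ τ → ‖ES x.g τ‖ ≤ et n * Real.exp (sl n * τ)
  R5 : ∀ τ : ℝ, 0 ≤ τ → τ ≤ n →
    ∫ t in Ioi (y.T / 2 - τ), ‖x.f t‖ * ‖ES x.g (t + τ)‖ ≤ (1 / 2) ^ n

lemma ev_R5 {n : ℕ} {x : St} (hx : Inv n x) : ∀ᶠ T : ℝ in atTop, ∀ τ : ℝ, 0 ≤ τ → τ ≤ n →
    ∫ t in Ioi (T / 2 - τ), ‖x.f t‖ * ‖ES x.g (t + τ)‖ ≤ (1 / 2) ^ n := by
  obtain ⟨M, hM⟩ : ∃ M : ℝ, M = 1 + ∑ w ∈ x.g.support, ‖x.g w‖ := ⟨_, rfl⟩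
  have hM0 : 0 < M := by
    rw [hM]
    have : 0 ≤ ∑ w ∈ x.g.support, ‖x.g w‖ := Finset.sum_nonneg fun _ _ => norm_nonneg _
    linarith
  obtain ⟨K, hK⟩ : ∃ K : ℝ, K = M * Real.exp (n / 4) := ⟨_, rfl⟩
  have hK0 : 0 < K := by rw [hK]; positivity
  have htail := tail_small hx.int (η := (1 / 2) ^ n / K) (by positivity)
  have hlim : Tendsto (fun T : ℝ => T / 2 - n) atTop atTop :=
    tendsto_atTop_add_const_right _ _ (tendsto_id.atTop_div_const (by norm_num))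
  filter_upwards [hlim.eventually htail, eventually_ge_atTop (2 * (n : ℝ))] with T hT hTn
  intro τ hτ0 hτn
  have hpos : 0 ≤ T / 2 - n := by linarith
  have hle : T / 2 - n ≤ T / 2 - τ := by linarith
  have hint : IntegrableOn (fun t => K * (‖x.f t‖ * Real.exp (t / 4))) (Ioi (T / 2 - n)) :=
    (hx.int.mono_set (Ioi_subset_Ioi hpos)).const_mul K
  have h1 : ∫ t in Ioi (T / 2 - τ), ‖x.f t‖ * ‖ES x.g (t + τ)‖ ≤
      ∫ t in Ioi (T / 2 - τ), K * (‖x.f t‖ * Real.exp (t / 4)) := by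
    apply integral_mono_of_nonneg
    · exact Eventually.of_forall fun t => by positivity
    · exact hint.mono_set (Ioi_subset_Ioi hle)
    · rw [Filter.EventuallyLE, ae_restrict_iff' measurableSet_Ioi]
      refine Eventually.of_forall fun t ht => ?_
      have ht0 : 0 ≤ t := by
        have : T / 2 - τ < t := ht
        linarith
      have h2 : ‖ES x.g (t + τ)‖ ≤ K * Real.exp (t / 4) := by
        refine (ES_bound x.g (1 / 4) (t + τ) (by linarith) ?_).trans ?_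
        · intro w hw
          have h3 := (hx.gz w hw).hi
          rw [sl_succ] at h3
          linarith [sl_le n]
        · have h4 : Real.exp (1 / 4 * (t + τ)) ≤ Real.exp (n / 4) * Real.exp (t / 4) := by
            rw [← Real.exp_add]
            apply Real.exp_le_exp.mpr
            linarith
          calc (∑ w ∈ x.g.support, ‖x.g w‖) * Real.exp (1 / 4 * (t + τ))
              ≤ M * (Real.exp (n / 4) * Real.exp (t / 4)) := by
                apply mul_le_mul _ h4 (Real.exp_pos _).le hM0.le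
                rw [hM]; linarith
            _ = K * Real.exp (t / 4) := by rw [hK]; ring
      calc ‖x.f t‖ * ‖ES x.g (t + τ)‖ ≤ ‖x.f t‖ * (K * Real.exp (t / 4)) :=
            mul_le_mul_of_nonneg_left h2 (norm_nonneg _)
        _ = K * (‖x.f t‖ * Real.exp (t / 4)) := by ring
  have h5 : ∫ t in Ioi (T / 2 - τ), K * (‖x.f t‖ * Real.exp (t / 4)) ≤
      ∫ t in Ioi (T / 2 - n), K * (‖x.f t‖ * Real.exp (t / 4)) := by
    apply setIntegral_mono_set hint
    · exact Eventually.of_forall fun t => by positivity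
    · exact (Ioi_subset_Ioi hle).eventuallyLE
  have h6 : ∫ t in Ioi (T / 2 - n), K * (‖x.f t‖ * Real.exp (t / 4)) ≤ (1 / 2) ^ n := by
    rw [integral_const_mul]
    calc K * ∫ t in Ioi (T / 2 - n), ‖x.f t‖ * Real.exp (t / 4)
        ≤ K * ((1 / 2) ^ n / K) := mul_le_mul_of_nonneg_left hT hK0.le
      _ = (1 / 2) ^ n := by field_simp
  linarith

lemma step (h : S_LEVEL) {Cb : ℝ} (hB : BB Cb) (n : ℕ) (x : St) (hx : Inv n x) :
    ∃ y : St, Inv (n + 1) y ∧ Rel Cb n x y := by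
  have hCb := hB.1
  have hs0 := sl_pos (n + 1)
  have he0 := ep_pos (n + 1)
  -- conditions on `T`
  have hclim : Tendsto (fun T : ℝ => Cb * 2 ^ (n + 3) * (ep (n + 1) *
      Real.exp (-(sl (n + 1) * T)))) atTop (𝓝 0) := by
    have h1 : Tendsto (fun T : ℝ => Real.exp (-(sl (n + 1) * T))) atTop (𝓝 0) := by
      apply Real.tendsto_exp_neg_atTop_nhds_zero.comp
      exact tendsto_id.const_mul_atTop hs0
    have h2 := (h1.const_mul (ep (n + 1))).const_mul (Cb * 2 ^ (n + 3))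
    simpa using h2
  have hR6 : ∀ᶠ T : ℝ in atTop, ∀ τ : ℝ, T / 4 ≤ τ →
      ‖ES x.g τ‖ ≤ et n * Real.exp (sl n * τ) := by
    have h1 := ES_small x.g (sl n) (et n) (fun w hw => by
      have := (hx.gz w hw).hi
      rwa [sl_succ] at this) (et_pos n)
    obtain ⟨a, ha⟩ := eventually_atTop.mp h1
    filter_upwards [eventually_ge_atTop (4 * a)] with T hT τ hτ
    exact ha τ (by linarith)
  have hev : ∀ᶠ T : ℝ in atTop, 1 ≤ T ∧ 4 * x.T ≤ T ∧
      Cb * 2 ^ (n + 3) * (ep (n + 1) * Real.exp (-(sl (n + 1) * T))) ≤ 1 ∧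
      (∀ τ : ℝ, T / 4 ≤ τ → ‖ES x.g τ‖ ≤ et n * Real.exp (sl n * τ)) ∧
      (∀ τ : ℝ, 0 ≤ τ → τ ≤ n →
        ∫ t in Ioi (T / 2 - τ), ‖x.f t‖ * ‖ES x.g (t + τ)‖ ≤ (1 / 2) ^ n) :=
    (eventually_ge_atTop 1).and ((eventually_ge_atTop (4 * x.T)).and
      ((hclim.eventually_le_const one_pos).and (hR6.and (ev_R5 hx))))
  obtain ⟨A₀, hA₀⟩ := eventually_atTop.mp hev
  obtain ⟨T, hTA, u, hu, g', hg1, hg2, hg3, hg4⟩ := h x.F (sl (n + 1)) (ep (n + 1)) (ep (n + 2)) x.g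
    hx.fp hs0 (sl_succ_le n) he0 (ep_pos _) hx.gz (Cb * 2 ^ (n + 3)) (by positivity) (et n)
    (et_pos n) A₀
  obtain ⟨hT1, hT4, hc1, hr6, hr5⟩ := hA₀ T hTA
  obtain ⟨c, hc⟩ : ∃ c : ℝ, c = Cb * 2 ^ (n + 3) * (ep (n + 1) * Real.exp (-(sl (n + 1) * T))) :=
    ⟨_, rfl⟩
  rw [← hc] at hg1 hc1
  have hc0 : 0 < c := by rw [hc]; positivity
  -- the value at zero
  have hKK0 : ‖KK (ep (n + 1)) (sl (n + 1)) c T u 0‖ ≤ (1 / 4) * (1 / 2) ^ (n + 1) * ‖F0 0‖ := by
    rw [norm_KK _ _ _ _ _ _ he0 hu]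
    have h1 := hB.2 0 c (by simp) hc0 hc1
    have h2 : bh c 0 = 1 := by simp [bh]
    rw [h2, norm_one, mul_one] at h1
    rw [h2, norm_one, mul_one, Complex.zero_im, mul_zero, Real.exp_zero, mul_one]
    rw [hc, mul_assoc] at h1
    have h3 := le_of_mul_le_mul_left h1 hCb
    have h4 : (2 : ℝ) ^ (n + 3) * ((1 / 4) * (1 / 2) ^ (n + 1)) = 1 := by
      have : (2 : ℝ) ^ (n + 3) = 4 * 2 ^ (n + 1) := by ring
      rw [this]
      have h5 : (2 : ℝ) ^ (n + 1) * (1 / 2) ^ (n + 1) = 1 := by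
        rw [← mul_pow]; norm_num
      linear_combination h5
    calc ep (n + 1) * Real.exp (-(sl (n + 1) * T))
        = (2 ^ (n + 3) * (ep (n + 1) * Real.exp (-(sl (n + 1) * T)))) *
            ((1 / 4) * (1 / 2) ^ (n + 1)) := by
          linear_combination (-(ep (n + 1) * Real.exp (-(sl (n + 1) * T)))) * h4
      _ ≤ ‖F0 0‖ * ((1 / 4) * (1 / 2) ^ (n + 1)) :=
          mul_le_mul_of_nonneg_right h3 (by positivity)
      _ = (1 / 4) * (1 / 2) ^ (n + 1) * ‖F0 0‖ := by ring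
  have hF0n : ‖x.F 0 + KK (ep (n + 1)) (sl (n + 1)) c T u 0 - F0 0‖ ≤
      (1 / 4) * (1 - (1 / 2) ^ (n + 1)) * ‖F0 0‖ := by
    have e : x.F 0 + KK (ep (n + 1)) (sl (n + 1)) c T u 0 - F0 0 =
        (x.F 0 - F0 0) + KK (ep (n + 1)) (sl (n + 1)) c T u 0 := by ring
    rw [e]
    refine (norm_add_le _ _).trans ?_
    have h1 := hx.F0'
    have h2 : (1 / 4 : ℝ) * (1 - (1 / 2) ^ (n + 1)) * ‖F0 0‖ =
        (1 / 4) * (1 - (1 / 2) ^ n) * ‖F0 0‖ + (1 / 4) * (1 / 2) ^ (n + 1) * ‖F0 0‖ := by ring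
    rw [h2]
    exact add_le_add h1 hKK0
  have hF00 : 0 < ‖F0 0‖ := norm_pos_iff.mpr rt_base.1.ne
  have hne : x.F 0 + KK (ep (n + 1)) (sl (n + 1)) c T u 0 ≠ 0 := by
    intro h0
    rw [h0, zero_sub, norm_neg] at hF0n
    have h1 : (0 : ℝ) < (1 / 2) ^ (n + 1) := by positivity
    nlinarith
  have hbmp := rt_bmp c T hc0 hc1 (by linarith)
  obtain ⟨κ, hκ⟩ : ∃ κ : ℂ, κ = u * ep (n + 1) * Complex.exp (-((sl (n + 1) * T : ℝ) : ℂ)) :=
    ⟨_, rfl⟩
  have hmeas : Measurable (fun t => x.f t + κ * bmp c T t) := hx.meas.add (hbmp.1.const_mul κ)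
  refine ⟨⟨T, c, u, fun z => x.F z + KK (ep (n + 1)) (sl (n + 1)) c T u z, g',
    fun t => x.f t + κ * bmp c T t⟩, ⟨hT1, ?_, ?_, hF0n, hmeas, ?_⟩,
    ⟨hT4, hc0, hc1, hc, hu, rfl, ?_, ?_, ?_, ?_, hr6, hr5⟩⟩
  · exact fp_step hx.fp hu he0 hs0 hc0 hc1 (by linarith) hne
  · intro w hw
    have := hg1 w hw
    rw [sl_half] at this
    exact this
  · have h1 : IntegrableOn (fun t => ‖x.f t‖ * Real.exp (t / 4) +
        ‖κ‖ * (‖bmp c T t‖ * Real.exp (t / 4))) (Ioi 0) :=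
      hx.int.add (hbmp.2.1.const_mul ‖κ‖)
    apply Integrable.mono' h1
    · apply Measurable.aestronglyMeasurable
      exact hmeas.norm.mul (by fun_prop)
    · refine Eventually.of_forall fun t => ?_
      rw [Real.norm_eq_abs, abs_of_nonneg (by positivity)]
      have h2 : ‖x.f t + κ * bmp c T t‖ ≤ ‖x.f t‖ + ‖κ‖ * ‖bmp c T t‖ := by
        refine (norm_add_le _ _).trans ?_
        rw [norm_mul]
      calc ‖x.f t + κ * bmp c T t‖ * Real.exp (t / 4)
          ≤ (‖x.f t‖ + ‖κ‖ * ‖bmp c T t‖) * Real.exp (t / 4) :=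
            mul_le_mul_of_nonneg_right h2 (Real.exp_pos _).le
        _ = ‖x.f t‖ * Real.exp (t / 4) + ‖κ‖ * (‖bmp c T t‖ * Real.exp (t / 4)) := by ring
  · rw [hκ]
  · intro τ h0 h1
    have := hg2 τ h0 h1
    rwa [sl_succ] at this
  · intro j hj σ h0 h1
    have := hg3 j hj σ h0 h1
    rwa [sl_succ] at this
  · intro j σ h0 h1
    exact hg4 j σ h0 h1

end Chn

open Chn in
theorem rt_chain (h : S_LEVEL) : S_CHAIN := by
  intro Cb hB
  have hstep := step h hB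
  choose! next hnext1 hnext2 using hstep
  let x0 : St := ⟨1, 1, 1, F0, Finsupp.single w0 1, f0⟩
  have hx0 : Inv 0 x0 := by
    refine ⟨le_refl _, rt_base.1, ?_, ?_, rt_base.2.2.1, rt_base.2.2.2.1⟩
    · intro w hw
      have hw' : w = w0 := by
        have := Finsupp.support_single_subset hw
        simpa using this
      rw [hw']
      have := rt_base.2.1
      simpa [ep] using this
    · simp [x0]
  let sq : ℕ → St := fun n => Nat.rec x0 (fun n x => next n x) n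
  have hsq0 : sq 0 = x0 := rfl
  have hsq1 : ∀ n, sq (n + 1) = next n (sq n) := fun n => rfl
  have hinv : ∀ n, Inv n (sq n) := by
    intro n
    induction n with
    | zero => exact hx0
    | succ n ih => rw [hsq1]; exact hnext1 n _ ih
  have hrel : ∀ n, Rel Cb n (sq n) (sq (n + 1)) := by
    intro n
    rw [hsq1]
    exact hnext2 n _ (hinv n)
  have hf : ∀ n, (sq n).f = fn (fun n => (sq n).c) (fun n => (sq n).T) (fun n => (sq n).u) n := by
    intro n
    induction n with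
    | zero =>
      funext t
      simp [fn, hsq0, x0]
    | succ n ih =>
      funext t
      rw [(hrel n).fs, ih]
      simp only [fn, Finset.sum_range_succ]
      ring
  refine ⟨fun n => (sq n).T, fun n => (sq n).c, fun n => (sq n).u, fun n => (sq n).F,
    fun n => (sq n).g, ?_⟩
  exact
    { T1 := fun n => (hinv n).T1
      T4 := fun n => (hrel n).T4
      c0 := fun n => (hrel n).c0
      c1 := fun n => (hrel n).c1
      cdef := fun n => (hrel n).cdef
      u1 := fun n => (hrel n).u1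
      F0' := rfl
      Fs := fun n => (hrel n).Fs
      g0 := rfl
      gz := fun n => (hinv n).gz
      A := fun n => (hrel n).A
      B1 := fun n => (hrel n).B1
      B2 := fun n => (hrel n).B2
      R6 := fun n => (hrel n).R6
      R5 := fun n τ h0 h1 => by
        have := (hrel n).R5 τ h0 h1
        rw [hf n] at this
        exact this }

end K34RT
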