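import Pool.Agent.K34RT.Defs

/-!
MP_27fa52_an: further leaves (ZERO, CHAIN, F1, F2, F3).
-/

set_option autoImplicit false

open Complex MeasureTheory Set Filter Topology

noncomputable section

namespace K34RT

/-- ZERO: the zeros of `F + KK` in the tilted rectangle -/
def S_ZERO : Prop := ∀ (F : ℂ → ℂ) (s ε ε' X : ℝ) (w : ℂ) (μ l L δ : ℝ), FP F → 0 < s →
  s ≤ 1/8 → 0 < ε → 0 < ε' → Geo F s ε X w μ l L δ →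
  (∀ z : ℂ, X - 1 ≤ z.re → 0 ≤ z.im → z.im ≤ 1/4 → ‖F z‖ ≤ ε' / 32) →
  ∃ c₀ : ℝ, 0 < c₀ ∧ ∀ᶠ T : ℝ in atTop, ∀ c : ℝ, 0 < c → c ≤ c₀ → ∀ u : ℂ, ‖u‖ = 1 →
  (∀ ζ ∈ Bd l L δ, F (zz w μ ζ) + KK ε s c T u (zz w μ ζ) ≠ 0) →
  ∃ Z : Finset ℂ,
    (∀ v ∈ Z, v ∈ Ro l L δ ∧ F (zz w μ v) + KK ε s c T u (zz w μ v) = 0 ∧
      deriv (fun ζ => F (zz w μ ζ) + KK ε s c T u (zz w μ ζ)) v ≠ 0) ∧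
    (∀ ζ ∈ Rc l L δ, F (zz w μ ζ) + KK ε s c T u (zz w μ ζ) = 0 → ζ ∈ Z) ∧
    (∀ v ∈ Z, GZ (fun z => F z + KK ε s c T u z) (s / 2) ε' (zz w μ v))

/-- the masses `ε_n` -/
def ep (n : ℕ) : ℝ := (1 / 2) ^ n

/-- the errors `η_n` -/
def et (n : ℕ) : ℝ := (1 / 2) ^ (n + 4)

/-- partial sums of `f` -/
def fn (c T : ℕ → ℝ) (u : ℕ → ℂ) (n : ℕ) (t : ℝ) : ℂ :=
  f0 t + ∑ k ∈ Finset.range n,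
    (u (k + 1) * ep (k + 1) * Complex.exp (-((sl (k + 1) * T (k + 1) : ℝ) : ℂ))) *
      bmp (c (k + 1)) (T (k + 1)) t

/-- the sequence of levels -/
structure Chain (Cb : ℝ) (T c : ℕ → ℝ) (u : ℕ → ℂ) (F : ℕ → ℂ → ℂ) (g : ℕ → ℂ →₀ ℂ) : Prop where
  T1 : ∀ n, 1 ≤ T n
  T4 : ∀ n, 4 * T n ≤ T (n + 1)
  c0 : ∀ n, 0 < c (n + 1)
  c1 : ∀ n, c (n + 1) ≤ 1
  cdef : ∀ n, c (n + 1) = Cb * 2 ^ (n + 3) * (ep (n + 1) * Real.exp (-(sl (n + 1) * T (n + 1))))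
  u1 : ∀ n, ‖u (n + 1)‖ = 1
  F0' : F 0 = F0
  Fs : ∀ n, F (n + 1) =
    fun z => F n z + KK (ep (n + 1)) (sl (n + 1)) (c (n + 1)) (T (n + 1)) (u (n + 1)) z
  g0 : g 0 = Finsupp.single w0 1
  gz : ∀ n, ∀ w ∈ (g n).support, GZ (F n) (sl (n + 1)) (ep (n + 1)) w
  A : ∀ (n : ℕ) (τ : ℝ), 0 ≤ τ → τ ≤ T (n + 1) / 2 →
    ‖ES (g (n + 1)) τ - ES (g n) τ‖ ≤ et n * Real.exp (sl n * τ)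
  B1 : ∀ (n j : ℕ), 1 ≤ j → ∀ σ : ℝ, 0 ≤ σ → σ ≤ T (n + 1) / 2 →
    ‖ES (g (n + 1)) (j * T (n + 1) + σ)‖ ≤
      et n * Real.exp (j * (sl (n + 1) * T (n + 1)) + sl n * σ)
  B2 : ∀ (n j : ℕ) (σ : ℝ), T (n + 1) / 2 ≤ σ → σ ≤ T (n + 1) →
    ‖ES (g (n + 1)) (j * T (n + 1) + σ)‖ ≤ et n * Real.exp ((j + 1) * (sl (n + 1) * T (n + 1)))
  R6 : ∀ (n : ℕ) (τ : ℝ), T (n + 1) / 4 ≤ τ → ‖ES (g n) τ‖ ≤ et n * Real.exp (sl n * τ)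
  R5 : ∀ (n : ℕ) (τ : ℝ), 0 ≤ τ → τ ≤ n →
    ∫ t in Ioi (T (n + 1) / 2 - τ), ‖fn c T u n t‖ * ‖ES (g n) (t + τ)‖ ≤ (1 / 2) ^ n

/-- the bound of the bump transforms by `F0` in the closed lower half plane -/
def BB (Cb : ℝ) : Prop :=
  0 < Cb ∧ ∀ (z : ℂ) (c : ℝ), z.im ≤ 0 → 0 < c → c ≤ 1 → c * ‖bh c z‖ ≤ Cb * ‖F0 z‖

/-- CHAIN (from S_LEVEL, S_BASE, S_BMP) -/
def S_CHAIN : Prop := ∀ Cb : ℝ, BB Cb → ∃ (T c : ℕ → ℝ) (u : ℕ → ℂ) (F : ℕ → ℂ → ℂ)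
  (g : ℕ → ℂ →₀ ℂ), Chain Cb T c u F g

/-- the properties of the logarithm of the weight (as in S_WT) -/
structure WP (T : ℕ → ℝ) (p : ℝ → ℝ) : Prop where
  mono : Monotone p
  neg : ∀ t, t ≤ 0 → p t = 0
  nn : ∀ t, 0 ≤ p t
  sub : ∀ a b, p (a + b) ≤ p a + p b
  le0 : ∀ t, 0 ≤ t → p t ≤ sl 0 * t
  piece : ∀ n : ℕ, p (T (n + 1)) ≤ sl (n + 1) * T (n + 1)
  lim : Tendsto (fun t => p t / t) atTop (𝓝 0)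
  low1 : ∀ (n : ℕ) (t : ℝ), 0 ≤ t → t ≤ T (n + 1) / 2 → sl n * t ≤ p t
  low2 : ∀ (n j : ℕ) (σ : ℝ), 0 ≤ σ → σ ≤ T (n + 1) → j * T (n + 1) + σ ≤ T (n + 2) / 4 →
    j * (sl (n + 1) * T (n + 1)) + min (sl n * σ) (sl (n + 1) * T (n + 1)) ≤ p (j * T (n + 1) + σ)

/-- F1: the limit function `G = lim ES (g n)`.
Proof: for `T m / 2 < τ ≤ T (m+1) / 2` one has `‖ES (g m) τ‖ ≤ et (m-1) exp (p τ)` by B1/B2 and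
low2 if `τ ≤ T (m+1) / 4`, and by R6, low1 otherwise; later increments by A and low1. -/
def S_F1 : Prop := ∀ (Cb : ℝ) (T c : ℕ → ℝ) (u : ℕ → ℂ) (F : ℕ → ℂ → ℂ) (g : ℕ → ℂ →₀ ℂ)
  (p : ℝ → ℝ), Chain Cb T c u F g → WP T p → ∃ G : ℝ → ℂ, Measurable G ∧
  (∀ τ, 0 ≤ τ → Tendsto (fun n => ES (g n) τ) atTop (𝓝 (G τ))) ∧
  (∀ (n : ℕ) (τ : ℝ), 0 ≤ τ → τ ≤ T (n + 1) / 2 → ‖ES (g n) τ‖ ≤ 2 * Real.exp (p τ)) ∧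
  (∀ τ, 0 ≤ τ → ‖G τ‖ ≤ 2 * Real.exp (p τ)) ∧ (∀ τ, 0 < τ → τ ≤ 1 → G τ ≠ 0)

/-- one-sided transform -/
def fhat (f : ℝ → ℂ) (z : ℂ) : ℂ :=
  ∫ t in Set.Ioi (0:ℝ), f t * Complex.exp (-(Complex.I * (t:ℂ) * z))

/-- F2: the limit function `f = lim fn n`, its transform and the dominating function.
`‖κ_n bh(c_n) exp(-i T_n z)‖ ≤ 2^{-n-2} ‖F0 z‖` for `Im z ≤ 0` by `BB` and `cdef`. -/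
def S_F2 : Prop := ∀ (Cb : ℝ) (T c : ℕ → ℝ) (u : ℕ → ℂ) (F : ℕ → ℂ → ℂ) (g : ℕ → ℂ →₀ ℂ)
  (p : ℝ → ℝ), BB Cb → Chain Cb T c u F g → WP T p → ∃ (f : ℝ → ℂ) (D : ℝ → ℝ), Measurable f ∧
  (∀ t, t < 0 → f t = 0) ∧ (∀ t, 0 < t → Tendsto (fun n => fn c T u n t) atTop (𝓝 (f t))) ∧
  (∀ n t, 0 < t → ‖fn c T u n t‖ ≤ D t) ∧ (∀ t, 0 < t → ‖f t‖ ≤ D t) ∧
  IntegrableOn (fun t => D t * Real.exp (p t)) (Ioi 0) ∧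
  (∀ z : ℂ, z.im ≤ 0 → fhat f z ≠ 0) ∧
  Filter.limsup (fun y : ℝ => ((Real.log ‖fhat f (y * Complex.I)‖ / |y| : ℝ) : EReal)) atBot = 0

/-- F3: the relation -/
def S_F3 : Prop := ∀ (Cb : ℝ) (T c : ℕ → ℝ) (u : ℕ → ℂ) (F : ℕ → ℂ → ℂ) (g : ℕ → ℂ →₀ ℂ)
  (p : ℝ → ℝ) (G f : ℝ → ℂ) (D : ℝ → ℝ), BB Cb → Chain Cb T c u F g → WP T p → Measurable G →
  Measurable f →
  (∀ τ, 0 ≤ τ → Tendsto (fun n => ES (g n) τ) atTop (𝓝 (G τ))) →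
  (∀ (n : ℕ) (τ : ℝ), 0 ≤ τ → τ ≤ T (n + 1) / 2 → ‖ES (g n) τ‖ ≤ 2 * Real.exp (p τ)) →
  (∀ t, 0 < t → Tendsto (fun n => fn c T u n t) atTop (𝓝 (f t))) →
  (∀ n t, 0 < t → ‖fn c T u n t‖ ≤ D t) →
  IntegrableOn (fun t => D t * Real.exp (p t)) (Ioi 0) →
  ∀ τ : ℝ, 0 < τ → ∫ t in Ioi (0:ℝ), f t * G (t + τ) = 0

end K34RT

end
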