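import Pool.Agent.K34RT.Core2
import Pool.Agent.K34RT.Defs2

set_option autoImplicit false

open Complex MeasureTheory Set Filter Topology

noncomputable section

namespace K34RT

lemma ES_sum1 {ι : Type*} (Z : Finset ι) (x a : ι → ℂ) (τ : ℝ) :
    ES (∑ v ∈ Z, Finsupp.single (x v) (a v)) τ = ∑ v ∈ Z, a v * Complex.exp (-(I * x v * τ)) := by
  unfold ES
  rw [← Finsupp.sum_finset_sum_index]
  · apply Finset.sum_congr rfl
    intro v _
    rw [Finsupp.sum_single_index]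
    simp
  · intro; simp
  · intro a b c; ring

lemma tendsto_TexpT {b : ℝ} (hb : 0 < b) (K : ℝ) :
    Tendsto (fun T : ℝ => K * (T * Real.exp (-(b * T)))) atTop (𝓝 0) := by
  have h1 : Tendsto (fun T : ℝ => b * T) atTop atTop := tendsto_id.const_mul_atTop hb
  have h2 := (Real.tendsto_pow_mul_exp_neg_atTop_nhds_zero 1).comp h1
  have h3 := h2.const_mul (K / b)
  rw [mul_zero] at h3
  refine h3.congr ?_
  intro T
  simp only [Function.comp, pow_one]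
  field_simp

/-- the exponential in the chart -/
def ev (w : ℂ) (μ x : ℝ) (ζ : ℂ) : ℂ := Complex.exp (-(I * zz w μ ζ * x))

lemma ev_diff (w : ℂ) (μ x : ℝ) : Differentiable ℂ (ev w μ x) := by
  unfold ev
  have := zz_diff w μ
  fun_prop

lemma ev_norm (w : ℂ) (μ x : ℝ) (ζ : ℂ) : ‖ev w μ x ζ‖ = Real.exp ((zz w μ ζ).im * x) := by
  unfold ev
  rw [Complex.norm_exp]
  congr 1
  simp

lemma ev_add (w : ℂ) (μ x y : ℝ) (ζ : ℂ) : ev w μ (x + y) ζ = ev w μ x ζ * ev w μ y ζ := by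
  unfold ev
  rw [← Complex.exp_add]
  congr 1
  push_cast
  ring

section ctx

variable {F : ℂ → ℂ} {s ε X : ℝ} {w : ℂ} {μ l L δ : ℝ}

theorem core_aux (hF : FP F) (hs : 0 < s) (hs8 : s ≤ 1/8) (hε : 0 < ε) (hG : Geo F s ε X w μ l L δ)
    (hw : F w = 0) {lam ν b C T c : ℝ} {u : ℂ} {Z : Finset ℂ} (hC : 0 < C) (hT : 2 ≤ T)
    (hc : 0 < c) (hc1 : c ≤ 1) (hc0 : c * (‖w‖ + 2 * (l + L + δ)) ≤ 1) (hu : ‖u‖ = 1)
    (hPT : ∀ ζ ∈ Bd l L δ,
      0 < ‖F (zz w μ ζ) + KK ε s c T u (zz w μ ζ)‖ ∧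
      ‖KK ε s c T u (zz w μ ζ)‖ / ‖F (zz w μ ζ) + KK ε s c T u (zz w μ ζ)‖ *
        (‖PP T lam ν ζ‖ / ‖ζ‖) ≤ C * T * Real.exp (-(b * T)) ∧
      ∀ x : ℝ, 0 ≤ x → x ≤ T →
        ‖F (zz w μ ζ)‖ / ‖F (zz w μ ζ) + KK ε s c T u (zz w μ ζ)‖ *
        Real.exp ((zz w μ ζ).im * x) * (‖PP T lam ν ζ‖ / ‖ζ‖) ≤
          C * T * Real.exp (-(b * T)) * Real.exp (s * T))
    (hZ1 : ∀ v ∈ Z, v ∈ Ro l L δ ∧ F (zz w μ v) + KK ε s c T u (zz w μ v) = 0 ∧
      deriv (fun ζ => F (zz w μ ζ) + KK ε s c T u (zz w μ ζ)) v ≠ 0)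
    (hZ2 : ∀ ζ ∈ Rc l L δ, F (zz w μ ζ) + KK ε s c T u (zz w μ ζ) = 0 → ζ ∈ Z) :
    ∃ a : ℂ → ℂ, ∀ j : ℕ, ∀ x : ℝ, 0 ≤ x →
      ‖(∑ v ∈ Z, a v * Complex.exp (-(I * zz w μ v * ((j * T + x : ℝ) : ℂ)))) -
        (if j = 0 then Complex.exp (-(I * w * x)) else 0)‖ ≤
        ‖RI l L δ (fun ζ => 1 / ζ)‖⁻¹ * (C * T * Real.exp (-(b * T)) *
          (2 * (l + L) + 4 * δ)) * Real.exp (j * (s * T) + 2 * s * x) ∧
      (x ≤ T → ‖∑ v ∈ Z, a v * Complex.exp (-(I * zz w μ v * ((j * T + x : ℝ) : ℂ)))‖ ≤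
        ‖RI l L δ (fun ζ => 1 / ζ)‖⁻¹ * (C * T * Real.exp (-(b * T)) *
          (2 * (l + L) + 4 * δ)) * Real.exp ((j + 1) * (s * T))) := by
  have hl := hG.l0
  have hL := hG.L0
  have hδ := hG.δ0
  have hT0 : 0 < T := by linarith
  set N : ℂ := RI l L δ (fun ζ => 1 / ζ) with hN
  have hN0 : N ≠ 0 := RI_N hl hL hδ
  set V := VV w μ with hV
  have hVo : IsOpen V := isOpen_VV w μ
  have hRV : Rc l L δ ⊆ V := hG.sub_VV hs8
  have hBV : Bd l L δ ⊆ V := Bd_sub_Rc.trans hRV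
  have h0R : (0:ℂ) ∈ Ro l L δ := by refine ⟨?_, ?_, ?_, ?_⟩ <;> simp <;> linarith
  set Fz : ℂ → ℂ := fun ζ => F (zz w μ ζ) with hFz
  set Kz : ℂ → ℂ := fun ζ => KK ε s c T u (zz w μ ζ) with hKz
  set Fp : ℂ → ℂ := fun ζ => F (zz w μ ζ) + KK ε s c T u (zz w μ ζ) with hFp
  have hFpe : ∀ ζ, Fp ζ = Fz ζ + Kz ζ := fun _ => rfl
  have hmaps : MapsTo (zz w μ) V U := fun ζ hζ => hζ
  have hFzd : DifferentiableOn ℂ Fz V := hF.diff.comp (zz_diff w μ).differentiableOn hmaps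
  have hKzd : DifferentiableOn ℂ Kz V := (KK_diff hc hc1).comp (zz_diff w μ).differentiableOn hmaps
  have hFpd : DifferentiableOn ℂ Fp V := hFzd.add hKzd
  have hFz0 : Fz 0 = 0 := by simp only [hFz, zz_zero]; exact hw
  set P : ℂ → ℂ := PP T lam ν with hP
  have hPd : DifferentiableOn ℂ P V := (PP_diff T lam ν).differentiableOn
  set M : ℂ → ℂ := fun ζ => dslope Fz 0 ζ * P ζ with hM
  have hMd : DifferentiableOn ℂ M V :=
    ((Complex.differentiableOn_dslope (hVo.mem_nhds (hRV (Ro_sub_Rc h0R)))).2 hFzd).mul hPd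
  have hB0 : ∀ ζ ∈ Bd l L δ, ζ ≠ 0 := fun ζ hζ => not_Bd_of_Ro h0R hζ
  have hMe : ∀ ζ ∈ Bd l L δ, M ζ = Fz ζ * P ζ / ζ := by
    intro ζ hζ
    simp only [hM]
    rw [dslope_of_ne _ (hB0 ζ hζ), slope_def_field, hFz0, sub_zero, sub_zero]
    ring
  have hFpn : ∀ ζ ∈ Bd l L δ, Fp ζ ≠ 0 := fun ζ hζ => norm_pos_iff.1 (hPT ζ hζ).1
  -- residues
  obtain ⟨cc, hcc⟩ := RES hl hL hδ hVo hRV Z.card Z Fp M rfl hFpd hMd hZ1 hZ2
  refine ⟨fun v => N⁻¹ * cc v, ?_⟩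
  have hES : ∀ x : ℝ, (∑ v ∈ Z, N⁻¹ * cc v * Complex.exp (-(I * zz w μ v * x))) =
      N⁻¹ * RI l L δ (fun ζ => M ζ * ev w μ x ζ / Fp ζ) := by
    intro x
    rw [hcc (ev w μ x) (ev_diff w μ x).differentiableOn, Finset.mul_sum]
    apply Finset.sum_congr rfl
    intro v _
    unfold ev
    ring
  -- the coefficient `B`
  set B : ℂ → ℂ := fun ζ => u * ε * Complex.exp (-((s * T : ℝ) : ℂ)) * bh c (zz w μ ζ) with hB
  have hBd : DifferentiableOn ℂ B V :=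
    (differentiableOn_const _).mul ((bh_diff hc hc1).comp (zz_diff w μ).differentiableOn hmaps)
  have hu0 : u ≠ 0 := norm_ne_zero_iff.1 (by rw [hu]; exact one_ne_zero)
  have hBn : ∀ ζ ∈ V, B ζ ≠ 0 := by
    intro ζ hζ
    simp only [hB]
    have h1 : bh c (zz w μ ζ) ≠ 0 := by
      unfold bh
      exact one_div_ne_zero (bh_ne hc hc1 hζ)
    have h2 : (ε : ℂ) ≠ 0 := by exact_mod_cast hε.ne'
    exact mul_ne_zero (mul_ne_zero (mul_ne_zero hu0 h2) (Complex.exp_ne_zero _)) h1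
  have hKB : ∀ ζ, Kz ζ = B ζ * ev w μ T ζ := by
    intro ζ
    simp only [hKz, hB, KK, ev]
    congr 2
    ring
  set q : ℂ → ℂ := fun ζ => -Fz ζ / B ζ with hq
  have hqd : DifferentiableOn ℂ q V := hFzd.neg.div hBd hBn
  have hq0 : q 0 = 0 := by simp only [hq, hFz0, neg_zero, zero_div]
  have hqb : ∀ ζ ∈ Rc l L δ, ‖q ζ‖ ≤ Real.exp (s * T) := by
    intro ζ hζ
    have hz : (zz w μ ζ).im < 1/2 := hRV hζ
    have h1 := hG.bd ζ hζ
    have h2 : 1/2 ≤ ‖bh c (zz w μ ζ)‖ := by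
      apply bh_ge hc _ (bh_ne hc hc1 hz)
      refine le_trans (mul_le_mul_of_nonneg_left ?_ hc.le) hc0
      exact norm_zz_le (abs_le.2 ⟨by linarith [hG.μ0], hG.μ1⟩) hG.l0 hG.L0 hG.δ0 hζ
    have h3 : ‖B ζ‖ = ε * Real.exp (-(s * T)) * ‖bh c (zz w μ ζ)‖ := by
      simp only [hB]
      rw [norm_mul, norm_mul, norm_mul, hu, norm_real, Real.norm_of_nonneg hε.le, Complex.norm_exp]
      simp
    have h4 : 0 < ‖B ζ‖ := norm_pos_iff.2 (hBn ζ (hRV hζ))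
    simp only [hq]
    rw [norm_div, norm_neg, div_le_iff₀ h4, h3]
    have h5 : Real.exp (s * T) * Real.exp (-(s * T)) = 1 := by rw [← Real.exp_add]; simp
    calc ‖Fz ζ‖ ≤ ε / 4 := h1
      _ ≤ ε * (1/2) := by linarith
      _ ≤ ε * ‖bh c (zz w μ ζ)‖ := mul_le_mul_of_nonneg_left h2 hε.le
      _ = Real.exp (s * T) * Real.exp (-(s * T)) * (ε * ‖bh c (zz w μ ζ)‖) := by rw [h5, one_mul]
      _ = _ := by ring
  -- shift by T
  have hstep : ∀ E : ℂ → ℂ, DifferentiableOn ℂ E V →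
      RI l L δ (fun ζ => M ζ * (ev w μ T ζ * E ζ) / Fp ζ) =
      RI l L δ (fun ζ => M ζ * (q ζ * E ζ) / Fp ζ) := by
    intro E hE
    have e1 : RI l L δ (fun ζ => M ζ * (ev w μ T ζ * E ζ) / Fp ζ) =
        RI l L δ (fun ζ => M ζ * E ζ / B ζ + M ζ * (q ζ * E ζ) / Fp ζ) := by
      apply RI_congr hl hL hδ
      intro ζ hζ
      have h1 := hFpn ζ hζ
      have h2 := hBn ζ (hBV hζ)
      have h3 : ev w μ T ζ = (Fp ζ - Fz ζ) / B ζ := by
        rw [hFpe, hKB]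
        field_simp
        ring
      rw [h3]
      simp only [hq]
      field_simp
      ring
    have hd1 : DifferentiableOn ℂ (fun ζ => M ζ * E ζ / B ζ) V := (hMd.mul hE).div hBd hBn
    rw [e1, RI_add hl hL hδ (hd1.continuousOn.mono hBV), RI_zero hl hL hδ (hd1.mono hRV), zero_add]
    exact ((hMd.mul (hqd.mul hE)).continuousOn.mono hBV).div (hFpd.continuousOn.mono hBV) hFpn
  have hshift : ∀ (j : ℕ) (E : ℂ → ℂ), DifferentiableOn ℂ E V →
      RI l L δ (fun ζ => M ζ * (ev w μ (j * T) ζ * E ζ) / Fp ζ) =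
      RI l L δ (fun ζ => M ζ * (q ζ ^ j * E ζ) / Fp ζ) := by
    intro j
    induction j with
    | zero =>
      intro E hE
      apply RI_congr hl hL hδ
      intro ζ _
      simp [ev]
    | succ j ih =>
      intro E hE
      have e1 : RI l L δ (fun ζ => M ζ * (ev w μ ((j + 1 : ℕ) * T) ζ * E ζ) / Fp ζ) =
          RI l L δ (fun ζ => M ζ * (ev w μ T ζ * (ev w μ (j * T) ζ * E ζ)) / Fp ζ) := by
        apply RI_congr hl hL hδ
        intro ζ _
        have : (((j + 1 : ℕ) : ℝ) * T) = T + j * T := by push_cast; ring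
        rw [this, ev_add]
        ring
      have hs1 := hstep (fun ζ => ev w μ (j * T) ζ * E ζ) ((ev_diff w μ (j * T)).differentiableOn.mul hE)
      rw [e1, hs1]
      have e2 : RI l L δ (fun ζ => M ζ * (q ζ * (ev w μ (j * T) ζ * E ζ)) / Fp ζ) =
          RI l L δ (fun ζ => M ζ * (ev w μ (j * T) ζ * (q ζ * E ζ)) / Fp ζ) := by
        apply RI_congr hl hL hδ
        intro ζ _
        ring
      have hs2 := ih (fun ζ => q ζ * E ζ) (hqd.mul hE)
      rw [e2, hs2]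
      apply RI_congr hl hL hδ
      intro ζ _
      ring
  have hmain : ∀ (j : ℕ) (x : ℝ), (∑ v ∈ Z, N⁻¹ * cc v *
      Complex.exp (-(I * zz w μ v * ((j * T + x : ℝ) : ℂ)))) =
      N⁻¹ * RI l L δ (fun ζ => M ζ * (q ζ ^ j * ev w μ x ζ) / Fp ζ) := by
    intro j x
    rw [hES, ← hshift j _ (ev_diff w μ x).differentiableOn]
    congr 1
    apply RI_congr hl hL hδ
    intro ζ _
    rw [ev_add]
  intro j x hx
  have hqj : ∀ ζ ∈ Bd l L δ, ‖q ζ ^ j‖ ≤ Real.exp (j * (s * T)) := by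
    intro ζ hζ
    rw [norm_pow, Real.exp_nat_mul]
    exact pow_le_pow_left₀ (norm_nonneg _) (hqb ζ (Bd_sub_Rc hζ)) j
  constructor
  · -- first bound
    have e1 : RI l L δ (fun ζ => M ζ * (q ζ ^ j * ev w μ x ζ) / Fp ζ) =
        RI l L δ (fun ζ => (P ζ * (q ζ ^ j * ev w μ x ζ)) / (ζ - 0) -
          Kz ζ / Fp ζ * (P ζ / ζ) * (q ζ ^ j * ev w μ x ζ)) := by
      apply RI_congr hl hL hδ
      intro ζ hζ
      have h1 := hFpn ζ hζ
      have h2 := hB0 ζ hζ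
      rw [hMe ζ hζ, sub_zero]
      have h3 : Fz ζ = Fp ζ - Kz ζ := by rw [hFpe]; ring
      rw [h3]
      field_simp
    have hd2 : DifferentiableOn ℂ (fun ζ => P ζ * (q ζ ^ j * ev w μ x ζ)) V :=
      hPd.mul ((hqd.pow j).mul (ev_diff w μ x).differentiableOn)
    have hPζ : ContinuousOn (fun ζ => P ζ / ζ) (Bd l L δ) :=
      (hPd.continuousOn.mono hBV).div continuousOn_id hB0
    have hc2 : ContinuousOn (fun ζ => Kz ζ / Fp ζ * (P ζ / ζ) * (q ζ ^ j * ev w μ x ζ))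
        (Bd l L δ) :=
      (((hKzd.continuousOn.mono hBV).div (hFpd.continuousOn.mono hBV) hFpn).mul hPζ).mul
        (((hqd.pow j).mul (ev_diff w μ x).differentiableOn).continuousOn.mono hBV)
    rw [hmain, e1, RI_sub hl hL hδ (cont_inv h0R (hd2.continuousOn.mono hBV)) hc2,
      RI_pole hl hL hδ h0R hVo hRV hd2]
    have e2 : RI l L δ (fun ζ => 1 / (ζ - 0)) = N := by
      rw [hN]; congr 1; funext ζ; rw [sub_zero]
    have e3 : P 0 * (q 0 ^ j * ev w μ x 0) =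
        (if j = 0 then Complex.exp (-(I * w * x)) else 0) := by
      rw [hP, PP_zero, hq0, one_mul]
      split_ifs with hj
      · rw [hj, pow_zero, one_mul, ev, zz_zero]
      · rw [zero_pow hj, zero_mul]
    rw [e2, e3]
    have e4 : ∀ A R : ℂ, N⁻¹ * (A * N - R) - A = -(N⁻¹ * R) := by
      intro A R; field_simp; ring
    rw [e4, norm_neg, norm_mul, norm_inv]
    have hb : ‖RI l L δ (fun ζ => Kz ζ / Fp ζ * (P ζ / ζ) * (q ζ ^ j * ev w μ x ζ))‖ ≤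
        (C * T * Real.exp (-(b * T)) * Real.exp (j * (s * T) + 2 * s * x)) *
          (2 * (l + L) + 4 * δ) := by
      apply RI_bound hl hL hδ
      intro ζ hζ
      obtain ⟨_, h2, _⟩ := hPT ζ hζ
      rw [norm_mul, norm_mul, norm_mul, norm_div, norm_div, ev_norm]
      have h4 : Real.exp ((zz w μ ζ).im * x) ≤ Real.exp (2 * s * x) := by
        apply Real.exp_le_exp.2
        exact mul_le_mul_of_nonneg_right (hG.im_lt (Bd_sub_Rc hζ)).le hx
      have h5 : ‖q ζ ^ j‖ * Real.exp ((zz w μ ζ).im * x) ≤ Real.exp (j * (s * T) + 2 * s * x) := by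
        rw [Real.exp_add]
        exact mul_le_mul (hqj ζ hζ) h4 (Real.exp_pos _).le (Real.exp_pos _).le
      exact mul_le_mul h2 h5 (by positivity) (by positivity)
    calc ‖N‖⁻¹ * ‖RI l L δ (fun ζ => Kz ζ / Fp ζ * (P ζ / ζ) * (q ζ ^ j * ev w μ x ζ))‖ ≤
          ‖N‖⁻¹ * ((C * T * Real.exp (-(b * T)) * Real.exp (j * (s * T) + 2 * s * x)) *
          (2 * (l + L) + 4 * δ)) := mul_le_mul_of_nonneg_left hb (by positivity)
      _ = _ := by ring
  · intro hxT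
    rw [hmain, norm_mul, norm_inv]
    have hb : ‖RI l L δ (fun ζ => M ζ * (q ζ ^ j * ev w μ x ζ) / Fp ζ)‖ ≤
        (C * T * Real.exp (-(b * T)) * Real.exp ((j + 1) * (s * T))) *
          (2 * (l + L) + 4 * δ) := by
      apply RI_bound hl hL hδ
      intro ζ hζ
      obtain ⟨_, _, h3⟩ := hPT ζ hζ
      have h4 := h3 x hx hxT
      have h5 := hqj ζ hζ
      rw [hMe ζ hζ]
      have e5 : ‖Fz ζ * P ζ / ζ * (q ζ ^ j * ev w μ x ζ) / Fp ζ‖ =
          (‖Fz ζ‖ / ‖Fp ζ‖ * Real.exp ((zz w μ ζ).im * x) * (‖P ζ‖ / ‖ζ‖)) * ‖q ζ ^ j‖ := by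
        rw [norm_div, norm_mul, norm_mul, norm_div, norm_mul, ev_norm]
        ring
      rw [e5]
      have e6 : Real.exp ((j + 1) * (s * T)) = Real.exp (s * T) * Real.exp (j * (s * T)) := by
        rw [← Real.exp_add]; ring_nf
      rw [e6]
      calc _ ≤ (C * T * Real.exp (-(b * T)) * Real.exp (s * T)) * Real.exp (j * (s * T)) :=
            mul_le_mul h4 h5 (norm_nonneg _) (by positivity)
        _ = _ := by ring
    calc ‖N‖⁻¹ * ‖RI l L δ (fun ζ => M ζ * (q ζ ^ j * ev w μ x ζ) / Fp ζ)‖ ≤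
          ‖N‖⁻¹ * ((C * T * Real.exp (-(b * T)) * Real.exp ((j + 1) * (s * T))) *
          (2 * (l + L) + 4 * δ)) := mul_le_mul_of_nonneg_left hb (by positivity)
      _ = _ := by ring

end ctx

theorem rt_core (hZERO : S_ZERO) : S_CORE := by
  intro F s ε ε' X w μ l L δ hF hs hs8 hε hε' hw hG hX η hη
  obtain ⟨lam, ν, b, C, T0, hb, hC, hT0, hPT⟩ := PT hF hs hs8 hε hG
  obtain ⟨c1, hc1, hev⟩ := hZERO F s ε ε' X w μ l L δ hF hs hs8 hε hε' hG hX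
  have hl := hG.l0
  have hL := hG.L0
  have hδ := hG.δ0
  have hW : 0 < ‖w‖ + 2 * (l + L + δ) := by positivity
  refine ⟨min c1 (min 1 (1 / (‖w‖ + 2 * (l + L + δ)))), by positivity, ?_⟩
  have hN0 : 0 < ‖RI l L δ (fun ζ => 1 / ζ)‖ := norm_pos_iff.2 (RI_N hl hL hδ)
  have hlim := tendsto_TexpT hb (‖RI l L δ (fun ζ => 1 / ζ)‖⁻¹ * (C * (2 * (l + L) + 4 * δ)))
  have hsmall := hlim.eventually (gt_mem_nhds hη)
  filter_upwards [hev, hsmall, eventually_ge_atTop T0] with T hT1 hT2 hT3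
  intro c hc hcle u hu hbad
  have hcc1 : c ≤ c1 := hcle.trans (min_le_left _ _)
  have hc1' : c ≤ 1 := hcle.trans ((min_le_right _ _).trans (min_le_left _ _))
  have hc0 : c * (‖w‖ + 2 * (l + L + δ)) ≤ 1 := by
    have : c ≤ 1 / (‖w‖ + 2 * (l + L + δ)) := hcle.trans ((min_le_right _ _).trans (min_le_right _ _))
    rwa [le_div_iff₀ hW] at this
  have hPT' := hPT T hT3 c hc hc1' hc0 u hu hbad
  obtain ⟨Z, hZ1, hZ2, hZ3⟩ := hT1 c hc hcc1 u hu (fun ζ hζ => norm_pos_iff.1 (hPT' ζ hζ).1)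
  obtain ⟨a, ha⟩ := core_aux hF hs hs8 hε hG hw hC (hT0.trans hT3) hc hc1' hc0 hu hPT' hZ1 hZ2
  have hTpos : 0 < T := by linarith
  have hcoef : ‖RI l L δ (fun ζ => 1 / ζ)‖⁻¹ * (C * T * Real.exp (-(b * T)) *
      (2 * (l + L) + 4 * δ)) ≤ η := by
    refine le_of_eq_of_le ?_ hT2.le
    ring
  refine ⟨∑ v ∈ Z, Finsupp.single (zz w μ v) (a v), ?_, ?_, ?_, ?_⟩
  · intro w' hw'
    have h1 := Finsupp.support_finset_sum hw'
    rw [Finset.mem_biUnion] at h1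
    obtain ⟨v, hv, hv'⟩ := h1
    have h2 := Finsupp.support_single_subset hv'
    rw [Finset.mem_singleton] at h2
    rw [h2]
    exact hZ3 v hv
  · intro τ hτ _
    obtain ⟨h1, _⟩ := ha 0 τ hτ
    rw [ES_sum1]
    simp only [if_true, Nat.cast_zero, zero_mul, zero_add] at h1
    refine h1.trans ?_
    exact mul_le_mul_of_nonneg_right hcoef (Real.exp_pos _).le
  · intro j hj σ hσ _
    obtain ⟨h1, _⟩ := ha j σ hσ
    rw [ES_sum1]
    rw [if_neg (by omega), sub_zero] at h1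
    refine h1.trans ?_
    exact mul_le_mul_of_nonneg_right hcoef (Real.exp_pos _).le
  · intro j σ hσ hσT
    obtain ⟨_, h1⟩ := ha j σ (by linarith)
    rw [ES_sum1]
    refine (h1 hσT).trans ?_
    exact mul_le_mul_of_nonneg_right hcoef (Real.exp_pos _).le

end K34RT

end
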