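import Pool.Agent.K34RT.Res

set_option autoImplicit false

open Complex MeasureTheory Set Filter Topology

noncomputable section

namespace K34RT

lemma zz_re1 (w : ℂ) (μ : ℝ) (ζ : ℂ) : (zz w μ ζ).re = w.re + ζ.re + μ * ζ.im := by
  simp [zz]; ring

lemma zz_im1 (w : ℂ) (μ : ℝ) (ζ : ℂ) : (zz w μ ζ).im = w.im + ζ.im - μ * ζ.re := by
  simp [zz]; ring

lemma zz_zero (w : ℂ) (μ : ℝ) : zz w μ 0 = w := by simp [zz]

lemma zz_diff (w : ℂ) (μ : ℝ) : Differentiable ℂ (zz w μ) := by unfold zz; fun_prop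

lemma zz_deriv (w : ℂ) (μ : ℝ) (ζ : ℂ) : HasDerivAt (zz w μ) (1 - μ * I) ζ := by
  unfold zz
  simpa using ((hasDerivAt_id ζ).const_mul (1 - (μ:ℂ) * I)).const_add w

lemma bh_re {c : ℝ} {z : ℂ} (hc : 0 < c) (hc1 : c ≤ 1) (hz : z.im < 1/2) :
    1/2 ≤ (1 + I * c * z).re := by
  have : (1 + I * c * z).re = 1 - c * z.im := by simp; ring
  rw [this]
  rcases le_or_gt 0 z.im with h | h
  · nlinarith
  · nlinarith

lemma bh_ne {c : ℝ} {z : ℂ} (hc : 0 < c) (hc1 : c ≤ 1) (hz : z.im < 1/2) :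
    1 + I * c * z ≠ 0 := by
  intro h
  have := bh_re hc hc1 hz
  rw [h] at this
  simp at this
  linarith

lemma bh_le {c : ℝ} {z : ℂ} (hc : 0 < c) (hc1 : c ≤ 1) (hz : z.im < 1/2) : ‖bh c z‖ ≤ 2 := by
  unfold bh
  rw [norm_div, norm_one]
  have h1 := bh_re hc hc1 hz
  have h2 : 1/2 ≤ ‖1 + I * c * z‖ := h1.trans (re_le_norm _)
  rw [div_le_iff₀ (by linarith)]
  linarith

lemma bh_ge {c : ℝ} {z : ℂ} (hc : 0 < c) (hcz : c * ‖z‖ ≤ 1) (hne : 1 + I * c * z ≠ 0) :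
    1/2 ≤ ‖bh c z‖ := by
  unfold bh
  rw [norm_div, norm_one]
  have h2 : ‖1 + I * c * z‖ ≤ 2 := by
    refine (norm_add_le _ _).trans ?_
    rw [norm_mul, norm_mul, norm_I, norm_one, norm_real, Real.norm_of_nonneg hc.le]
    linarith
  exact div_le_div_of_nonneg_left zero_le_one (norm_pos_iff.2 hne) h2

lemma bh_diff {c : ℝ} (hc : 0 < c) (hc1 : c ≤ 1) : DifferentiableOn ℂ (bh c) U := by
  unfold bh
  intro z hz
  have h1 : DifferentiableAt ℂ (fun z : ℂ => 1 + I * c * z) z := by fun_prop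
  exact ((differentiableAt_const (1:ℂ)).div h1 (bh_ne hc hc1 hz)).differentiableWithinAt

lemma norm_expT (T : ℝ) (z : ℂ) : ‖Complex.exp (-(I * T * z))‖ = Real.exp (T * z.im) := by
  rw [Complex.norm_exp]
  congr 1
  simp

lemma KK_norm {ε s c T : ℝ} {u z : ℂ} (hε : 0 < ε) (hu : ‖u‖ = 1) :
    ‖KK ε s c T u z‖ = ε * ‖bh c z‖ * Real.exp (T * (z.im - s)) := by
  unfold KK
  rw [norm_mul, norm_mul, norm_mul, norm_mul, hu, norm_expT, norm_real, Real.norm_of_nonneg hε.le,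
    Complex.norm_exp]
  have : (-((s * T : ℝ) : ℂ)).re = -(s * T) := by simp
  rw [this]
  have e : Real.exp (T * (z.im - s)) = Real.exp (-(s * T)) * Real.exp (T * z.im) := by
    rw [← Real.exp_add]; ring_nf
  rw [e]; ring

lemma KK_diff {ε s c T : ℝ} {u : ℂ} (hc : 0 < c) (hc1 : c ≤ 1) :
    DifferentiableOn ℂ (KK ε s c T u) U := by
  unfold KK
  exact (((differentiableOn_const _).mul (bh_diff hc hc1))).mul
    (by fun_prop)

lemma isOpen_U : IsOpen U := isOpen_lt continuous_im continuous_const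

lemma U_nhds {z : ℂ} (hz : z.im < 1/2) : U ∈ 𝓝 z := isOpen_U.mem_nhds hz

/-- the domain in the chart -/
def VV (w : ℂ) (μ : ℝ) : Set ℂ := zz w μ ⁻¹' U

lemma isOpen_VV (w : ℂ) (μ : ℝ) : IsOpen (VV w μ) := isOpen_U.preimage (zz_diff w μ).continuous

/-- derivative of `KK` -/
lemma KK_deriv {ε s c T : ℝ} {u z : ℂ} (hc : 0 < c) (hc1 : c ≤ 1) (hz : z.im < 1/2) :
    HasDerivAt (KK ε s c T u) (KK ε s c T u z * (-(I * c * bh c z) - I * T)) z := by
  have hne := bh_ne hc hc1 hz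
  have h1 : HasDerivAt (fun z : ℂ => 1 + I * c * z) (I * c) z := by
    simpa using ((hasDerivAt_id z).const_mul (I * (c:ℂ))).const_add 1
  have h2 : HasDerivAt (bh c) (-(I * c) / (1 + I * c * z) ^ 2) z := by
    have := h1.fun_inv hne
    unfold bh
    simpa [one_div] using this
  have h3 : HasDerivAt (fun z : ℂ => Complex.exp (-(I * T * z)))
      (Complex.exp (-(I * T * z)) * (-(I * T))) z := by
    have h4 : HasDerivAt (fun z : ℂ => -(I * T * z)) (-(I * T)) z := by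
      simpa using ((hasDerivAt_id z).const_mul (I * (T:ℂ))).fun_neg
    exact h4.cexp
  have h5 := (h2.const_mul (u * ε * Complex.exp (-((s * T : ℝ) : ℂ)))).mul h3
  have h6 : KK ε s c T u = fun z => u * ε * Complex.exp (-((s * T : ℝ) : ℂ)) * bh c z *
      Complex.exp (-(I * T * z)) := by funext z; rfl
  rw [h6]
  refine h5.congr_deriv ?_
  have h7 : -(I * c) / (1 + I * c * z) ^ 2 = bh c z * (-(I * c * bh c z)) := by
    unfold bh; field_simp
  rw [h7]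
  ring

section ctx

variable {F : ℂ → ℂ} {s ε X : ℝ} {w : ℂ} {μ l L δ : ℝ}

lemma Geo.im_lt (hG : Geo F s ε X w μ l L δ) {ζ : ℂ} (hζ : ζ ∈ Rc l L δ) :
    (zz w μ ζ).im < 2 * s := by
  rw [zz_im1]
  have h1 := hG.top
  obtain ⟨a, b, c, d⟩ := hζ
  nlinarith [hG.μ0, mul_le_mul_of_nonneg_left a hG.μ0.le]

lemma Geo.im_pos (hG : Geo F s ε X w μ l L δ) {ζ : ℂ} (hζ : ζ ∈ Rc l L δ) :
    0 < (zz w μ ζ).im := by
  rw [zz_im1]
  have h1 := hG.bot
  obtain ⟨a, b, c, d⟩ := hζ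
  nlinarith [hG.μ0, mul_le_mul_of_nonneg_left b hG.μ0.le]

lemma Geo.sub_VV (hG : Geo F s ε X w μ l L δ) (hs8 : s ≤ 1/8) : Rc l L δ ⊆ VV w μ := by
  intro ζ hζ
  have := hG.im_lt hζ
  show (zz w μ ζ).im < 1/2
  linarith

lemma norm_zz_le (μ1 : |μ| ≤ 1) (hl : 0 < l) (hL : 0 < L) (hδ : 0 < δ) {ζ : ℂ}
    (hζ : ζ ∈ Rc l L δ) : ‖zz w μ ζ‖ ≤ ‖w‖ + 2 * (l + L + δ) := by
  unfold zz
  refine (norm_add_le _ _).trans ?_
  have h1 : ‖(1 - (μ:ℂ) * I)‖ ≤ 2 := by
    refine (norm_sub_le _ _).trans ?_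
    rw [norm_mul, norm_I, norm_one, norm_real, Real.norm_eq_abs]
    linarith
  have h2 : ‖ζ‖ ≤ l + L + δ := by
    refine (Complex.norm_le_abs_re_add_abs_im ζ).trans ?_
    obtain ⟨a, b, c, d⟩ := hζ
    have h3 : |ζ.re| ≤ l + L := abs_le.2 ⟨by linarith, by linarith⟩
    have h4 : |ζ.im| ≤ δ := abs_le.2 ⟨by linarith, by linarith⟩
    linarith
  rw [norm_mul]
  have := mul_le_mul h1 h2 (norm_nonneg _) (by norm_num)
  linarith

lemma isCompact_Rc1 (l L δ : ℝ) : IsCompact (Rc l L δ) := by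
  have : Rc l L δ = Icc (-l) L ×ℂ Icc (-δ) δ := by
    ext ζ
    rw [mem_reProdIm]
    simp only [Rc, mem_setOf_eq, mem_Icc, and_assoc]
  rw [this]
  exact isCompact_Icc.reProdIm isCompact_Icc

/-- lower bound away from the zero -/
lemma exists_m0 (hF : FP F) (hs8 : s ≤ 1/8) (hG : Geo F s ε X w μ l L δ) :
    ∃ m : ℝ, 0 < m ∧ ∀ ζ ∈ Rc l L δ, (ζ ∈ Bd l L δ ∨ (zz w μ ζ).im ≤ s) →
      m ≤ ‖F (zz w μ ζ)‖ := by
  set ρ : ℝ := min (min l L) (min δ ((w.im - s) / 2)) with hρ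
  have hl := hG.l0
  have hL := hG.L0
  have hδ := hG.δ0
  have hleft := hG.left
  have hρ0 : 0 < ρ := by
    rw [hρ]; refine lt_min (lt_min hl hL) (lt_min hδ ?_); linarith
  set S : Set ℂ := Rc l L δ ∩ {ζ | ρ ≤ ‖ζ‖} with hS
  have hSc : IsCompact S := (isCompact_Rc1 l L δ).inter_right (isClosed_le continuous_const continuous_norm)
  have hFc : ContinuousOn (fun ζ => F (zz w μ ζ)) S := by
    refine hF.diff.continuousOn.comp (zz_diff w μ).continuous.continuousOn ?_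
    intro ζ hζ
    exact hG.sub_VV hs8 hζ.1
  have hFn : ∀ ζ ∈ S, F (zz w μ ζ) ≠ 0 := by
    intro ζ hζ h0
    have := hG.zero ζ hζ.1 h0
    have h2 := hζ.2
    rw [this] at h2
    simp only [mem_setOf_eq, norm_zero] at h2
    linarith
  obtain ⟨C, hC⟩ := hSc.exists_bound_of_continuousOn (hFc.inv₀ hFn)
  refine ⟨1 / (max C 1), by positivity, ?_⟩
  intro ζ hζ hor
  have hζS : ζ ∈ S := by
    refine ⟨hζ, ?_⟩
    show ρ ≤ ‖ζ‖
    rcases hor with h | h
    · rcases h.2 with h | h | h | h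
      · have h1 := abs_re_le_norm ζ
        rw [h, abs_neg, abs_of_pos hl] at h1
        exact ((min_le_left _ _).trans (min_le_left _ _)).trans h1
      · have h1 := abs_re_le_norm ζ
        rw [h, abs_of_pos hL] at h1
        exact ((min_le_left _ _).trans (min_le_right _ _)).trans h1
      · have h1 := abs_im_le_norm ζ
        rw [h, abs_neg, abs_of_pos hδ] at h1
        exact ((min_le_right _ _).trans (min_le_left _ _)).trans h1
      · have h1 := abs_im_le_norm ζ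
        rw [h, abs_of_pos hδ] at h1
        exact ((min_le_right _ _).trans (min_le_left _ _)).trans h1
    · rw [zz_im1] at h
      have h1 := abs_re_le_norm ζ
      have h2 := abs_im_le_norm ζ
      have h3 := le_abs_self ζ.re
      have h4 := neg_abs_le ζ.im
      have h5 := hG.μ0
      have h6 := hG.μ1
      have h7 : μ * ζ.re ≤ ‖ζ‖ := by
        calc μ * ζ.re ≤ μ * ‖ζ‖ := mul_le_mul_of_nonneg_left (h3.trans h1) h5.le
          _ ≤ 1 * ‖ζ‖ := mul_le_mul_of_nonneg_right h6 (norm_nonneg _)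
          _ = ‖ζ‖ := one_mul _
      have h8 : (w.im - s) / 2 ≤ ‖ζ‖ := by linarith
      exact ((min_le_right _ _).trans (min_le_right _ _)).trans h8
  have h1 := hC ζ hζS
  rw [Pi.inv_apply, norm_inv] at h1
  have h2 : 0 < ‖F (zz w μ ζ)‖ := norm_pos_iff.2 (hFn ζ hζS)
  rw [div_le_iff₀ (by positivity)]
  have h3 : ‖F (zz w μ ζ)‖⁻¹ ≤ max C 1 := h1.trans (le_max_left _ _)
  rw [inv_le_iff_one_le_mul₀ h2] at h3
  linarith

end ctx

end K34RT

end
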