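import Pool.Agent.K34RT.Core1

set_option autoImplicit false

open Complex MeasureTheory Set Filter Topology

noncomputable section

namespace K34RT

lemma est_long {T y s x a k f ε : ℝ} (hT : 1 ≤ T) (hε : 0 < ε) (hs : 0 ≤ s) (hy : 0 ≤ y)
    (hx : 0 ≤ x) (hxT : x ≤ T) (ha0 : 0 ≤ a) (ha : a ≤ ε / 4)
    (hk : ε / 2 * Real.exp (T * (y - s)) ≤ k) (hf : max a k ≤ T * f) :
    0 < f ∧ k / f ≤ T ∧ a / f * Real.exp (y * x) ≤ T * Real.exp (s * T) := by
  have hE := Real.exp_pos (T * (y - s))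
  have hk0 : 0 < k := lt_of_lt_of_le (by positivity) hk
  have hkf : k ≤ T * f := (le_max_right _ _).trans hf
  have haf : a ≤ T * f := (le_max_left _ _).trans hf
  have hf0 : 0 < f := by
    by_contra h
    push Not at h
    nlinarith
  refine ⟨hf0, by rw [div_le_iff₀ hf0]; exact hkf, ?_⟩
  rcases le_or_gt y s with h | h
  · have h1 : a / f ≤ T := by rw [div_le_iff₀ hf0]; exact haf
    have h2 : Real.exp (y * x) ≤ Real.exp (s * T) :=
      Real.exp_le_exp.2 (mul_le_mul h hxT hx hs)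
    exact mul_le_mul h1 h2 (Real.exp_pos _).le (by linarith)
  · have h1 : a / f ≤ T * Real.exp (-(T * (y - s))) := by
      rw [div_le_iff₀ hf0, Real.exp_neg]
      have h3 : a * Real.exp (T * (y - s)) ≤ T * f := by
        calc a * Real.exp (T * (y - s)) ≤ ε / 4 * Real.exp (T * (y - s)) :=
              mul_le_mul_of_nonneg_right ha hE.le
          _ ≤ ε / 2 * Real.exp (T * (y - s)) := by nlinarith
          _ ≤ k := hk
          _ ≤ T * f := hkf
      calc a = (a * Real.exp (T * (y - s))) * (Real.exp (T * (y - s)))⁻¹ := by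
            field_simp
        _ ≤ (T * f) * (Real.exp (T * (y - s)))⁻¹ :=
            mul_le_mul_of_nonneg_right h3 (by positivity)
        _ = T * (Real.exp (T * (y - s)))⁻¹ * f := by ring
    have h2 : Real.exp (y * x) ≤ Real.exp (y * T) :=
      Real.exp_le_exp.2 (mul_le_mul_of_nonneg_left hxT hy)
    calc a / f * Real.exp (y * x) ≤ T * Real.exp (-(T * (y - s))) * Real.exp (y * T) :=
          mul_le_mul h1 h2 (Real.exp_pos _).le (by positivity)
      _ = T * Real.exp (s * T) := by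
          rw [mul_assoc, ← Real.exp_add]; congr 2; ring

lemma est_left {T y s a k f ε : ℝ} (hT : 2 ≤ T) (hε : 0 < ε) (hy : s ≤ y)
    (ha : a ≤ ε / 4)
    (hk : ε / 2 * Real.exp (T * (y - s)) ≤ k) (hf : k - a ≤ f) :
    max a k ≤ T * f := by
  have h1 : 1 ≤ Real.exp (T * (y - s)) := Real.one_le_exp (by nlinarith)
  have h2 : ε / 2 ≤ k := by nlinarith
  have h3 : k / 2 ≤ f := by linarith
  refine max_le ?_ ?_ <;> nlinarith

lemma est_right {T y s yB x a k f ε m gap : ℝ} (hT : 1 ≤ T) (hε : 0 < ε) (hy : 0 ≤ y)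
    (hyB : y ≤ yB) (hgap : gap = s - yB) (hgap0 : 0 < gap) (hm : 0 < m) (hTm : 4 * ε / (m * gap) ≤ T)
    (hx : 0 ≤ x) (hxT : x ≤ T) (ham : m ≤ a) (ha : a ≤ ε / 4)
    (hk : k ≤ 2 * ε * Real.exp (T * (y - s))) (hk0 : 0 ≤ k) (hf : a - k ≤ f) :
    0 < f ∧ k / f ≤ 4 * ε / m * Real.exp (-(gap * T)) ∧
      a / f * Real.exp (y * x) ≤ ε / m * Real.exp (s * T) * Real.exp (-(gap * T)) := by
  have hT0 : 0 < T := by linarith
  have h1 : Real.exp (T * (y - s)) ≤ Real.exp (-(gap * T)) := by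
    apply Real.exp_le_exp.2
    rw [hgap]
    nlinarith
  have h2 : Real.exp (-(gap * T)) ≤ 1 / (gap * T) := by
    rw [Real.exp_neg, ← one_div]
    apply one_div_le_one_div_of_le (by positivity)
    linarith [Real.add_one_le_exp (gap * T)]
  have h3 : 2 * ε * (1 / (gap * T)) ≤ m / 2 := by
    rw [mul_one_div, div_le_div_iff₀ (by positivity) (by norm_num)]
    rw [div_le_iff₀ (by positivity)] at hTm
    nlinarith
  have h4 : k ≤ 2 * ε * Real.exp (-(gap * T)) :=
    hk.trans (mul_le_mul_of_nonneg_left h1 (by positivity))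
  have h5 : k ≤ m / 2 := h4.trans ((mul_le_mul_of_nonneg_left h2 (by positivity)).trans h3)
  have hf0 : m / 2 ≤ f := by linarith
  have hfp : 0 < f := by linarith
  refine ⟨hfp, ?_, ?_⟩
  · rw [div_le_iff₀ hfp]
    calc k ≤ 2 * ε * Real.exp (-(gap * T)) := h4
      _ = 4 * ε / m * Real.exp (-(gap * T)) * (m / 2) := by field_simp; ring
      _ ≤ 4 * ε / m * Real.exp (-(gap * T)) * f :=
          mul_le_mul_of_nonneg_left hf0 (by positivity)
  · have h6 : a / f ≤ ε / m := by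
      rw [div_le_iff₀ hfp]
      calc a ≤ ε / 4 := ha
        _ ≤ ε / m * (m / 2) := by field_simp; linarith
        _ ≤ ε / m * f := mul_le_mul_of_nonneg_left hf0 (by positivity)
    have h7 : Real.exp (y * x) ≤ Real.exp (s * T) * Real.exp (-(gap * T)) := by
      rw [← Real.exp_add]
      apply Real.exp_le_exp.2
      rw [hgap]
      nlinarith [mul_le_mul hyB hxT hx (by linarith : (0:ℝ) ≤ yB)]
    calc a / f * Real.exp (y * x) ≤ ε / m * (Real.exp (s * T) * Real.exp (-(gap * T))) :=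
          mul_le_mul h6 h7 (Real.exp_pos _).le (by positivity)
      _ = _ := by ring

/-- the large parameter function -/
def PP (T lam ν : ℝ) (ζ : ℂ) : ℂ := Complex.exp (((T * lam : ℝ) : ℂ) * (Complex.exp (ν * ζ) - 1))

lemma PP_diff (T lam ν : ℝ) : Differentiable ℂ (PP T lam ν) := by unfold PP; fun_prop

lemma PP_zero (T lam ν : ℝ) : PP T lam ν 0 = 1 := by simp [PP]

lemma PP_norm (T lam ν : ℝ) (ζ : ℂ) : ‖PP T lam ν ζ‖ =
    Real.exp (T * lam * (Real.exp (ν * ζ.re) * Real.cos (ν * ζ.im) - 1)) := by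
  unfold PP
  rw [Complex.norm_exp, re_ofReal_mul]
  congr 2
  rw [sub_re, Complex.exp_re]
  simp

section ctx

variable {F : ℂ → ℂ} {s ε X : ℝ} {w : ℂ} {μ l L δ : ℝ}

lemma KK_bounds (hG : Geo F s ε X w μ l L δ) (hs8 : s ≤ 1/8) (hε : 0 < ε) {c T : ℝ} {u : ℂ}
    (hc : 0 < c) (hc1 : c ≤ 1) (hc0 : c * (‖w‖ + 2 * (l + L + δ)) ≤ 1) (hu : ‖u‖ = 1) {ζ : ℂ}
    (hζ : ζ ∈ Rc l L δ) :
    ε / 2 * Real.exp (T * ((zz w μ ζ).im - s)) ≤ ‖KK ε s c T u (zz w μ ζ)‖ ∧
    ‖KK ε s c T u (zz w μ ζ)‖ ≤ 2 * ε * Real.exp (T * ((zz w μ ζ).im - s)) := by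
  have hz : (zz w μ ζ).im < 1/2 := by have := hG.im_lt hζ; linarith
  have h1 := bh_le hc hc1 hz
  have h2 : 1/2 ≤ ‖bh c (zz w μ ζ)‖ := by
    apply bh_ge hc _ (bh_ne hc hc1 hz)
    refine le_trans (mul_le_mul_of_nonneg_left ?_ hc.le) hc0
    exact norm_zz_le (abs_le.2 ⟨by linarith [hG.μ0], hG.μ1⟩) hG.l0 hG.L0 hG.δ0 hζ
  have hE := Real.exp_pos (T * ((zz w μ ζ).im - s))
  rw [KK_norm hε hu]
  constructor
  · calc ε / 2 * Real.exp (T * ((zz w μ ζ).im - s)) = ε * (1/2) * Real.exp (T * ((zz w μ ζ).im - s)) := by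
          ring
      _ ≤ _ := by gcongr
  · calc ε * ‖bh c (zz w μ ζ)‖ * Real.exp (T * ((zz w μ ζ).im - s)) ≤
          ε * 2 * Real.exp (T * ((zz w μ ζ).im - s)) := by gcongr
      _ = _ := by ring

theorem PT (hF : FP F) (hs : 0 < s) (hs8 : s ≤ 1/8) (hε : 0 < ε) (hG : Geo F s ε X w μ l L δ) :
    ∃ lam ν b C T0 : ℝ, 0 < b ∧ 0 < C ∧ 2 ≤ T0 ∧
    ∀ T : ℝ, T0 ≤ T → ∀ c : ℝ, 0 < c → c ≤ 1 → c * (‖w‖ + 2 * (l + L + δ)) ≤ 1 → ∀ u : ℂ, ‖u‖ = 1 →
    (∀ q : ℝ, (q = δ ∨ q = -δ) → ∀ p : ℝ, -l ≤ p → p ≤ L → ¬ Bad F s ε w μ c T u (p + q * I)) →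
    ∀ ζ ∈ Bd l L δ,
      0 < ‖F (zz w μ ζ) + KK ε s c T u (zz w μ ζ)‖ ∧
      ‖KK ε s c T u (zz w μ ζ)‖ / ‖F (zz w μ ζ) + KK ε s c T u (zz w μ ζ)‖ *
        (‖PP T lam ν ζ‖ / ‖ζ‖) ≤ C * T * Real.exp (-(b * T)) ∧
      ∀ x : ℝ, 0 ≤ x → x ≤ T →
        ‖F (zz w μ ζ)‖ / ‖F (zz w μ ζ) + KK ε s c T u (zz w μ ζ)‖ *
        Real.exp ((zz w μ ζ).im * x) * (‖PP T lam ν ζ‖ / ‖ζ‖) ≤
          C * T * Real.exp (-(b * T)) * Real.exp (s * T) := by
  obtain ⟨m, hm, hmF⟩ := exists_m0 hF hs8 hG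
  have hl := hG.l0
  have hL := hG.L0
  have hδ := hG.δ0
  set ν : ℝ := Real.pi / (2 * δ) with hν
  have hνδ : ν * δ = Real.pi / 2 := by rw [hν]; field_simp
  have hν0 : 0 < ν := by rw [hν]; have := Real.pi_pos; positivity
  set yB : ℝ := w.im - μ * L + δ with hyB
  set gap : ℝ := s - yB with hgap
  have hgap0 : 0 < gap := by rw [hgap, hyB]; linarith [hG.right]
  set lam : ℝ := gap / 2 * Real.exp (-(ν * L)) with hlam
  have hlam0 : 0 < lam := by rw [hlam]; positivity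
  have hlamL : lam * Real.exp (ν * L) = gap / 2 := by
    rw [hlam, mul_assoc, ← Real.exp_add]; simp
  set b1 : ℝ := lam * (1 - Real.exp (-(ν * l))) with hb1
  have hexpl : Real.exp (-(ν * l)) < 1 := by
    have := Real.exp_lt_exp.2 (show -(ν * l) < 0 by nlinarith [mul_pos hν0 hl])
    rwa [Real.exp_zero] at this
  have hexpl0 := Real.exp_pos (-(ν * l))
  have hb10 : 0 < b1 := mul_pos hlam0 (by linarith)
  set b : ℝ := min b1 (gap / 2) with hb
  have hb0 : 0 < b := lt_min hb10 (by linarith)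
  have hbb1 : b ≤ b1 := min_le_left _ _
  have hbgap : b ≤ gap / 2 := min_le_right _ _
  have hb1lam : b1 ≤ lam := by rw [hb1]; nlinarith
  set C : ℝ := 1 / δ + 1 / l + (4 * ε / m + ε / m) / L with hC
  have hCδ : 1 / δ ≤ C := by
    rw [hC]; have : 0 < 1 / l := by positivity
    have : 0 < (4 * ε / m + ε / m) / L := by positivity
    linarith
  have hCl : 1 / l ≤ C := by
    rw [hC]; have : 0 < 1 / δ := by positivity
    have : 0 < (4 * ε / m + ε / m) / L := by positivity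
    linarith
  have hC4 : (4 * ε / m) / L ≤ C := by
    rw [hC]
    have h1 : 0 < 1 / δ := by positivity
    have h2 : 0 < 1 / l := by positivity
    have h3 : 0 < (ε / m) / L := by positivity
    rw [add_div]; linarith
  have hC1 : (ε / m) / L ≤ C := by
    rw [hC]
    have h1 : 0 < 1 / δ := by positivity
    have h2 : 0 < 1 / l := by positivity
    have h3 : 0 < (4 * ε / m) / L := by positivity
    rw [add_div]; linarith
  have hC0 : 0 < C := lt_of_lt_of_le (by positivity) hCδ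
  refine ⟨lam, ν, b, C, max 2 (4 * ε / (m * gap)), hb0, hC0, le_max_left _ _, ?_⟩
  intro T hT c hc hc1 hc0 u hu hbad ζ hζ
  have hT2 : 2 ≤ T := (le_max_left _ _).trans hT
  have hTm : 4 * ε / (m * gap) ≤ T := (le_max_right _ _).trans hT
  have hT1 : 1 ≤ T := by linarith
  have hT0 : 0 < T := by linarith
  have hζR : ζ ∈ Rc l L δ := Bd_sub_Rc hζ
  have hy0 := hG.im_pos hζR
  obtain ⟨hklo, hkhi⟩ := KK_bounds (T := T) hG hs8 hε hc hc1 hc0 hu hζR
  have ha := hG.bd ζ hζR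
  have ham := hmF ζ hζR (Or.inl hζ)
  set y : ℝ := (zz w μ ζ).im with hy
  set a : ℝ := ‖F (zz w μ ζ)‖ with haa
  set k : ℝ := ‖KK ε s c T u (zz w μ ζ)‖ with hkk
  set f : ℝ := ‖F (zz w μ ζ) + KK ε s c T u (zz w μ ζ)‖ with hff
  have ha0 : 0 ≤ a := norm_nonneg _
  have hk0 : 0 ≤ k := norm_nonneg _
  -- common treatment of the long sides and the left side
  have key : ∀ r : ℝ, 0 < r → 1 / r ≤ C → r ≤ ‖ζ‖ → max a k ≤ T * f →
      ‖PP T lam ν ζ‖ ≤ Real.exp (-(b * T)) →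
      0 < f ∧ k / f * (‖PP T lam ν ζ‖ / ‖ζ‖) ≤ C * T * Real.exp (-(b * T)) ∧
      ∀ x : ℝ, 0 ≤ x → x ≤ T → a / f * Real.exp (y * x) * (‖PP T lam ν ζ‖ / ‖ζ‖) ≤
          C * T * Real.exp (-(b * T)) * Real.exp (s * T) := by
    intro r hr hrC hrζ hmax hP
    have hPζ : ‖PP T lam ν ζ‖ / ‖ζ‖ ≤ C * Real.exp (-(b * T)) := by
      calc ‖PP T lam ν ζ‖ / ‖ζ‖ ≤ Real.exp (-(b * T)) / r :=
            div_le_div₀ (Real.exp_pos _).le hP hr hrζ
        _ = (1 / r) * Real.exp (-(b * T)) := by ring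
        _ ≤ C * Real.exp (-(b * T)) := mul_le_mul_of_nonneg_right hrC (Real.exp_pos _).le
    have hPζ0 : 0 ≤ ‖PP T lam ν ζ‖ / ‖ζ‖ := by positivity
    obtain ⟨h1, h2, _⟩ := est_long hT1 hε hs.le hy0.le le_rfl hT0.le ha0 ha hklo hmax
    refine ⟨h1, ?_, ?_⟩
    · calc k / f * (‖PP T lam ν ζ‖ / ‖ζ‖) ≤ T * (C * Real.exp (-(b * T))) :=
            mul_le_mul h2 hPζ hPζ0 hT0.le
        _ = _ := by ring
    · intro x hx hxT
      obtain ⟨_, _, h3⟩ := est_long hT1 hε hs.le hy0.le hx hxT ha0 ha hklo hmax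
      calc a / f * Real.exp (y * x) * (‖PP T lam ν ζ‖ / ‖ζ‖) ≤
            T * Real.exp (s * T) * (C * Real.exp (-(b * T))) :=
            mul_le_mul h3 hPζ hPζ0 (by positivity)
        _ = _ := by ring
  have hlong : (ζ.im = δ ∨ ζ.im = -δ) → ‖PP T lam ν ζ‖ ≤ Real.exp (-(b * T)) := by
    intro h
    have hcos : Real.cos (ν * ζ.im) = 0 := by
      rcases h with h | h
      · rw [h, hνδ, Real.cos_pi_div_two]
      · rw [h, mul_neg, Real.cos_neg, hνδ, Real.cos_pi_div_two]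
    rw [PP_norm, hcos, mul_zero]
    apply Real.exp_le_exp.2
    nlinarith
  have hlongmax : (ζ.im = δ ∨ ζ.im = -δ) → max a k ≤ T * f := by
    intro h
    have h1 := hbad ζ.im h ζ.re hζR.1 hζR.2.1
    unfold Bad at h1
    rw [re_add_im] at h1
    exact not_lt.1 h1
  rcases hζ.2 with h | h | h | h
  · -- left side
    refine key l hl hCl ?_ ?_ ?_
    · have h1 := abs_re_le_norm ζ
      rw [h, abs_neg, abs_of_pos hl] at h1
      exact h1
    · refine est_left hT2 hε ?_ ha hklo ?_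
      · rw [hy, zz_im1, h]
        have := hG.left
        have := hζR.2.2.1
        nlinarith [mul_pos hG.μ0 hl]
      · rw [hff, hkk, haa]
        have := norm_sub_le (F (zz w μ ζ) + KK ε s c T u (zz w μ ζ)) (F (zz w μ ζ))
        rw [add_sub_cancel_left] at this
        linarith
    · rw [PP_norm, h]
      apply Real.exp_le_exp.2
      have h1 : Real.exp (ν * -l) * Real.cos (ν * ζ.im) ≤ Real.exp (-(ν * l)) := by
        rw [mul_neg]
        have := Real.cos_le_one (ν * ζ.im)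
        nlinarith
      have h2 : T * lam * (Real.exp (ν * -l) * Real.cos (ν * ζ.im) - 1) ≤
          T * lam * (Real.exp (-(ν * l)) - 1) :=
        mul_le_mul_of_nonneg_left (by linarith) (by positivity)
      have h3 : T * lam * (Real.exp (-(ν * l)) - 1) = -(b1 * T) := by rw [hb1]; ring
      rw [h3] at h2
      nlinarith
  · -- right side
    have hyy : y ≤ yB := by
      rw [hy, zz_im1, h, hyB]
      have := hζR.2.2.2
      linarith
    have hLζ : L ≤ ‖ζ‖ := by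
      have h1 := abs_re_le_norm ζ
      rw [h, abs_of_pos hL] at h1
      exact h1
    have hfak : a - k ≤ f := by
      rw [hff, hkk, haa]
      have := norm_sub_le (F (zz w μ ζ) + KK ε s c T u (zz w μ ζ)) (KK ε s c T u (zz w μ ζ))
      rw [add_sub_cancel_right] at this
      linarith
    have hP : ‖PP T lam ν ζ‖ ≤ Real.exp (gap / 2 * T) := by
      rw [PP_norm, h]
      apply Real.exp_le_exp.2
      have h1 : Real.exp (ν * L) * Real.cos (ν * ζ.im) ≤ Real.exp (ν * L) := by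
        have := Real.cos_le_one (ν * ζ.im)
        have := Real.exp_pos (ν * L)
        nlinarith
      have h2 : T * lam * (Real.exp (ν * L) * Real.cos (ν * ζ.im) - 1) ≤
          T * lam * Real.exp (ν * L) :=
        mul_le_mul_of_nonneg_left (by linarith) (by positivity)
      calc _ ≤ T * lam * Real.exp (ν * L) := h2
        _ = T * (lam * Real.exp (ν * L)) := by ring
        _ = gap / 2 * T := by rw [hlamL]; ring
    have hPζ : ‖PP T lam ν ζ‖ / ‖ζ‖ ≤ Real.exp (gap / 2 * T) / L :=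
      div_le_div₀ (Real.exp_pos _).le hP hL hLζ
    have hPζ0 : 0 ≤ ‖PP T lam ν ζ‖ / ‖ζ‖ := by positivity
    have hexp : Real.exp (-(gap * T)) * Real.exp (gap / 2 * T) ≤ Real.exp (-(b * T)) := by
      rw [← Real.exp_add]
      apply Real.exp_le_exp.2
      nlinarith
    obtain ⟨h1, h2, _⟩ := est_right hT1 hε hy0.le hyy hgap hgap0 hm hTm le_rfl hT0.le ham ha hkhi
      hk0 hfak
    refine ⟨h1, ?_, ?_⟩
    · calc k / f * (‖PP T lam ν ζ‖ / ‖ζ‖) ≤
            (4 * ε / m * Real.exp (-(gap * T))) * (Real.exp (gap / 2 * T) / L) :=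
            mul_le_mul h2 hPζ hPζ0 (by positivity)
        _ = (4 * ε / m) / L * (Real.exp (-(gap * T)) * Real.exp (gap / 2 * T)) := by ring
        _ ≤ C * Real.exp (-(b * T)) := mul_le_mul hC4 hexp (by positivity) hC0.le
        _ = C * 1 * Real.exp (-(b * T)) := by ring
        _ ≤ C * T * Real.exp (-(b * T)) := by gcongr
    · intro x hx hxT
      obtain ⟨_, _, h3⟩ := est_right hT1 hε hy0.le hyy hgap hgap0 hm hTm hx hxT ham ha hkhi
        hk0 hfak
      calc a / f * Real.exp (y * x) * (‖PP T lam ν ζ‖ / ‖ζ‖) ≤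
            (ε / m * Real.exp (s * T) * Real.exp (-(gap * T))) * (Real.exp (gap / 2 * T) / L) :=
            mul_le_mul h3 hPζ hPζ0 (by positivity)
        _ = (ε / m) / L * (Real.exp (-(gap * T)) * Real.exp (gap / 2 * T)) * Real.exp (s * T) := by
            ring
        _ ≤ C * Real.exp (-(b * T)) * Real.exp (s * T) := by
            apply mul_le_mul_of_nonneg_right _ (Real.exp_pos _).le
            exact mul_le_mul hC1 hexp (by positivity) hC0.le
        _ = C * 1 * Real.exp (-(b * T)) * Real.exp (s * T) := by ring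
        _ ≤ C * T * Real.exp (-(b * T)) * Real.exp (s * T) := by gcongr
  · refine key δ hδ hCδ ?_ (hlongmax (Or.inr h)) (hlong (Or.inr h))
    have h1 := abs_im_le_norm ζ
    rw [h, abs_neg, abs_of_pos hδ] at h1
    exact h1
  · refine key δ hδ hCδ ?_ (hlongmax (Or.inl h)) (hlong (Or.inl h))
    have h1 := abs_im_le_norm ζ
    rw [h, abs_of_pos hδ] at h1
    exact h1

end ctx

end K34RT

end
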