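import Mathlib

/-!
MP_27fa52_an: disproof of Q1 (completeness of right translates in weighted `L^1` on the half line).
Blueprint of helper34.  All leaf statements are compiled Props `S_<ID>`.

Idea.  Weight `exp p`, `p` = covering cost with pieces of length `T n` at price `s n * T n`,
`s n = 2^{-n}/4`.  `f = f_0 + Σ κ_n b_n(· - T_n)`, `κ_n = u_n ε_n exp(-s_n T_n)`,
`b_n(t) = c_n⁻¹ exp(-t/c_n)`.  `F_n` = transform of the partial sums, `g_n` = finite sums of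
exponentials `exp(-i w τ)`, `F_n w = 0`, `s_{n+1} < Im w < s_n`, `g = lim g_n`.
Step: `exp(-i w τ)` is replaced by the contour integral over a thin tilted rectangle of
`F_n P exp(-i z τ) / ((z - w) F_{n+1})`.
-/

set_option autoImplicit false

open Complex MeasureTheory Set Filter Topology

noncomputable section

namespace K34RT

/-! ### rectangles -/

/-- closed rectangle -/
def Rc (l L δ : ℝ) : Set ℂ := {ζ | -l ≤ ζ.re ∧ ζ.re ≤ L ∧ -δ ≤ ζ.im ∧ ζ.im ≤ δ}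

/-- open rectangle -/
def Ro (l L δ : ℝ) : Set ℂ := {ζ | -l < ζ.re ∧ ζ.re < L ∧ -δ < ζ.im ∧ ζ.im < δ}

/-- boundary of the rectangle -/
def Bd (l L δ : ℝ) : Set ℂ :=
  {ζ | ζ ∈ Rc l L δ ∧ (ζ.re = -l ∨ ζ.re = L ∨ ζ.im = -δ ∨ ζ.im = δ)}

/-- boundary integral over the rectangle -/
def RI (l L δ : ℝ) (f : ℂ → ℂ) : ℂ :=
  (∫ x : ℝ in (-l)..L, f (x + ((-δ : ℝ) : ℂ) * I)) - (∫ x : ℝ in (-l)..L, f (x + (δ : ℂ) * I)) +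
  I • (∫ y : ℝ in (-δ)..δ, f ((L : ℂ) + y * I)) - I • (∫ y : ℝ in (-δ)..δ, f (((-l : ℝ) : ℂ) + y * I))

/-! ### the data of one level -/

/-- half plane of analyticity -/
def U : Set ℂ := {z | z.im < 1/2}

/-- the affine chart of the tilted rectangle -/
def zz (w : ℂ) (μ : ℝ) (ζ : ℂ) : ℂ := w + (1 - μ * I) * ζ

/-- transform of the bump `c⁻¹ exp(-t/c)` -/
def bh (c : ℝ) (z : ℂ) : ℂ := 1 / (1 + I * c * z)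

/-- exponential sums `Σ a_w exp(-i w τ)` -/
def ES (g : ℂ →₀ ℂ) (τ : ℝ) : ℂ := g.sum fun w a => a * Complex.exp (-(I * w * τ))

/-- the added term `κ b̂(z) exp(-i T z)`, `κ = u ε exp(-s T)` -/
def KK (ε s c T : ℝ) (u z : ℂ) : ℂ :=
  u * ε * Complex.exp (-((s * T : ℝ) : ℂ)) * bh c z * Complex.exp (-(I * T * z))

/-- properties of the transforms -/
structure FP (F : ℂ → ℂ) : Prop where
  diff : DifferentiableOn ℂ F U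
  dec : ∀ η : ℝ, 0 < η → ∃ X : ℝ, ∀ z : ℂ, X ≤ z.re → 0 ≤ z.im → z.im ≤ 1/4 → ‖F z‖ ≤ η
  ne : F 0 ≠ 0

/-- `w` is a usable zero of `F` -/
structure GZ (F : ℂ → ℂ) (s ε : ℝ) (w : ℂ) : Prop where
  zero : F w = 0
  lo : s < w.im
  hi : w.im < 2 * s
  reg : ∃ r : ℝ, 0 < r ∧ ∀ z : ℂ, w.re - r ≤ z.re → 0 ≤ z.im → z.im ≤ w.im + r → ‖F z‖ ≤ ε / 4

/-- the geometric data of the tilted rectangle for the zero `w` -/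
structure Geo (F : ℂ → ℂ) (s ε X : ℝ) (w : ℂ) (μ l L δ : ℝ) : Prop where
  μ0 : 0 < μ
  μ1 : μ ≤ 1
  l0 : 0 < l
  L0 : 0 < L
  δ0 : 0 < δ
  left : s + δ < w.im
  top : w.im + μ * l + δ < 2 * s
  bot : 0 < w.im - μ * L - δ
  right : w.im - μ * L + δ < s
  zero : ∀ ζ ∈ Rc l L δ, F (zz w μ ζ) = 0 → ζ = 0
  bd : ∀ ζ ∈ Rc l L δ, ‖F (zz w μ ζ)‖ ≤ ε / 4
  far : ∀ ζ ∈ Rc l L δ, (zz w μ ζ).im ≤ s → X ≤ (zz w μ ζ).re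

/-- GEO: existence of the tilted rectangle -/
def S_GEO : Prop := ∀ (F : ℂ → ℂ) (s ε X : ℝ) (w : ℂ), FP F → 0 < s → s ≤ 1/8 → 0 < ε →
  GZ F s ε w → ∃ μ l L δ : ℝ, Geo F s ε X w μ l L δ

/-- `ζ` is a bad point for `(c, T, u)` -/
def Bad (F : ℂ → ℂ) (s ε : ℝ) (w : ℂ) (μ c T : ℝ) (u ζ : ℂ) : Prop :=
  T * ‖F (zz w μ ζ) + KK ε s c T u (zz w μ ζ)‖ <
    max ‖F (zz w μ ζ)‖ ‖KK ε s c T u (zz w μ ζ)‖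

/-- SIDE: each long side excludes only phases `u` in a small set -/
def S_SIDE : Prop := ∀ (F : ℂ → ℂ) (s ε X : ℝ) (w : ℂ) (μ l L δ : ℝ), FP F → 0 < s → s ≤ 1/8 →
  0 < ε → Geo F s ε X w μ l L δ → ∀ ς : ℝ, 0 < ς → ∃ c₀ : ℝ, 0 < c₀ ∧ ∀ᶠ T : ℝ in atTop,
  ∀ c : ℝ, 0 < c → c ≤ c₀ → ∀ q : ℝ, (q = δ ∨ q = -δ) → ∀ p p' : ℝ, -l ≤ p → p ≤ L → -l ≤ p' →
  p' ≤ L → ∀ u u' : ℂ, ‖u‖ = 1 → ‖u'‖ = 1 → Bad F s ε w μ c T u (p + q * I) →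
  Bad F s ε w μ c T u' (p' + q * I) → ‖u - u'‖ < ς

/-- CORE: the step for one exponential -/
def S_CORE : Prop := ∀ (F : ℂ → ℂ) (s ε ε' X : ℝ) (w : ℂ) (μ l L δ : ℝ), FP F → 0 < s →
  s ≤ 1/8 → 0 < ε → 0 < ε' → F w = 0 → Geo F s ε X w μ l L δ →
  (∀ z : ℂ, X - 1 ≤ z.re → 0 ≤ z.im → z.im ≤ 1/4 → ‖F z‖ ≤ ε' / 32) →
  ∀ η : ℝ, 0 < η → ∃ c₀ : ℝ, 0 < c₀ ∧ ∀ᶠ T : ℝ in atTop,
  ∀ c : ℝ, 0 < c → c ≤ c₀ → ∀ u : ℂ, ‖u‖ = 1 →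
  (∀ q : ℝ, (q = δ ∨ q = -δ) → ∀ p : ℝ, -l ≤ p → p ≤ L → ¬ Bad F s ε w μ c T u (p + q * I)) →
  ∃ h : ℂ →₀ ℂ, (∀ w' ∈ h.support, GZ (fun z => F z + KK ε s c T u z) (s / 2) ε' w') ∧
    (∀ τ : ℝ, 0 ≤ τ → τ ≤ T / 2 → ‖ES h τ - Complex.exp (-(I * w * τ))‖ ≤ η * Real.exp (2 * s * τ)) ∧
    (∀ j : ℕ, 1 ≤ j → ∀ σ : ℝ, 0 ≤ σ → σ ≤ T / 2 →
      ‖ES h (j * T + σ)‖ ≤ η * Real.exp (j * (s * T) + 2 * s * σ)) ∧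
    (∀ j : ℕ, ∀ σ : ℝ, T / 2 ≤ σ → σ ≤ T → ‖ES h (j * T + σ)‖ ≤ η * Real.exp ((j + 1) * (s * T)))

/-- LEVEL: the step for a finite sum of exponentials -/
def S_LEVEL : Prop := ∀ (F : ℂ → ℂ) (s ε ε' : ℝ) (g : ℂ →₀ ℂ), FP F → 0 < s →
  s ≤ 1/8 → 0 < ε → 0 < ε' → (∀ w ∈ g.support, GZ F s ε w) →
  ∀ Cc : ℝ, 0 < Cc → ∀ η : ℝ, 0 < η → ∀ A : ℝ, ∃ T : ℝ, A ≤ T ∧ ∃ u : ℂ, ‖u‖ = 1 ∧
  ∃ g' : ℂ →₀ ℂ,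
    (∀ w' ∈ g'.support,
      GZ (fun z => F z + KK ε s (Cc * (ε * Real.exp (-(s * T)))) T u z) (s / 2) ε' w') ∧
    (∀ τ : ℝ, 0 ≤ τ → τ ≤ T / 2 → ‖ES g' τ - ES g τ‖ ≤ η * Real.exp (2 * s * τ)) ∧
    (∀ j : ℕ, 1 ≤ j → ∀ σ : ℝ, 0 ≤ σ → σ ≤ T / 2 →
      ‖ES g' (j * T + σ)‖ ≤ η * Real.exp (j * (s * T) + 2 * s * σ)) ∧
    (∀ j : ℕ, ∀ σ : ℝ, T / 2 ≤ σ → σ ≤ T → ‖ES g' (j * T + σ)‖ ≤ η * Real.exp ((j + 1) * (s * T)))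

/-! ### weights -/

/-- the slopes -/
def sl (n : ℕ) : ℝ := (1 / 4) * (1 / 2) ^ n

/-- WT: the logarithm of the weight (covering cost with pieces of length `T (n+1)` at price
`sl (n+1) * T (n+1)` and infinitesimal pieces at price `sl 0` per unit of length) -/
def S_WT : Prop := ∀ T : ℕ → ℝ, (∀ n, 1 ≤ T n) → (∀ n, 4 * T n ≤ T (n + 1)) → ∃ p : ℝ → ℝ,
  Monotone p ∧ (∀ t, t ≤ 0 → p t = 0) ∧ (∀ t, 0 ≤ p t) ∧ (∀ a b, p (a + b) ≤ p a + p b) ∧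
  (∀ t, 0 ≤ t → p t ≤ sl 0 * t) ∧ (∀ n : ℕ, p (T (n + 1)) ≤ sl (n + 1) * T (n + 1)) ∧
  Tendsto (fun t => p t / t) atTop (𝓝 0) ∧
  (∀ (n : ℕ) (t : ℝ), 0 ≤ t → t ≤ T (n + 1) / 2 → sl n * t ≤ p t) ∧
  (∀ (n j : ℕ) (σ : ℝ), 0 ≤ σ → σ ≤ T (n + 1) → j * T (n + 1) + σ ≤ T (n + 2) / 4 →
    j * (sl (n + 1) * T (n + 1)) + min (sl n * σ) (sl (n + 1) * T (n + 1)) ≤ p (j * T (n + 1) + σ))

/-! ### base functions -/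

/-- the first zero -/
def w0 : ℂ := ⟨100, 3 / 16⟩

/-- the first transform -/
def F0 (z : ℂ) : ℂ := I * (z - w0) / (1 + I * z) ^ 2

/-- the first function -/
def f0 (t : ℝ) : ℂ := Real.exp (-t) - (1 + I * w0) * (t * Real.exp (-t) : ℝ)

/-- the bump `c⁻¹ exp(-(t - T)/c)` on `[T, ∞)` -/
def bmp (c T t : ℝ) : ℂ := if T ≤ t then ((c⁻¹ * Real.exp (-((t - T) / c)) : ℝ) : ℂ) else 0

/-- BASE: facts on `f0`, `F0` -/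
def S_BASE : Prop :=
  FP F0 ∧ GZ F0 (sl 1) (1 / 2) w0 ∧
  Measurable f0 ∧
  IntegrableOn (fun t => ‖f0 t‖ * Real.exp (t / 4)) (Ioi 0) ∧
  (∀ z ∈ U, IntegrableOn (fun t : ℝ => f0 t * Complex.exp (-(I * t * z))) (Ioi 0) ∧
    ∫ t : ℝ in Ioi 0, f0 t * Complex.exp (-(I * t * z)) = F0 z) ∧
  (∀ z : ℂ, z.im ≤ 0 → F0 z ≠ 0) ∧
  (∃ C : ℝ, 0 < C ∧ ∀ (z : ℂ) (c : ℝ), z.im ≤ 0 → 0 < c → c ≤ 1 → c * ‖bh c z‖ ≤ C * ‖F0 z‖) ∧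
  Tendsto (fun y : ℝ => Real.log ‖F0 (y * I)‖ / |y|) atBot (𝓝 0)

/-- BMP: facts on the bumps -/
def S_BMP : Prop := ∀ c T : ℝ, 0 < c → c ≤ 1 → 0 ≤ T →
  Measurable (bmp c T) ∧
  IntegrableOn (fun t => ‖bmp c T t‖ * Real.exp (t / 4)) (Ioi 0) ∧
  ∫ t : ℝ in Ioi 0, ‖bmp c T t‖ * Real.exp ((t - T) / 4) ≤ 2 ∧
  (∀ z ∈ U, IntegrableOn (fun t : ℝ => bmp c T t * Complex.exp (-(I * t * z))) (Ioi 0) ∧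
    ∫ t : ℝ in Ioi 0, bmp c T t * Complex.exp (-(I * t * z)) = bh c z * Complex.exp (-(I * T * z)))

end K34RT

end
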