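import Pool.Agent.K34RT.Defs2

/-!
MP_27fa52_an, leaf F1: the limit function of the exponential sums.
-/

set_option autoImplicit false

open Complex MeasureTheory Set Filter Topology

noncomputable section

namespace K34RT

namespace F1P

variable {Cb : ℝ} {T c : ℕ → ℝ} {u : ℕ → ℂ} {F : ℕ → ℂ → ℂ} {g : ℕ → ℂ →₀ ℂ} {p : ℝ → ℝ}

lemma sl_succ (n : ℕ) : sl n = 2 * sl (n + 1) := by unfold sl; ring

lemma sl_pos (n : ℕ) : 0 < sl n := by unfold sl; positivity

lemma sl_le (n : ℕ) : sl n ≤ 1 / 4 := by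
  unfold sl
  have : ((1:ℝ)/2)^n ≤ 1 := pow_le_one₀ (by norm_num) (by norm_num)
  linarith

lemma et_pos (n : ℕ) : 0 < et n := by unfold et; positivity

lemma et_succ (n : ℕ) : et n = 2 * et (n + 1) := by unfold et; ring

lemma et_le (n : ℕ) : et n ≤ 1 / 16 := by
  unfold et
  have : ((1:ℝ)/2)^n ≤ 1 := pow_le_one₀ (by norm_num) (by norm_num)
  rw [pow_add]
  nlinarith

lemma es0 (h0 : g 0 = Finsupp.single w0 1) (τ : ℝ) :
    ‖ES (g 0) τ‖ = Real.exp (3 / 16 * τ) := by
  unfold ES
  rw [h0, Finsupp.sum_single_index (by simp), one_mul, Complex.norm_exp]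
  congr 1
  simp [w0]

lemma T_ge (h : Chain Cb T c u F g) (n : ℕ) : (n : ℝ) + 1 ≤ T n := by
  induction n with
  | zero => simpa using h.T1 0
  | succ n ih =>
    have := h.T4 n
    push_cast
    have hn : (0:ℝ) ≤ n := Nat.cast_nonneg n
    linarith

lemma T4' (h : Chain Cb T c u F g) (n : ℕ) : 4 ≤ T (n + 1) := by
  have := h.T4 n
  have := h.T1 n
  linarith

/-- the increments -/
lemma incr (h : Chain Cb T c u F g) (hp : WP T p) (n : ℕ) (τ : ℝ) (h0 : 0 ≤ τ)
    (h1 : τ ≤ T (n + 1) / 2) :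
    ‖ES (g (n + 1)) τ - ES (g n) τ‖ ≤ et n * Real.exp (p τ) :=
  (h.A n τ h0 h1).trans (mul_le_mul_of_nonneg_left
    (Real.exp_le_exp.2 (hp.low1 n τ h0 h1)) (et_pos n).le)

/-- the first bound at a new level -/
lemma newb (h : Chain Cb T c u F g) (hp : WP T p) (n : ℕ) (τ : ℝ)
    (h0 : T (n + 1) / 2 < τ) (h1 : τ ≤ T (n + 2) / 2) :
    ‖ES (g (n + 1)) τ‖ ≤ Real.exp (p τ) := by
  have hT : 0 < T (n + 1) := by linarith [T4' h n]
  have hτ : 0 ≤ τ := by linarith
  by_cases h4 : τ ≤ T (n + 2) / 4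
  · obtain ⟨j, σ, hσ0, hσ1, hj⟩ : ∃ (j : ℕ) (σ : ℝ), 0 ≤ σ ∧ σ ≤ T (n + 1) ∧
        j * T (n + 1) + σ = τ := by
      refine ⟨⌊τ / T (n + 1)⌋₊, τ - ⌊τ / T (n + 1)⌋₊ * T (n + 1), ?_, ?_, by ring⟩
      · have := Nat.floor_le (div_nonneg hτ hT.le)
        rw [le_div_iff₀ hT] at this
        linarith
      · have := Nat.lt_floor_add_one (τ / T (n + 1))
        rw [div_lt_iff₀ hT] at this
        linarith
    have hl := hp.low2 n j σ hσ0 hσ1 (by rw [hj]; exact h4)
    rw [hj] at hl
    by_cases hσ : σ ≤ T (n + 1) / 2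
    · have hj1 : 1 ≤ j := by
        rcases Nat.eq_zero_or_pos j with h | h
        · subst h
          simp only [Nat.cast_zero, zero_mul, zero_add] at hj
          linarith
        · exact h
      have hb := h.B1 n j hj1 σ hσ0 hσ
      rw [hj] at hb
      have hm : min (sl n * σ) (sl (n + 1) * T (n + 1)) = sl n * σ := by
        apply min_eq_left
        rw [sl_succ n]
        nlinarith [sl_pos (n + 1)]
      rw [hm] at hl
      calc _ ≤ _ := hb
        _ ≤ 1 * Real.exp (p τ) := mul_le_mul (by linarith [et_le n]) (Real.exp_le_exp.2 hl)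
              (Real.exp_pos _).le zero_le_one
        _ = _ := one_mul _
    · push Not at hσ
      have hb := h.B2 n j σ hσ.le hσ1
      rw [hj] at hb
      have hm : min (sl n * σ) (sl (n + 1) * T (n + 1)) = sl (n + 1) * T (n + 1) := by
        apply min_eq_right
        rw [sl_succ n]
        nlinarith [sl_pos (n + 1)]
      rw [hm] at hl
      calc _ ≤ _ := hb
        _ ≤ 1 * Real.exp (p τ) := mul_le_mul (by linarith [et_le n])
              (Real.exp_le_exp.2 (by linarith)) (Real.exp_pos _).le zero_le_one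
        _ = _ := one_mul _
  · push Not at h4
    have hb := h.R6 (n + 1) τ h4.le
    have hl := hp.low1 (n + 1) τ hτ h1
    calc _ ≤ _ := hb
      _ ≤ 1 * Real.exp (p τ) := mul_le_mul (by linarith [et_le (n + 1)])
            (Real.exp_le_exp.2 hl) (Real.exp_pos _).le zero_le_one
      _ = _ := one_mul _

lemma bound (h : Chain Cb T c u F g) (hp : WP T p) (n : ℕ) : ∀ τ : ℝ, 0 ≤ τ →
    τ ≤ T (n + 1) / 2 → ‖ES (g n) τ‖ ≤ (9 / 8 - 2 * et n) * Real.exp (p τ) := by
  induction n with
  | zero =>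
    intro τ h0 h1
    rw [es0 h.g0]
    have hl := hp.low1 0 τ h0 h1
    have e : et 0 = 1 / 16 := by unfold et; norm_num
    rw [e]
    have : Real.exp (3 / 16 * τ) ≤ Real.exp (p τ) := by
      apply Real.exp_le_exp.2
      have : sl 0 = 1 / 4 := by unfold sl; norm_num
      rw [this] at hl
      linarith
    linarith
  | succ n ih =>
    intro τ h0 h1
    have he := et_succ n
    have hep := Real.exp_pos (p τ)
    by_cases h2 : τ ≤ T (n + 1) / 2
    · have hi := incr h hp n τ h0 h2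
      have hb := ih τ h0 h2
      have : ‖ES (g (n + 1)) τ‖ ≤ ‖ES (g (n + 1)) τ - ES (g n) τ‖ + ‖ES (g n) τ‖ := by
        have := norm_add_le (ES (g (n + 1)) τ - ES (g n) τ) (ES (g n) τ)
        rwa [sub_add_cancel] at this
      calc _ ≤ _ := this
        _ ≤ et n * Real.exp (p τ) + (9 / 8 - 2 * et n) * Real.exp (p τ) := add_le_add hi hb
        _ = _ := by rw [he]; ring
    · push Not at h2
      have hb := newb h hp n τ h2 h1
      have := et_le (n + 1)
      nlinarith

lemma diff_le (h : Chain Cb T c u F g) (hp : WP T p) (N : ℕ) (τ : ℝ) (h0 : 0 ≤ τ)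
    (h1 : τ ≤ T (N + 1) / 2) (n : ℕ) (hn : N ≤ n) :
    τ ≤ T (n + 1) / 2 ∧ ‖ES (g (n + 1)) τ - ES (g n) τ‖ ≤ et n * Real.exp (p τ) := by
  have : τ ≤ T (n + 1) / 2 := by
    induction n, hn using Nat.le_induction with
    | base => exact h1
    | succ n hn ih =>
      have h4 := h.T4 (n + 1)
      have := T4' h n
      linarith
  exact ⟨this, incr h hp n τ h0 this⟩

lemma conv (h : Chain Cb T c u F g) (hp : WP T p) (τ : ℝ) (h0 : 0 ≤ τ) :
    ∃ L : ℂ, Tendsto (fun n => ES (g n) τ) atTop (𝓝 L) := by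
  obtain ⟨N, hN⟩ := exists_nat_ge (2 * τ)
  have hN' : τ ≤ T (N + 1) / 2 := by
    have := T_ge h (N + 1)
    push_cast at this
    linarith
  have hc : CauchySeq (fun n => ES (g (n + N)) τ) := by
    refine cauchySeq_of_le_geometric (1 / 2) (Real.exp (p τ)) (by norm_num) ?_
    intro n
    have := (diff_le h hp N τ h0 hN' (n + N) (by omega)).2
    rw [dist_comm, dist_eq_norm]
    have e : n + 1 + N = n + N + 1 := by omega
    rw [e]
    refine this.trans ?_
    rw [mul_comm]
    apply mul_le_mul_of_nonneg_left _ (Real.exp_pos _).le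
    unfold et
    exact pow_le_pow_of_le_one (by norm_num) (by norm_num) (by omega)
  obtain ⟨L, hL⟩ := cauchySeq_tendsto_of_complete hc
  exact ⟨L, (tendsto_add_atTop_iff_nat N).1 hL⟩

lemma measES (g : ℂ →₀ ℂ) : Measurable (ES g) := by
  unfold ES Finsupp.sum
  apply Finset.measurable_sum
  intro w _
  fun_prop

end F1P

open F1P in
theorem rt_f1 : S_F1 := by
  intro Cb T c u F g p h hp
  have key : ∀ τ : ℝ, ∃ L : ℂ, Tendsto (fun n => (Ici (0:ℝ)).indicator (ES (g n)) τ) atTop (𝓝 L) := by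
    intro τ
    by_cases h0 : 0 ≤ τ
    · obtain ⟨L, hL⟩ := conv h hp τ h0
      refine ⟨L, ?_⟩
      simpa [indicator_of_mem (show τ ∈ Ici (0:ℝ) from h0)] using hL
    · refine ⟨0, ?_⟩
      simp [indicator_of_notMem (show τ ∉ Ici (0:ℝ) from h0)]
  choose G hG using key
  have hG' : ∀ τ, 0 ≤ τ → Tendsto (fun n => ES (g n) τ) atTop (𝓝 (G τ)) := by
    intro τ h0
    have := hG τ
    simpa [indicator_of_mem (show τ ∈ Ici (0:ℝ) from h0)] using this
  have hb : ∀ (n : ℕ) (τ : ℝ), 0 ≤ τ → τ ≤ T (n + 1) / 2 →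
      ‖ES (g n) τ‖ ≤ 2 * Real.exp (p τ) := by
    intro n τ h0 h1
    refine (bound h hp n τ h0 h1).trans ?_
    apply mul_le_mul_of_nonneg_right _ (Real.exp_pos _).le
    linarith [et_pos n]
  refine ⟨G, ?_, hG', hb, ?_, ?_⟩
  · refine measurable_of_tendsto_metrizable (f := fun n => (Ici (0:ℝ)).indicator (ES (g n)))
      (fun n => (measES (g n)).indicator measurableSet_Ici) ?_
    exact tendsto_pi_nhds.2 hG
  · intro τ h0
    obtain ⟨N, hN⟩ := exists_nat_ge (2 * τ)
    have hN' : τ ≤ T (N + 1) / 2 := by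
      have := T_ge h (N + 1)
      push_cast at this
      linarith
    refine le_of_tendsto (hG' τ h0).norm ?_
    filter_upwards [eventually_ge_atTop N] with n hn
    exact hb n τ h0 (diff_le h hp N τ h0 hN' n hn).1
  · intro τ h0 h1
    have hd : ∀ n, ‖ES (g n) τ - ES (g 0) τ‖ ≤ (1 / 8 - 2 * et n) * Real.exp (1 / 4) := by
      intro n
      induction n with
      | zero =>
        have e : et 0 = 1 / 16 := by unfold et; norm_num
        rw [e, sub_self, norm_zero]
        norm_num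
      | succ n ih =>
        have hT : τ ≤ T (n + 1) / 2 := by linarith [T4' h n]
        have ha := h.A n τ h0.le hT
        have he := et_succ n
        have hle : Real.exp (sl n * τ) ≤ Real.exp (1 / 4) := by
          apply Real.exp_le_exp.2
          nlinarith [sl_le n, sl_pos n]
        have ha' : ‖ES (g (n + 1)) τ - ES (g n) τ‖ ≤ et n * Real.exp (1 / 4) :=
          ha.trans (mul_le_mul_of_nonneg_left hle (et_pos n).le)
        calc ‖ES (g (n + 1)) τ - ES (g 0) τ‖
            = ‖(ES (g (n + 1)) τ - ES (g n) τ) + (ES (g n) τ - ES (g 0) τ)‖ := by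
              congr 1; ring
          _ ≤ _ := norm_add_le _ _
          _ ≤ et n * Real.exp (1 / 4) + (1 / 8 - 2 * et n) * Real.exp (1 / 4) :=
              add_le_add ha' ih
          _ = _ := by rw [he]; ring
    have hlim : ‖G τ - ES (g 0) τ‖ ≤ 1 / 8 * Real.exp (1 / 4) := by
      refine le_of_tendsto ((hG' τ h0.le).sub_const _).norm (Eventually.of_forall fun n => ?_)
      refine (hd n).trans ?_
      apply mul_le_mul_of_nonneg_right _ (Real.exp_pos _).le
      linarith [et_pos n]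
    intro hz
    rw [hz, zero_sub, norm_neg, es0 h.g0] at hlim
    have h1' : 1 ≤ Real.exp (3 / 16 * τ) := Real.one_le_exp (by positivity)
    have h2' : Real.exp (1 / 4) ≤ 4 := by
      have : Real.exp (1 / 4) ≤ Real.exp 1 := Real.exp_le_exp.2 (by norm_num)
      linarith [Real.exp_one_lt_d9]
    linarith

end K34RT

end
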