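import Pool.Agent.K34RT.Defs2
import Pool.Agent.K34RT.BASE
import Pool.Agent.K34RT.BMP

/-! The leaf F2: the limit function, its transform and the dominating function (helper99). -/

set_option autoImplicit false

open Complex MeasureTheory Set Filter Topology

noncomputable section

namespace K34RT

namespace F2

/-- the coefficients -/
def cf (T : ℕ → ℝ) (u : ℕ → ℂ) (k : ℕ) : ℂ :=
  u (k + 1) * ep (k + 1) * Complex.exp (-((sl (k + 1) * T (k + 1) : ℝ) : ℂ))

/-- the terms -/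
def tm (c T : ℕ → ℝ) (u : ℕ → ℂ) (k : ℕ) (t : ℝ) : ℂ :=
  cf T u k * bmp (c (k + 1)) (T (k + 1)) t

theorem fn_eq (c T : ℕ → ℝ) (u : ℕ → ℂ) (n : ℕ) (t : ℝ) :
    fn c T u n t = f0 t + ∑ k ∈ Finset.range n, tm c T u k t := rfl

variable {Cb : ℝ} {T c : ℕ → ℝ} {u : ℕ → ℂ} {F : ℕ → ℂ → ℂ} {g : ℕ → ℂ →₀ ℂ} {p : ℝ → ℝ}

theorem ep_pos (n : ℕ) : 0 < ep n := by unfold ep; positivity
theorem sl_pos (n : ℕ) : 0 < sl n := by unfold sl; positivity

theorem norm_cf (h : Chain Cb T c u F g) (k : ℕ) :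
    ‖cf T u k‖ = ep (k + 1) * Real.exp (-(sl (k + 1) * T (k + 1))) := by
  unfold cf
  rw [norm_mul, norm_mul, h.u1, one_mul, Complex.norm_real, Real.norm_of_nonneg (ep_pos _).le,
    ← Complex.ofReal_neg, Complex.norm_exp_ofReal]

theorem T_ge (h : Chain Cb T c u F g) (n : ℕ) : (n : ℝ) + 1 ≤ T n := by
  induction n with
  | zero => simpa using h.T1 0
  | succ n ih =>
    have h1 := h.T4 n
    have h2 := h.T1 n
    push_cast
    linarith

theorem T_pos (h : Chain Cb T c u F g) (n : ℕ) : 0 < T n := lt_of_lt_of_le one_pos (h.T1 n)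

/-- the terms vanish on bounded sets -/
theorem tm_zero (h : Chain Cb T c u F g) {t : ℝ} {N : ℕ} (hN : t ≤ N) {k : ℕ} (hk : N ≤ k) :
    tm c T u k t = 0 := by
  unfold tm bmp
  rw [if_neg, mul_zero]
  rw [not_le]
  have h1 := T_ge h (k + 1)
  have h2 : (N : ℝ) ≤ k := by exact_mod_cast hk
  push_cast at h1
  linarith

theorem tm_tsum (h : Chain Cb T c u F g) {t : ℝ} {N : ℕ} (hN : t ≤ N) :
    ∑' k, tm c T u k t = ∑ k ∈ Finset.range N, tm c T u k t := by
  refine tsum_eq_sum fun k hk => tm_zero h hN ?_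
  rwa [Finset.mem_range, not_lt] at hk

theorem tm_sum (h : Chain Cb T c u F g) (t : ℝ) : Summable fun k => ‖tm c T u k t‖ := by
  obtain ⟨N, hN⟩ := exists_nat_ge t
  refine summable_of_ne_finset_zero (s := Finset.range N) fun k hk => ?_
  rw [Finset.mem_range, not_lt] at hk
  rw [tm_zero h hN hk, norm_zero]

theorem fn_tendsto (h : Chain Cb T c u F g) (t : ℝ) :
    Tendsto (fun n => fn c T u n t) atTop (𝓝 (f0 t + ∑' k, tm c T u k t)) := by
  obtain ⟨N, hN⟩ := exists_nat_ge t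
  refine tendsto_const_nhds.congr' ?_
  filter_upwards [eventually_ge_atTop N] with n hn
  rw [fn_eq]
  congr 1
  exact tm_tsum h (hN.trans (by exact_mod_cast hn))

theorem bmp_meas (h : Chain Cb T c u F g) (k : ℕ) :
    Measurable (bmp (c (k + 1)) (T (k + 1))) :=
  (rt_bmp (c (k + 1)) (T (k + 1)) (h.c0 k) (h.c1 k) (T_pos h _).le).1

theorem tm_meas (h : Chain Cb T c u F g) (k : ℕ) : Measurable (tm c T u k) :=
  (bmp_meas h k).const_mul _

theorem fn_meas (h : Chain Cb T c u F g) (n : ℕ) : Measurable (fn c T u n) := by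
  have : fn c T u n = fun t => f0 t + ∑ k ∈ Finset.range n, tm c T u k t :=
    funext fun t => fn_eq c T u n t
  rw [this]
  exact f0_meas.add (Finset.measurable_fun_sum _ fun k _ => tm_meas h k)

theorem lim_meas (h : Chain Cb T c u F g) : Measurable fun t => f0 t + ∑' k, tm c T u k t :=
  measurable_of_tendsto_metrizable (fn_meas h) (tendsto_pi_nhds.2 fun t => fn_tendsto h t)

/-! ### the dominating function -/

theorem p_le (h : Chain Cb T c u F g) (hp : WP T p) (k : ℕ) {t : ℝ} (ht : T (k + 1) ≤ t) :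
    p t ≤ sl (k + 1) * T (k + 1) + (t - T (k + 1)) / 4 := by
  have h1 := hp.sub (T (k + 1)) (t - T (k + 1))
  have h2 := hp.piece k
  have h3 := hp.le0 (t - T (k + 1)) (by linarith)
  have h4 : sl 0 = 1 / 4 := by unfold sl; norm_num
  rw [h4] at h3
  have h5 : T (k + 1) + (t - T (k + 1)) = t := by ring
  rw [h5] at h1
  linarith

/-- the pointwise bound of the weighted terms -/
theorem tm_bound (h : Chain Cb T c u F g) (hp : WP T p) (k : ℕ) (t : ℝ) :
    ‖tm c T u k t‖ * Real.exp (p t) ≤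
      ep (k + 1) * (‖bmp (c (k + 1)) (T (k + 1)) t‖ * Real.exp ((t - T (k + 1)) / 4)) := by
  unfold tm
  rw [norm_mul, norm_cf h]
  by_cases ht : T (k + 1) ≤ t
  · have h1 := Real.exp_le_exp.2 (p_le h hp k ht)
    rw [Real.exp_add] at h1
    have h2 : Real.exp (-(sl (k + 1) * T (k + 1))) * Real.exp (sl (k + 1) * T (k + 1)) = 1 := by
      rw [← Real.exp_add, neg_add_cancel, Real.exp_zero]
    calc ep (k + 1) * Real.exp (-(sl (k + 1) * T (k + 1))) * ‖bmp (c (k + 1)) (T (k + 1)) t‖ *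
          Real.exp (p t)
        ≤ ep (k + 1) * Real.exp (-(sl (k + 1) * T (k + 1))) * ‖bmp (c (k + 1)) (T (k + 1)) t‖ *
          (Real.exp (sl (k + 1) * T (k + 1)) * Real.exp ((t - T (k + 1)) / 4)) := by
          refine mul_le_mul_of_nonneg_left h1 ?_
          have := ep_pos (k + 1)
          positivity
      _ = ep (k + 1) * (‖bmp (c (k + 1)) (T (k + 1)) t‖ * Real.exp ((t - T (k + 1)) / 4)) *
          (Real.exp (-(sl (k + 1) * T (k + 1))) * Real.exp (sl (k + 1) * T (k + 1))) := by ring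
      _ = _ := by rw [h2, mul_one]
  · have : bmp (c (k + 1)) (T (k + 1)) t = 0 := by
      unfold bmp
      rw [if_neg ht]
    rw [this, norm_zero]
    simp

theorem bmpw_int (h : Chain Cb T c u F g) (k : ℕ) :
    IntegrableOn (fun t => ‖bmp (c (k + 1)) (T (k + 1)) t‖ * Real.exp ((t - T (k + 1)) / 4))
      (Ioi 0) := by
  have h1 := (rt_bmp (c (k + 1)) (T (k + 1)) (h.c0 k) (h.c1 k) (T_pos h _).le).2.1
  refine (h1.const_mul (Real.exp (-(T (k + 1) / 4)))).congr (Eventually.of_forall fun t => ?_)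
  simp only
  have : Real.exp ((t - T (k + 1)) / 4) = Real.exp (t / 4) * Real.exp (-(T (k + 1) / 4)) := by
    rw [← Real.exp_add]
    congr 1
    ring
  rw [this]
  ring

/-- the integrals of the weighted terms -/
theorem tm_lint (h : Chain Cb T c u F g) (hp : WP T p) (k : ℕ) :
    ∫⁻ t in Ioi (0 : ℝ), ENNReal.ofReal (‖tm c T u k t‖ * Real.exp (p t)) ≤
      ENNReal.ofReal (2 * ep (k + 1)) := by
  have h3 := (rt_bmp (c (k + 1)) (T (k + 1)) (h.c0 k) (h.c1 k) (T_pos h _).le).2.2.1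
  calc ∫⁻ t in Ioi (0 : ℝ), ENNReal.ofReal (‖tm c T u k t‖ * Real.exp (p t))
      ≤ ∫⁻ t in Ioi (0 : ℝ), ENNReal.ofReal (ep (k + 1) *
        (‖bmp (c (k + 1)) (T (k + 1)) t‖ * Real.exp ((t - T (k + 1)) / 4))) :=
        lintegral_mono fun t => ENNReal.ofReal_le_ofReal (tm_bound h hp k t)
    _ = ENNReal.ofReal (∫ t in Ioi (0 : ℝ), ep (k + 1) *
        (‖bmp (c (k + 1)) (T (k + 1)) t‖ * Real.exp ((t - T (k + 1)) / 4))) := by
        rw [ofReal_integral_eq_lintegral_ofReal]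
        · exact (bmpw_int h k).const_mul _
        · refine Eventually.of_forall fun t => ?_
          have := ep_pos (k + 1)
          simp only [Pi.zero_apply]
          positivity
    _ ≤ ENNReal.ofReal (2 * ep (k + 1)) := by
        apply ENNReal.ofReal_le_ofReal
        rw [integral_const_mul, mul_comm]
        exact mul_le_mul_of_nonneg_right h3 (ep_pos _).le

theorem ep_summable : Summable fun k => 2 * ep (k + 1) := by
  apply Summable.mul_left
  unfold ep
  exact (summable_nat_add_iff 1).2 (summable_geometric_of_lt_one (by norm_num) (by norm_num))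

/-- the dominating function -/
def DD (c T : ℕ → ℝ) (u : ℕ → ℂ) (t : ℝ) : ℝ := ‖f0 t‖ + ∑' k, ‖tm c T u k t‖

theorem DD_meas (h : Chain Cb T c u F g) : Measurable (DD c T u) := by
  have hm : ∀ n : ℕ, Measurable fun t => ‖f0 t‖ + ∑ k ∈ Finset.range n, ‖tm c T u k t‖ :=
    fun n => f0_meas.norm.add (Finset.measurable_fun_sum _ fun k _ => (tm_meas h k).norm)
  refine measurable_of_tendsto_metrizable hm (tendsto_pi_nhds.2 fun t => ?_)
  exact tendsto_const_nhds.add (tm_sum h t).hasSum.tendsto_sum_nat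

theorem fn_le (h : Chain Cb T c u F g) (n : ℕ) (t : ℝ) : ‖fn c T u n t‖ ≤ DD c T u t := by
  rw [fn_eq]
  unfold DD
  refine (norm_add_le _ _).trans (add_le_add le_rfl ((norm_sum_le _ _).trans ?_))
  exact (tm_sum h t).sum_le_tsum _ fun k _ => norm_nonneg _

theorem DD_int (h : Chain Cb T c u F g) (hp : WP T p) :
    IntegrableOn (fun t => DD c T u t * Real.exp (p t)) (Ioi 0) := by
  have hpm : Measurable p := hp.mono.measurable
  refine ⟨((DD_meas h).mul (Real.measurable_exp.comp hpm)).aestronglyMeasurable, ?_⟩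
  rw [hasFiniteIntegral_iff_norm]
  have h1 : ∫⁻ t in Ioi (0 : ℝ), ENNReal.ofReal ‖DD c T u t * Real.exp (p t)‖ =
      (∫⁻ t in Ioi (0 : ℝ), ENNReal.ofReal (‖f0 t‖ * Real.exp (p t))) +
        ∑' k, ∫⁻ t in Ioi (0 : ℝ), ENNReal.ofReal (‖tm c T u k t‖ * Real.exp (p t)) := by
    rw [← lintegral_tsum, ← lintegral_add_left]
    · refine lintegral_congr fun t => ?_
      have hD : 0 ≤ DD c T u t := by
        unfold DD
        have : 0 ≤ ∑' k, ‖tm c T u k t‖ := tsum_nonneg fun k => norm_nonneg _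
        positivity
      rw [Real.norm_of_nonneg (by positivity)]
      unfold DD
      rw [add_mul, ← tsum_mul_right, ENNReal.ofReal_add (by positivity)
        (tsum_nonneg fun k => by positivity),
        ENNReal.ofReal_tsum_of_nonneg (fun k => by positivity) ((tm_sum h t).mul_right _)]
    · exact (f0_meas.norm.mul (Real.measurable_exp.comp hpm)).ennreal_ofReal
    · exact fun k => ((tm_meas h k).norm.mul (Real.measurable_exp.comp hpm)).ennreal_ofReal.aemeasurable
  rw [h1]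
  refine ENNReal.add_lt_top.2 ⟨?_, ?_⟩
  · have h2 : ∫⁻ t in Ioi (0 : ℝ), ENNReal.ofReal (‖f0 t‖ * Real.exp (p t)) ≤
        ∫⁻ t in Ioi (0 : ℝ), ENNReal.ofReal (‖f0 t‖ * Real.exp (t / 4)) := by
      refine setLIntegral_mono' measurableSet_Ioi fun t ht => ?_
      apply ENNReal.ofReal_le_ofReal
      refine mul_le_mul_of_nonneg_left (Real.exp_le_exp.2 ?_) (norm_nonneg _)
      have h3 := hp.le0 t (le_of_lt ht)
      have h4 : sl 0 = 1 / 4 := by unfold sl; norm_num
      rw [h4] at h3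
      linarith
    refine h2.trans_lt ?_
    have h5 := f0_int4.2
    rw [hasFiniteIntegral_iff_norm] at h5
    refine lt_of_eq_of_lt (lintegral_congr fun t => ?_) h5
    rw [Real.norm_of_nonneg (by positivity)]
  · refine (ENNReal.tsum_le_tsum fun k => tm_lint h hp k).trans_lt ?_
    rw [← ENNReal.ofReal_tsum_of_nonneg (fun k => by have := ep_pos (k + 1); positivity) ep_summable]
    exact ENNReal.ofReal_lt_top

/-! ### the transform -/

theorem DD_nn (c T : ℕ → ℝ) (u : ℕ → ℂ) (t : ℝ) : 0 ≤ DD c T u t := by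
  unfold DD
  have : 0 ≤ ∑' k, ‖tm c T u k t‖ := tsum_nonneg fun k => norm_nonneg _
  positivity

theorem norm_ker {z : ℂ} (hz : z.im ≤ 0) {t : ℝ} (ht : 0 ≤ t) :
    ‖Complex.exp (-(I * (t : ℂ) * z))‖ ≤ 1 := by
  rw [Complex.norm_exp]
  have : (-(I * (t : ℂ) * z)).re = t * z.im := by simp
  rw [this]
  exact Real.exp_le_one_iff.2 (mul_nonpos_of_nonneg_of_nonpos ht hz)

theorem tmk_int (h : Chain Cb T c u F g) {z : ℂ} (hz : z.im ≤ 0) (k : ℕ) :
    IntegrableOn (fun t : ℝ => tm c T u k t * Complex.exp (-(I * t * z))) (Ioi 0) ∧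
    ∫ t : ℝ in Ioi 0, tm c T u k t * Complex.exp (-(I * t * z)) =
      KK (ep (k + 1)) (sl (k + 1)) (c (k + 1)) (T (k + 1)) (u (k + 1)) z := by
  have hU : z ∈ U := by
    show z.im < 1 / 2
    linarith
  obtain ⟨h1, h2⟩ := (rt_bmp (c (k + 1)) (T (k + 1)) (h.c0 k) (h.c1 k) (T_pos h _).le).2.2.2 z hU
  have e1 : (fun t : ℝ => tm c T u k t * Complex.exp (-(I * t * z))) =
      fun t : ℝ => cf T u k * (bmp (c (k + 1)) (T (k + 1)) t * Complex.exp (-(I * t * z))) := by
    funext t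
    unfold tm
    ring
  rw [e1]
  refine ⟨h1.const_mul _, ?_⟩
  rw [integral_const_mul, h2]
  unfold cf KK
  ring

theorem KK_le (hB : BB Cb) (h : Chain Cb T c u F g) {z : ℂ} (hz : z.im ≤ 0) (k : ℕ) :
    ‖KK (ep (k + 1)) (sl (k + 1)) (c (k + 1)) (T (k + 1)) (u (k + 1)) z‖ ≤
      ‖F0 z‖ * (1 / 2) ^ (k + 3) := by
  have hc := h.c0 k
  have h1 := hB.2 z (c (k + 1)) hz hc (h.c1 k)
  have e1 : ‖KK (ep (k + 1)) (sl (k + 1)) (c (k + 1)) (T (k + 1)) (u (k + 1)) z‖ =
      ‖cf T u k‖ * ‖bh (c (k + 1)) z‖ * ‖Complex.exp (-(I * (T (k + 1) : ℂ) * z))‖ := by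
    rw [← norm_mul, ← norm_mul]
    rfl
  rw [e1]
  have h2 := norm_ker hz (T_pos h (k + 1)).le
  have h3 : ‖cf T u k‖ * ‖bh (c (k + 1)) z‖ ≤ ‖F0 z‖ * (1 / 2) ^ (k + 3) := by
    have hcd := h.cdef k
    rw [← norm_cf h k] at hcd
    have hcf : 0 < ‖cf T u k‖ := by
      rw [norm_cf h]
      have := ep_pos (k + 1)
      positivity
    have hCb := hB.1
    rw [hcd] at h1
    have h5 : Cb * (2 ^ (k + 3) * (‖cf T u k‖ * ‖bh (c (k + 1)) z‖)) ≤ Cb * ‖F0 z‖ := by
      calc Cb * (2 ^ (k + 3) * (‖cf T u k‖ * ‖bh (c (k + 1)) z‖))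
          = Cb * 2 ^ (k + 3) * ‖cf T u k‖ * ‖bh (c (k + 1)) z‖ := by ring
        _ ≤ _ := by rw [hcd]; exact h1
    have h6 := le_of_mul_le_mul_left h5 hCb
    have h7 : (0 : ℝ) < 2 ^ (k + 3) := by positivity
    rw [one_div, inv_pow, ← div_eq_mul_inv, le_div_iff₀ h7, mul_comm]
    exact h6
  calc ‖cf T u k‖ * ‖bh (c (k + 1)) z‖ * ‖Complex.exp (-(I * (T (k + 1) : ℂ) * z))‖
      ≤ ‖cf T u k‖ * ‖bh (c (k + 1)) z‖ * 1 := by gcongr
    _ ≤ _ := by rw [mul_one]; exact h3

theorem ts_int (h : Chain Cb T c u F g) (hp : WP T p) {z : ℂ} (hz : z.im ≤ 0) :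
    IntegrableOn (fun t : ℝ => ∑' k, tm c T u k t * Complex.exp (-(I * t * z))) (Ioi 0) := by
  have e1 : (fun t : ℝ => ∑' k, tm c T u k t * Complex.exp (-(I * t * z))) =
      fun t : ℝ => ((f0 t + ∑' k, tm c T u k t) - f0 t) * Complex.exp (-(I * t * z)) := by
    funext t
    rw [add_sub_cancel_left, tsum_mul_right]
  have hm : Measurable fun t : ℝ => Complex.exp (-(I * t * z)) := by
    apply Continuous.measurable
    fun_prop
  refine (DD_int h hp).mono' ?_ ?_
  · rw [e1]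
    exact (((lim_meas h).sub f0_meas).mul hm).aestronglyMeasurable
  · refine (ae_restrict_iff' measurableSet_Ioi).2 (Eventually.of_forall fun t ht => ?_)
    rw [tsum_mul_right, norm_mul]
    have h1 : ‖∑' k, tm c T u k t‖ ≤ DD c T u t := by
      unfold DD
      exact (norm_tsum_le_tsum_norm (tm_sum h t)).trans
        (le_add_of_nonneg_left (norm_nonneg _))
    have h2 : ‖Complex.exp (-(I * (t : ℂ) * z))‖ ≤ Real.exp (p t) :=
      (norm_ker hz (le_of_lt ht)).trans (Real.one_le_exp (hp.nn t))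
    exact mul_le_mul h1 h2 (norm_nonneg _) (DD_nn c T u t)

theorem geo3 : Summable fun k : ℕ => ((1 : ℝ) / 2) ^ (k + 3) :=
  (summable_nat_add_iff 3).2 (summable_geometric_of_lt_one (by norm_num) (by norm_num))

theorem geo3_sum : ∑' k : ℕ, ((1 : ℝ) / 2) ^ (k + 3) = 1 / 4 := by
  have : ∀ k : ℕ, ((1 : ℝ) / 2) ^ (k + 3) = (1 / 8) * (1 / 2) ^ k := fun k => by
    rw [pow_add]
    norm_num
    ring
  simp only [this]
  rw [tsum_mul_left, tsum_geometric_of_lt_one (by norm_num) (by norm_num)]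
  norm_num

/-- the transform of the limit -/
theorem fhat_bound (hB : BB Cb) (h : Chain Cb T c u F g) (hp : WP T p) {f : ℝ → ℂ}
    (hf : ∀ t, 0 < t → f t = f0 t + ∑' k, tm c T u k t) {z : ℂ} (hz : z.im ≤ 0) :
    ‖fhat f z - F0 z‖ ≤ ‖F0 z‖ * (1 / 4) := by
  have hU : z.im < 1 / 2 := by linarith
  have hint : ∀ k, Integrable (fun t : ℝ => tm c T u k t * Complex.exp (-(I * t * z)))
      (volume.restrict (Ioi 0)) := fun k => (tmk_int h hz k).1
  have hle : ∀ k, ∫ t in Ioi (0 : ℝ), ‖tm c T u k t * Complex.exp (-(I * t * z))‖ ≤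
      2 * ep (k + 1) := by
    intro k
    have h1 := tm_lint h hp k
    have h2 : ENNReal.ofReal (∫ t in Ioi (0 : ℝ), ‖tm c T u k t * Complex.exp (-(I * t * z))‖) ≤
        ENNReal.ofReal (2 * ep (k + 1)) := by
      rw [ofReal_integral_eq_lintegral_ofReal (hint k).norm
        (Eventually.of_forall fun t => norm_nonneg _)]
      refine le_trans (setLIntegral_mono' measurableSet_Ioi fun t ht => ?_) h1
      apply ENNReal.ofReal_le_ofReal
      rw [norm_mul]
      refine mul_le_mul_of_nonneg_left ?_ (norm_nonneg _)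
      refine (norm_ker hz (le_of_lt ht)).trans ?_
      exact Real.one_le_exp (hp.nn t)
    have := ep_pos (k + 1)
    exact (ENNReal.ofReal_le_ofReal_iff (by positivity)).1 h2
  have hsum : Summable fun k => ∫ t in Ioi (0 : ℝ), ‖tm c T u k t * Complex.exp (-(I * t * z))‖ :=
    Summable.of_nonneg_of_le (fun k => integral_nonneg fun t => norm_nonneg _) hle ep_summable
  have hHS := hasSum_integral_of_summable_integral_norm hint hsum
  have hin2 := ts_int h hp hz
  have e0 : fhat f z = F0 z + ∑' k,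
      KK (ep (k + 1)) (sl (k + 1)) (c (k + 1)) (T (k + 1)) (u (k + 1)) z := by
    have e1 : ∀ t ∈ Ioi (0 : ℝ), f t * Complex.exp (-(I * t * z)) =
        f0 t * Complex.exp (-(I * t * z)) +
          ∑' k, tm c T u k t * Complex.exp (-(I * t * z)) := by
      intro t ht
      rw [hf t ht, add_mul, tsum_mul_right]
    unfold fhat
    rw [setIntegral_congr_fun measurableSet_Ioi e1, integral_add (f0_int hU) hin2, f0_integral hU,
      ← hHS.tsum_eq]
    congr 1
    exact tsum_congr fun k => (tmk_int h hz k).2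
  rw [e0, add_sub_cancel_left]
  have hs : Summable fun k : ℕ => ‖F0 z‖ * ((1 : ℝ) / 2) ^ (k + 3) := geo3.mul_left _
  refine (tsum_of_norm_bounded hs.hasSum (KK_le hB h hz)).trans (le_of_eq ?_)
  rw [tsum_mul_left, geo3_sum]

/-- the logarithm of the transform of the limit on the negative imaginary axis -/
theorem log_tendsto {f : ℝ → ℂ}
    (hf : ∀ z : ℂ, z.im ≤ 0 → ‖fhat f z - F0 z‖ ≤ ‖F0 z‖ * (1 / 4)) :
    Tendsto (fun y : ℝ => Real.log ‖fhat f (y * I)‖ / |y|) atBot (𝓝 0) := by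
  have h1 : Tendsto (fun y : ℝ => Real.log 2 / |y|) atBot (𝓝 0) :=
    tendsto_const_nhds.div_atTop tendsto_abs_atBot_atTop
  have h2 : Tendsto (fun y : ℝ => Real.log ‖F0 (y * I)‖ / |y| - Real.log 2 / |y|) atBot (𝓝 0) := by
    have := F0_log.sub h1
    rwa [sub_zero] at this
  have h3 : Tendsto (fun y : ℝ => Real.log ‖F0 (y * I)‖ / |y| + Real.log 2 / |y|) atBot (𝓝 0) := by
    have := F0_log.add h1
    rwa [add_zero] at this
  have key : ∀ y : ℝ, y ≤ -1 → ‖F0 (y * I)‖ / 2 ≤ ‖fhat f (y * I)‖ ∧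
      ‖fhat f (y * I)‖ ≤ ‖F0 (y * I)‖ * 2 ∧ 0 < ‖F0 (y * I)‖ := by
    intro y hy
    have him : ((y : ℂ) * I).im ≤ 0 := by
      have : ((y : ℂ) * I).im = y := by simp
      rw [this]
      linarith
    have h4 := hf _ him
    have h5 : 0 < ‖F0 (y * I)‖ := norm_pos_iff.2 (F0_ne him)
    have h6 := norm_sub_norm_le (F0 (y * I)) (fhat f (y * I))
    rw [norm_sub_rev] at h6
    have h7 := norm_sub_norm_le (fhat f (y * I)) (F0 (y * I))
    refine ⟨by linarith, by linarith, h5⟩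
  refine tendsto_of_tendsto_of_tendsto_of_le_of_le' h2 h3 ?_ ?_
  · filter_upwards [eventually_le_atBot (-1 : ℝ)] with y hy
    obtain ⟨k1, k2, k3⟩ := key y hy
    rw [← sub_div]
    refine div_le_div_of_nonneg_right ?_ (abs_nonneg y)
    rw [← Real.log_div k3.ne' (by norm_num)]
    exact Real.log_le_log (by positivity) k1
  · filter_upwards [eventually_le_atBot (-1 : ℝ)] with y hy
    obtain ⟨k1, k2, k3⟩ := key y hy
    rw [← add_div]
    refine div_le_div_of_nonneg_right ?_ (abs_nonneg y)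
    rw [← Real.log_mul k3.ne' (by norm_num)]
    exact Real.log_le_log (lt_of_lt_of_le (by positivity) k1) k2

end F2

open F2 in
theorem rt_f2 : S_F2 := by
  intro Cb T c u F g p hB h hp
  have hf : ∀ t : ℝ, 0 < t → (if t < 0 then (0 : ℂ) else f0 t + ∑' k, tm c T u k t) =
      f0 t + ∑' k, tm c T u k t := fun t ht => if_neg (not_lt.2 ht.le)
  have hb : ∀ z : ℂ, z.im ≤ 0 →
      ‖fhat (fun t => if t < 0 then (0 : ℂ) else f0 t + ∑' k, tm c T u k t) z - F0 z‖ ≤
        ‖F0 z‖ * (1 / 4) := fun z hz => fhat_bound hB h hp hf hz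
  refine ⟨fun t => if t < 0 then 0 else f0 t + ∑' k, tm c T u k t, DD c T u,
    Measurable.ite measurableSet_Iio measurable_const (lim_meas h), fun t ht => if_pos ht,
    fun t ht => ?_, fun n t _ => fn_le h n t, fun t ht => ?_, DD_int h hp, fun z hz => ?_, ?_⟩
  · simp only [hf t ht]
    exact fn_tendsto h t
  · simp only [hf t ht]
    exact le_of_tendsto (fn_tendsto h t).norm (Eventually.of_forall fun n => fn_le h n t)
  · intro h0
    have h1 := hb z hz
    rw [h0, zero_sub, norm_neg] at h1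
    have h2 : 0 < ‖F0 z‖ := norm_pos_iff.2 (F0_ne hz)
    linarith
  · have h1 := log_tendsto hb
    have h2 := (continuous_coe_real_ereal.tendsto 0).comp h1
    have h3 := h2.limsup_eq
    exact_mod_cast h3

end K34RT

end
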