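import Pool.Agent.K34RT.Defs2
import Pool.Agent.K34RT.BASE
import Pool.Agent.K34RT.BMP

/-!
MP_27fa52_an: F3, the relation.
-/

set_option autoImplicit false

open Complex MeasureTheory Set Filter Topology

noncomputable section

namespace K34RT

lemma sl_le (n : ℕ) : sl n ≤ 1/4 := by
  unfold sl
  have : ((1:ℝ)/2)^n ≤ 1 := pow_le_one₀ (by norm_num) (by norm_num)
  linarith

lemma Chain.Tge {Cb : ℝ} {T c : ℕ → ℝ} {u : ℕ → ℂ} {F : ℕ → ℂ → ℂ} {g : ℕ → ℂ →₀ ℂ}
    (h : Chain Cb T c u F g) (n : ℕ) : (n:ℝ) + 1 ≤ T n := by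
  induction n with
  | zero => simpa using h.T1 0
  | succ n ih =>
    have h1 := h.T4 n
    have h2 := h.T1 n
    push_cast
    linarith

lemma Chain.fn_meas {Cb : ℝ} {T c : ℕ → ℝ} {u : ℕ → ℂ} {F : ℕ → ℂ → ℂ} {g : ℕ → ℂ →₀ ℂ}
    (h : Chain Cb T c u F g) (n : ℕ) : Measurable (fn c T u n) := by
  unfold fn
  refine rt_base.2.2.1.add (Finset.measurable_fun_sum _ fun k _ => ?_)
  exact measurable_const.mul
    (rt_bmp (c (k + 1)) (T (k + 1)) (h.c0 k) (h.c1 k) (zero_le_one.trans (h.T1 (k + 1)))).1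

lemma Chain.fn_int {Cb : ℝ} {T c : ℕ → ℝ} {u : ℕ → ℂ} {F : ℕ → ℂ → ℂ} {g : ℕ → ℂ →₀ ℂ}
    (h : Chain Cb T c u F g) (n : ℕ) {z : ℂ} (hz : z ∈ U) :
    IntegrableOn (fun t : ℝ => fn c T u n t * Complex.exp (-(I * t * z))) (Ioi 0) ∧
    ∫ t : ℝ in Ioi 0, fn c T u n t * Complex.exp (-(I * t * z)) = F n z := by
  induction n with
  | zero =>
    have h1 := rt_base.2.2.2.2.1 z hz
    simpa [fn, h.F0'] using h1
  | succ n ih =>
    have h1 := (rt_bmp (c (n + 1)) (T (n + 1)) (h.c0 n) (h.c1 n)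
      (zero_le_one.trans (h.T1 (n + 1)))).2.2.2 z hz
    have e1 : (fun t : ℝ => fn c T u (n + 1) t * Complex.exp (-(I * t * z))) =
        fun t : ℝ => fn c T u n t * Complex.exp (-(I * t * z)) +
          (u (n + 1) * ep (n + 1) * Complex.exp (-((sl (n + 1) * T (n + 1) : ℝ) : ℂ))) *
            (bmp (c (n + 1)) (T (n + 1)) t * Complex.exp (-(I * t * z))) := by
      funext t
      unfold fn
      rw [Finset.sum_range_succ]
      ring
    rw [e1]
    refine ⟨ih.1.add (h1.1.const_mul _), ?_⟩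
    rw [integral_add ih.1 (h1.1.const_mul _), integral_const_mul, ih.2, h1.2, h.Fs n]
    simp only [KK]
    ring

lemma ES_shift (g : ℂ →₀ ℂ) (t τ : ℝ) : ES g (t + τ) =
    ∑ w ∈ g.support, g w * Complex.exp (-(I * w * τ)) * Complex.exp (-(I * t * w)) := by
  unfold ES Finsupp.sum
  refine Finset.sum_congr rfl fun w _ => ?_
  rw [mul_assoc, ← Complex.exp_add]
  congr 2
  push_cast
  ring_nf

lemma Chain.rel {Cb : ℝ} {T c : ℕ → ℝ} {u : ℕ → ℂ} {F : ℕ → ℂ → ℂ} {g : ℕ → ℂ →₀ ℂ}
    (h : Chain Cb T c u F g) (n : ℕ) (τ : ℝ) :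
    IntegrableOn (fun t : ℝ => fn c T u n t * ES (g n) (t + τ)) (Ioi 0) ∧
    ∫ t : ℝ in Ioi 0, fn c T u n t * ES (g n) (t + τ) = 0 := by
  have hU : ∀ w ∈ (g n).support, w ∈ U := by
    intro w hw
    have h1 := (h.gz n w hw).hi
    have h2 : 2 * sl (n + 1) = sl n := by unfold sl; rw [pow_succ]; ring
    have h3 := sl_le n
    show w.im < 1/2
    linarith
  have e1 : (fun t : ℝ => fn c T u n t * ES (g n) (t + τ)) = fun t : ℝ =>
      ∑ w ∈ (g n).support, (g n w * Complex.exp (-(I * w * τ))) *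
        (fn c T u n t * Complex.exp (-(I * t * w))) := by
    funext t
    rw [ES_shift, Finset.mul_sum]
    refine Finset.sum_congr rfl fun w _ => ?_
    ring
  rw [e1]
  have hi : ∀ w ∈ (g n).support, IntegrableOn (fun t : ℝ =>
      (g n w * Complex.exp (-(I * w * τ))) * (fn c T u n t * Complex.exp (-(I * t * w))))
      (Ioi 0) := fun w hw => (h.fn_int n (hU w hw)).1.const_mul _
  refine ⟨integrable_finsetSum _ hi, ?_⟩
  rw [integral_finsetSum _ hi]
  refine Finset.sum_eq_zero fun w hw => ?_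
  rw [integral_const_mul, (h.fn_int n (hU w hw)).2, (h.gz n w hw).zero, mul_zero]

lemma ES_cont (g : ℂ →₀ ℂ) : Continuous (ES g) := by
  unfold ES Finsupp.sum
  fun_prop

theorem rt_f3 : S_F3 := by
  intro Cb T c u F g p G f D hBB h hp hGm hfm hG hb hf hD hDi τ hτ
  set a : ℕ → ℝ := fun n => T (n + 1) / 2 - τ with ha
  set φ : ℕ → ℝ → ℂ := fun n t => fn c T u n t * ES (g n) (t + τ) with hφ
  have hφm : ∀ n, Measurable (φ n) := fun n =>
    (h.fn_meas n).mul ((ES_cont _).measurable.comp (measurable_id.add_const τ))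
  have hlim : Tendsto (fun n => ∫ t in Ioi (0:ℝ), (Iic (a n)).indicator (φ n) t) atTop
      (𝓝 (∫ t in Ioi (0:ℝ), f t * G (t + τ))) := by
    apply tendsto_integral_of_dominated_convergence
      (fun t => (D t * Real.exp (p t)) * (2 * Real.exp (p τ)))
    · intro n
      exact ((hφm n).indicator measurableSet_Iic).aestronglyMeasurable
    · exact hDi.mul_const _
    · intro n
      refine (ae_restrict_iff' measurableSet_Ioi).2 (Eventually.of_forall fun t ht => ?_)
      have ht0 : 0 < t := ht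
      have hD0 : 0 ≤ D t := (norm_nonneg _).trans (hD 0 t ht0)
      by_cases hta : t ∈ Iic (a n)
      · rw [indicator_of_mem hta]
        have h1 : t + τ ≤ T (n + 1) / 2 := by
          have : t ≤ T (n + 1) / 2 - τ := hta
          linarith
        have h2 := hb n (t + τ) (by linarith) h1
        have h3 := hD n t ht0
        have h4 : Real.exp (p (t + τ)) ≤ Real.exp (p t) * Real.exp (p τ) := by
          rw [← Real.exp_add]; exact Real.exp_le_exp.2 (hp.sub t τ)
        calc ‖φ n t‖ = ‖fn c T u n t‖ * ‖ES (g n) (t + τ)‖ := norm_mul _ _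
          _ ≤ D t * (2 * (Real.exp (p t) * Real.exp (p τ))) := by
            apply mul_le_mul h3 _ (norm_nonneg _) hD0
            exact h2.trans (by linarith)
          _ = _ := by ring
      · rw [indicator_of_notMem hta, norm_zero]
        positivity
    · refine (ae_restrict_iff' measurableSet_Ioi).2 (Eventually.of_forall fun t ht => ?_)
      have ht0 : 0 < t := ht
      have h1 : Tendsto (fun n => φ n t) atTop (𝓝 (f t * G (t + τ))) :=
        (hf t ht0).mul (hG (t + τ) (by linarith))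
      refine h1.congr' ?_
      obtain ⟨N, hN⟩ := exists_nat_ge (2 * (t + τ))
      filter_upwards [eventually_ge_atTop N] with n hn
      rw [indicator_of_mem]
      have h2 := h.Tge (n + 1)
      have h3 : (N:ℝ) ≤ n := by exact_mod_cast hn
      show t ≤ T (n + 1) / 2 - τ
      push_cast at h2
      linarith
  have hzero : Tendsto (fun n => ∫ t in Ioi (0:ℝ), (Iic (a n)).indicator (φ n) t) atTop
      (𝓝 0) := by
    apply squeeze_zero_norm' (a := fun n : ℕ => ((1:ℝ)/2)^n) ?_
      (tendsto_pow_atTop_nhds_zero_of_lt_one (by norm_num) (by norm_num))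
    obtain ⟨N, hN⟩ := exists_nat_ge (2 * τ)
    filter_upwards [eventually_ge_atTop N] with n hn
    have h3 : (N:ℝ) ≤ n := by exact_mod_cast hn
    have h2 := h.Tge (n + 1)
    push_cast at h2
    have ha0 : 0 ≤ a n := by simp only [ha]; linarith
    obtain ⟨hi, h0⟩ := h.rel n τ
    have e1 : ∀ t, (Iic (a n)).indicator (φ n) t = φ n t - (Ioi (a n)).indicator (φ n) t := by
      intro t
      by_cases hta : t ≤ a n
      · rw [indicator_of_mem (by exact hta), indicator_of_notMem (by simpa using hta), sub_zero]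
      · rw [indicator_of_notMem (by exact hta), indicator_of_mem (by simpa using hta), sub_self]
    have hi2 : IntegrableOn (φ n) (Ioi (0:ℝ)) := hi
    have e2 : ∫ t in Ioi (0:ℝ), (Ioi (a n)).indicator (φ n) t = ∫ t in Ioi (a n), φ n t := by
      rw [setIntegral_indicator measurableSet_Ioi]
      congr 2
      ext t
      simp only [mem_inter_iff, mem_Ioi]
      constructor
      · exact fun h => h.2
      · exact fun h => ⟨lt_of_le_of_lt ha0 h, h⟩
    have e3 : ∫ t in Ioi (0:ℝ), (Iic (a n)).indicator (φ n) t = - ∫ t in Ioi (a n), φ n t := by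
      calc ∫ t in Ioi (0:ℝ), (Iic (a n)).indicator (φ n) t
          = ∫ t in Ioi (0:ℝ), (φ n t - (Ioi (a n)).indicator (φ n) t) := by
            congr 1; funext t; exact e1 t
        _ = (∫ t in Ioi (0:ℝ), φ n t) - ∫ t in Ioi (0:ℝ), (Ioi (a n)).indicator (φ n) t :=
            integral_sub hi2 (hi2.indicator measurableSet_Ioi)
        _ = _ := by rw [e2, h0, zero_sub]
    rw [e3, norm_neg]
    refine (norm_integral_le_integral_norm _).trans ?_
    have h5 := h.R5 n τ hτ.le (by linarith)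
    refine le_trans (le_of_eq ?_) h5
    congr 1
    funext t
    exact norm_mul _ _
  exact tendsto_nhds_unique hlim hzero

end K34RT

end
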