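import Pool.Agent.K34RT.Defs

set_option autoImplicit false

open Complex MeasureTheory Set Filter Topology

noncomputable section

namespace K34RT.WTp

variable (T : ℕ → ℝ)

/-- the length covered by the pieces -/
def len (k : ℕ →₀ ℕ) : ℝ := k.sum fun n c => (c : ℝ) * T (n + 1)

/-- the cost of the pieces -/
def cost (k : ℕ →₀ ℕ) : ℝ := k.sum fun n c => (c : ℝ) * (sl (n + 1) * T (n + 1))

/-- the costs of the coverings of the length `t` -/
def cs (t : ℝ) : Set ℝ :=
  {y | ∃ (k : ℕ →₀ ℕ) (x : ℝ), 0 ≤ x ∧ t ≤ len T k + x ∧ y = cost T k + sl 0 * x}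

/-- the covering cost -/
def pp (t : ℝ) : ℝ := sInf (cs T t)

theorem sl_pos (n : ℕ) : 0 < sl n := by unfold sl; positivity

theorem sl_succ (n : ℕ) : sl n = 2 * sl (n + 1) := by unfold sl; rw [pow_succ]; ring

theorem sl_anti {m n : ℕ} (h : m ≤ n) : sl n ≤ sl m := by
  induction n, h using Nat.le_induction with
  | base => exact le_refl _
  | succ n _ ih => linarith [sl_succ n, sl_pos (n + 1)]

variable {T} (hT : ∀ n, 1 ≤ T n) (hT4 : ∀ n, 4 * T n ≤ T (n + 1))

include hT in
theorem Tpos (n : ℕ) : 0 < T n := lt_of_lt_of_le one_pos (hT n)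

include hT in
theorem cost_nonneg (k : ℕ →₀ ℕ) : 0 ≤ cost T k := by
  unfold cost Finsupp.sum
  exact Finset.sum_nonneg fun n _ =>
    mul_nonneg (Nat.cast_nonneg _) (mul_nonneg (sl_pos _).le (Tpos hT _).le)

theorem len_add (k k' : ℕ →₀ ℕ) : len T (k + k') = len T k + len T k' := by
  unfold len
  rw [Finsupp.sum_add_index']
  · intro n; simp
  · intro n a b; push_cast; ring

theorem cost_add (k k' : ℕ →₀ ℕ) : cost T (k + k') = cost T k + cost T k' := by
  unfold cost
  rw [Finsupp.sum_add_index']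
  · intro n; simp
  · intro n a b; push_cast; ring

theorem len_single (n c : ℕ) : len T (Finsupp.single n c) = c * T (n + 1) := by
  unfold len
  rw [Finsupp.sum_single_index]; simp

theorem cost_single (n c : ℕ) : cost T (Finsupp.single n c) = c * (sl (n + 1) * T (n + 1)) := by
  unfold cost
  rw [Finsupp.sum_single_index]; simp

include hT in
theorem cs_bdd (t : ℝ) : BddBelow (cs T t) := by
  refine ⟨0, ?_⟩
  rintro _ ⟨k, x, hx, -, rfl⟩
  have h1 := cost_nonneg hT k
  have h2 := mul_nonneg (sl_pos 0).le hx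
  linarith

theorem cs_ne (t : ℝ) : (cs T t).Nonempty := by
  refine ⟨cost T 0 + sl 0 * max t 0, 0, max t 0, le_max_right _ _, ?_, rfl⟩
  have : len T 0 = 0 := by unfold len; simp
  rw [this, zero_add]
  exact le_max_left _ _

include hT in
theorem pp_le {t y : ℝ} (h : y ∈ cs T t) : pp T t ≤ y := csInf_le (cs_bdd hT t) h

theorem le_pp {t y : ℝ} (h : ∀ (k : ℕ →₀ ℕ) (x : ℝ), 0 ≤ x → t ≤ len T k + x →
    y ≤ cost T k + sl 0 * x) : y ≤ pp T t := by
  refine le_csInf (cs_ne t) ?_
  rintro _ ⟨k, x, hx, ht, rfl⟩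
  exact h k x hx ht

include hT hT4 in
theorem c_mono {m n : ℕ} (h : m ≤ n) : sl (m + 1) * T (m + 1) ≤ sl (n + 1) * T (n + 1) := by
  induction n, h using Nat.le_induction with
  | base => exact le_refl _
  | succ n _ ih =>
    refine ih.trans ?_
    have h1 := hT4 (n + 1)
    have h2 := sl_succ (n + 1)
    have h3 := sl_pos (n + 1 + 1)
    have h4 := Tpos hT (n + 1)
    nlinarith [mul_le_mul_of_nonneg_left h1 h3.le, mul_pos h3 h4]

include hT in
theorem cost_ge_single {k : ℕ →₀ ℕ} {m : ℕ} (h : k m ≠ 0) :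
    sl (m + 1) * T (m + 1) ≤ cost T k := by
  have h1 : (k m : ℝ) * (sl (m + 1) * T (m + 1)) ≤ cost T k := by
    unfold cost Finsupp.sum
    exact Finset.single_le_sum (f := fun n => (k n : ℝ) * (sl (n + 1) * T (n + 1)))
      (fun n _ => mul_nonneg (Nat.cast_nonneg _) (mul_nonneg (sl_pos _).le (Tpos hT _).le))
      (Finsupp.mem_support_iff.2 h)
  have h2 : (1 : ℝ) ≤ k m := by exact_mod_cast Nat.one_le_iff_ne_zero.2 h
  have h3 := mul_pos (sl_pos (m + 1)) (Tpos hT (m + 1))
  nlinarith

include hT in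
/-- if all the pieces have index at most `n` -/
theorem cost_ge_len {k : ℕ →₀ ℕ} {n : ℕ} (h : ∀ m, n < m → k m = 0) :
    sl n * len T k ≤ cost T k + (sl n - sl (n + 1)) * ((k n : ℝ) * T (n + 1)) := by
  have hs : k.support ⊆ Finset.range (n + 1) := by
    intro m hm
    rw [Finset.mem_range]
    by_contra hc
    exact Finsupp.mem_support_iff.1 hm (h m (by omega))
  have h1 : len T k = ∑ m ∈ Finset.range (n + 1), (k m : ℝ) * T (m + 1) := by
    unfold len
    exact Finsupp.sum_of_support_subset _ hs _ (by intro i _; simp)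
  have h2 : cost T k = ∑ m ∈ Finset.range (n + 1), (k m : ℝ) * (sl (m + 1) * T (m + 1)) := by
    unfold cost
    exact Finsupp.sum_of_support_subset _ hs _ (by intro i _; simp)
  rw [h1, h2, Finset.sum_range_succ, Finset.sum_range_succ, mul_add, Finset.mul_sum]
  have h3 : ∑ m ∈ Finset.range n, sl n * ((k m : ℝ) * T (m + 1)) ≤
      ∑ m ∈ Finset.range n, (k m : ℝ) * (sl (m + 1) * T (m + 1)) := by
    refine Finset.sum_le_sum fun m hm => ?_
    have h4 : sl n ≤ sl (m + 1) := sl_anti (by rw [Finset.mem_range] at hm; omega)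
    have h5 : 0 ≤ (k m : ℝ) * T (m + 1) := mul_nonneg (Nat.cast_nonneg _) (Tpos hT _).le
    nlinarith [mul_le_mul_of_nonneg_right h4 h5]
  nlinarith

end K34RT.WTp

namespace K34RT

open WTp

theorem rt_wt : S_WT := by
  intro T hT hT4
  refine ⟨pp T, ?_, ?_, ?_, ?_, ?_, ?_, ?_, ?_, ?_⟩
  · -- monotone
    intro a b hab
    refine le_pp fun k x hx ht => pp_le hT ⟨k, x, hx, hab.trans ht, rfl⟩
  · intro t ht
    refine le_antisymm ?_ (le_pp fun k x hx _ => ?_)
    · refine (pp_le hT ⟨0, 0, le_refl _, ?_, rfl⟩).trans ?_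
      · simp [len, ht]
      · simp [cost]
    · have h1 := cost_nonneg hT k
      have h2 := mul_nonneg (sl_pos 0).le hx
      linarith
  · intro t
    refine le_pp fun k x hx _ => ?_
    have h1 := cost_nonneg hT k
    have h2 := mul_nonneg (sl_pos 0).le hx
    linarith
  · intro a b
    rw [← sub_le_iff_le_add]
    refine le_pp fun k x hx ht => ?_
    rw [sub_le_comm]
    refine le_pp fun k' x' hx' ht' => ?_
    rw [sub_le_iff_le_add]
    refine pp_le hT ⟨k' + k, x' + x, add_nonneg hx' hx, ?_, ?_⟩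
    · rw [len_add]; linarith
    · rw [cost_add]; ring
  · intro t ht
    refine pp_le hT ⟨0, t, ht, ?_, ?_⟩
    · simp [len]
    · simp [cost]
  · intro n
    refine pp_le hT ⟨Finsupp.single n 1, 0, le_refl _, ?_, ?_⟩
    · rw [len_single]; simp
    · rw [cost_single]; simp
  · -- the limit
    have hle : ∀ (n : ℕ) (t : ℝ), 0 < t → pp T t / t ≤ sl (n + 1) + sl (n + 1) * T (n + 1) / t := by
      intro n t ht
      have hTn := Tpos hT (n + 1)
      have h1 : pp T t ≤ ⌈t / T (n + 1)⌉₊ * (sl (n + 1) * T (n + 1)) := by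
        refine pp_le hT ⟨Finsupp.single n ⌈t / T (n + 1)⌉₊, 0, le_refl _, ?_, ?_⟩
        · rw [len_single, add_zero]
          have := Nat.le_ceil (t / T (n + 1))
          rwa [div_le_iff₀ hTn] at this
        · rw [cost_single]; simp
      have h2 : (⌈t / T (n + 1)⌉₊ : ℝ) < t / T (n + 1) + 1 :=
        Nat.ceil_lt_add_one (div_nonneg ht.le hTn.le)
      have h3 := mul_pos (sl_pos (n + 1)) hTn
      have h4 : pp T t ≤ sl (n + 1) * t + sl (n + 1) * T (n + 1) := by
        refine h1.trans ?_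
        have h5 : (⌈t / T (n + 1)⌉₊ : ℝ) * (sl (n + 1) * T (n + 1)) ≤
          (t / T (n + 1) + 1) * (sl (n + 1) * T (n + 1)) :=
          mul_le_mul_of_nonneg_right h2.le h3.le
        refine h5.trans (le_of_eq ?_)
        field_simp
      rw [div_le_iff₀ ht]
      refine h4.trans (le_of_eq ?_)
      field_simp
    rw [Metric.tendsto_atTop]
    intro ε hε
    have hsl : Tendsto (fun n : ℕ => sl (n + 1)) atTop (𝓝 0) := by
      have h1 : Tendsto (fun n : ℕ => (1 / 4 : ℝ) * (1 / 2) ^ n) atTop (𝓝 (1 / 4 * 0)) :=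
        (tendsto_pow_atTop_nhds_zero_of_lt_one (by norm_num) (by norm_num)).const_mul _
      rw [mul_zero] at h1
      exact (tendsto_add_atTop_iff_nat 1).2 h1
    obtain ⟨n, hn⟩ := ((hsl.eventually (gt_mem_nhds (half_pos hε)))).exists
    have h3 := mul_pos (sl_pos (n + 1)) (Tpos hT (n + 1))
    refine ⟨max 1 (4 * (sl (n + 1) * T (n + 1)) / ε), fun t ht => ?_⟩
    have ht1 : 1 ≤ t := (le_max_left _ _).trans ht
    have ht0 : 0 < t := lt_of_lt_of_le one_pos ht1
    have ht2 : 4 * (sl (n + 1) * T (n + 1)) / ε ≤ t := (le_max_right _ _).trans ht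
    rw [div_le_iff₀ hε] at ht2
    have h0 : 0 ≤ pp T t := by
      refine le_pp fun k x hx _ => ?_
      have h1 := cost_nonneg hT k
      have h2 := mul_nonneg (sl_pos 0).le hx
      linarith
    rw [Real.dist_eq, sub_zero, abs_of_nonneg (div_nonneg h0 ht0.le)]
    refine lt_of_le_of_lt (hle n t ht0) ?_
    have h5 : sl (n + 1) * T (n + 1) / t ≤ ε / 4 := by
      rw [div_le_iff₀ ht0]; linarith
    linarith
  · -- lower bound
    intro n t ht0 ht
    refine le_pp fun k x hx hk => ?_
    by_cases h : ∃ m, n ≤ m ∧ k m ≠ 0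
    · obtain ⟨m, hm, hkm⟩ := h
      have h1 := cost_ge_single hT hkm
      have h2 := c_mono hT hT4 hm
      have h3 := sl_succ n
      have h4 := sl_pos (n + 1)
      have h5 := mul_nonneg (sl_pos 0).le hx
      have h6 : sl (n + 1) * t ≤ sl (n + 1) * (T (n + 1) / 2) := mul_le_mul_of_nonneg_left ht h4.le
      rw [h3]
      linarith
    · push Not at h
      have h1 := cost_ge_len hT (k := k) (n := n) fun m hm => h m hm.le
      rw [h n (le_refl _)] at h1
      have h2 : sl n ≤ sl 0 := sl_anti (Nat.zero_le n)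
      have h3 := mul_le_mul_of_nonneg_right h2 hx
      have h4 := mul_le_mul_of_nonneg_left hk (sl_pos n).le
      simp only [Nat.cast_zero, zero_mul, mul_zero, add_zero] at h1
      linarith [mul_add (sl n) (len T k) x]
  · intro n j σ hσ0 hσ ht
    refine le_pp fun k x hx hk => ?_
    have h3 := sl_succ n
    have h4 := sl_pos (n + 1)
    have h4' := sl_pos n
    have hTn := Tpos hT (n + 1)
    have hc := mul_pos h4 hTn
    have h5 := mul_nonneg (sl_pos 0).le hx
    have hj : (0 : ℝ) ≤ j := Nat.cast_nonneg _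
    by_cases h : ∃ m, n + 1 ≤ m ∧ k m ≠ 0
    · obtain ⟨m, hm, hkm⟩ := h
      have h1 := cost_ge_single hT hkm
      have h2 := c_mono hT hT4 hm
      have h6 : sl (n + 1) = 2 * sl (n + 1 + 1) := sl_succ (n + 1)
      have h7 : sl (n + 1 + 1) * (j * T (n + 1) + σ) ≤ sl (n + 1 + 1) * (T (n + 2) / 4) :=
        mul_le_mul_of_nonneg_left ht (sl_pos _).le
      have h8 : min (sl n * σ) (sl (n + 1) * T (n + 1)) ≤ sl n * σ := min_le_left _ _
      have h9 : sl n * (j * T (n + 1) + σ) ≤ sl (n + 1 + 1) * T (n + 1 + 1) := by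
        have : (n + 1 + 1) = n + 2 := rfl
        rw [this] at *
        rw [h3, h6]
        linarith
      have h10 : j * (sl (n + 1) * T (n + 1)) ≤ sl n * (j * T (n + 1)) := by
        rw [h3]
        nlinarith [mul_nonneg hj hc.le]
      linarith [mul_add (sl n) (j * T (n + 1)) σ]
    · push Not at h
      have h1 := cost_ge_len hT (k := k) (n := n) fun m hm => h m hm
      have h2 : sl n ≤ sl 0 := sl_anti (Nat.zero_le n)
      have h6 := mul_le_mul_of_nonneg_right h2 hx
      have h7 := mul_le_mul_of_nonneg_left hk (sl_pos n).le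
      have h8 : sl n - sl (n + 1) = sl (n + 1) := by rw [h3]; ring
      rw [h8] at h1
      rcases le_or_gt (k n) j with hkj | hkj
      · have h9 : (k n : ℝ) ≤ j := by exact_mod_cast hkj
        have h10 : min (sl n * σ) (sl (n + 1) * T (n + 1)) ≤ sl n * σ := min_le_left _ _
        have h11 : (k n : ℝ) * (sl (n + 1) * T (n + 1)) ≤ j * (sl (n + 1) * T (n + 1)) :=
          mul_le_mul_of_nonneg_right h9 hc.le
        have h12 : sl n * (j * T (n + 1) + σ) =
            2 * (j * (sl (n + 1) * T (n + 1))) + sl n * σ := by rw [h3]; ring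
        nlinarith [mul_add (sl n) (len T k) x]
      · have h9 : (j : ℝ) + 1 ≤ k n := by exact_mod_cast hkj
        have h10 : min (sl n * σ) (sl (n + 1) * T (n + 1)) ≤ sl (n + 1) * T (n + 1) :=
          min_le_right _ _
        have h11 : ((j : ℝ) + 1) * (sl (n + 1) * T (n + 1)) ≤ k n * (sl (n + 1) * T (n + 1)) :=
          mul_le_mul_of_nonneg_right h9 hc.le
        have h13 : (k n : ℝ) * (sl (n + 1) * T (n + 1)) ≤ cost T k := by
          by_cases hk0 : k n = 0
          · rw [hk0]; simp only [Nat.cast_zero, zero_mul]; exact cost_nonneg hT k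
          · unfold cost Finsupp.sum
            exact Finset.single_le_sum (f := fun n => (k n : ℝ) * (sl (n + 1) * T (n + 1)))
              (fun n _ => mul_nonneg (Nat.cast_nonneg _) (mul_nonneg (sl_pos _).le (Tpos hT _).le))
              (Finsupp.mem_support_iff.2 hk0)
        linarith

end K34RT

end
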