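import Pool.Agent.K34RT.Defs2
import Pool.Agent.K34RT.BASE
import Pool.Agent.K34RT.BMP
import Pool.Agent.K34RT.WT
import Pool.Agent.K34RT.F3

/-!
MP_27fa52_an: the assembly.
-/

set_option autoImplicit false

open Complex MeasureTheory Set Filter Topology

noncomputable section

namespace K34RT

theorem rt_final (hC : S_CHAIN) (hF1 : S_F1) (hF2 : S_F2) :
    ∃ (φ : ℝ → ℝ) (f g : ℝ → ℂ), Monotone φ ∧
      (Measurable φ ∧ (∀ t, 1 ≤ φ t) ∧ (∀ t τ, φ (t + τ) ≤ φ t * φ τ) ∧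
        Tendsto (fun t => Real.log (φ t) / t) atTop (𝓝 0) ∧
        Tendsto (fun t => Real.log (φ t) / t) atBot (𝓝 0)) ∧
      (AEStronglyMeasurable f volume ∧ (∀ t, t < 0 → f t = 0) ∧
        IntegrableOn (fun t => ‖f t‖ * φ t) (Set.Ioi 0)) ∧
      ((∀ z : ℂ, z.im ≤ 0 → fhat f z ≠ 0) ∧
        Filter.limsup (fun y : ℝ => ((Real.log ‖fhat f (y * Complex.I)‖ / |y| : ℝ) : EReal))
          atBot = 0) ∧
      (AEStronglyMeasurable g (volume.restrict (Set.Ioi 0)) ∧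
        ∃ K : ℝ, ∀ᵐ t ∂(volume.restrict (Set.Ioi (0:ℝ))), ‖g t‖ ≤ K * φ t) ∧
      (∀ τ : ℝ, 0 < τ → ∫ t in Set.Ioi (0:ℝ), f t * g (t + τ) = 0) ∧
      ¬ (∀ᵐ t ∂(volume.restrict (Set.Ioi (0:ℝ))), g t = 0) := by
  obtain ⟨Cb, hCb0, hCb⟩ := rt_base.2.2.2.2.2.2.1
  have hBB : BB Cb := ⟨hCb0, hCb⟩
  obtain ⟨T, c, u, F, g, h⟩ := hC Cb hBB
  obtain ⟨p, p1, p2, p3, p4, p5, p6, p7, p8, p9⟩ := rt_wt T h.T1 h.T4
  have hp : WP T p := ⟨p1, p2, p3, p4, p5, p6, p7, p8, p9⟩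
  obtain ⟨G, hGm, hG, hGb, hGp, hG0⟩ := hF1 Cb T c u F g p h hp
  obtain ⟨f, D, hfm, hf0, hf, hD, hfD, hDi, hz, hl⟩ := hF2 Cb T c u F g p hBB h hp
  have hφm : Measurable (fun t => Real.exp (p t)) := p1.measurable.exp
  refine ⟨fun t => Real.exp (p t), f, G, fun a b hab => Real.exp_le_exp.2 (p1 hab),
    ⟨hφm, fun t => Real.one_le_exp (p3 t), fun t τ => ?_, ?_, ?_⟩, ⟨hfm.aestronglyMeasurable,
      hf0, ?_⟩, ⟨hz, hl⟩, ⟨hGm.aestronglyMeasurable, 2, ?_⟩, ?_, ?_⟩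
  · show Real.exp (p (t + τ)) ≤ Real.exp (p t) * Real.exp (p τ)
    rw [← Real.exp_add]; exact Real.exp_le_exp.2 (p4 t τ)
  · simpa only [Real.log_exp] using p7
  · refine (tendsto_const_nhds (x := (0:ℝ))).congr' ?_
    filter_upwards [eventually_le_atBot (0:ℝ)] with t ht
    simp only [Real.log_exp]
    rw [p2 t ht, zero_div]
  · refine Integrable.mono' hDi ((hfm.norm.mul hφm).aestronglyMeasurable) ?_
    refine (ae_restrict_iff' measurableSet_Ioi).2 (Eventually.of_forall fun t ht => ?_)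
    rw [Real.norm_of_nonneg (by positivity)]
    exact mul_le_mul_of_nonneg_right (hfD t ht) (Real.exp_pos _).le
  · refine (ae_restrict_iff' measurableSet_Ioi).2 (Eventually.of_forall fun t ht => ?_)
    exact hGp t (le_of_lt ht)
  · exact rt_f3 Cb T c u F g p G f D hBB h hp hGm hfm hG hGb hf hD hDi
  · intro h0
    have h1 := (ae_restrict_iff' measurableSet_Ioi).1 h0
    have h2 : volume (Ioo (0:ℝ) 1) = 0 := by
      refine measure_mono_null ?_ h1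
      intro t ht
      simp only [mem_compl_iff, mem_setOf_eq]
      intro h3
      exact hG0 t ht.1 ht.2.le (h3 ht.1)
    simp at h2

end K34RT

end
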