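import Pool.Agent.K34RT.Defs

set_option autoImplicit false

open Complex MeasureTheory Set Filter Topology

noncomputable section

namespace K34RT

theorem geo_U_isOpen : IsOpen U := isOpen_lt continuous_im continuous_const

theorem geo_U_preconn : IsPreconnected U := (convex_halfSpace_im_lt (1 / 2 : ℝ)).isPreconnected

/-- zeros are isolated -/
theorem geo_iso {F : ℂ → ℂ} (hF : FP F) : ∀ z ∈ U, ∀ᶠ y in 𝓝[≠] z, F y ≠ 0 := by
  intro z hz
  have hAn : AnalyticOnNhd ℂ F U := hF.diff.analyticOnNhd geo_U_isOpen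
  by_contra h
  rw [Filter.not_eventually] at h
  have h2 := hAn.eqOn_zero_of_preconnected_of_frequently_eq_zero geo_U_preconn hz
    (h.mono fun y hy => not_not.1 hy)
  exact hF.ne (h2 (by simp [U]))

/-- the zero set in `U` is countable -/
theorem geo_countable {F : ℂ → ℂ} (hF : FP F) : {z | z ∈ U ∧ F z = 0}.Countable := by
  set Z : Set ℂ := {z | z ∈ U ∧ F z = 0} with hZ
  have hd : DiscreteTopology Z := by
    rw [discreteTopology_subtype_iff]
    intro x hx
    have h1 := geo_iso hF x hx.1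
    rw [Filter.inf_principal_eq_bot]
    filter_upwards [h1] with y hy hyZ
    exact hy hyZ.2
  have : Countable Z := countable_of_Lindelof_of_discrete
  exact Set.countable_coe_iff.1 this

theorem geo_zz_re (w : ℂ) (μ : ℝ) (ζ : ℂ) : (zz w μ ζ).re = w.re + ζ.re + μ * ζ.im := by
  simp [zz, Complex.add_re, Complex.mul_re]
  ring

theorem geo_zz_im (w : ℂ) (μ : ℝ) (ζ : ℂ) : (zz w μ ζ).im = w.im + ζ.im - μ * ζ.re := by
  simp [zz, Complex.add_im, Complex.mul_im]
  ring

theorem geo_zz_continuous (w : ℂ) (μ : ℝ) : Continuous (zz w μ) := by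
  unfold zz
  fun_prop

theorem geo_one_sub_ne (μ : ℝ) : (1 - (μ : ℂ) * I) ≠ 0 := by
  intro h
  have := congrArg Complex.re h
  simp at this

theorem rt_geo : S_GEO := by
  intro F s ε X w hF hs hs8 hε hw
  obtain ⟨hw0, hlo, hhi, r, hr, hreg⟩ := hw
  -- the slope
  set M : ℝ := |X| + |w.re| + 2 with hM
  have hMpos : 0 < M := by positivity
  set μ0 : ℝ := min 1 ((w.im - s) / (2 * M)) with hμ0
  have hμ0pos : 0 < μ0 := lt_min one_pos (div_pos (by linarith) (by linarith))
  have hB : ((fun z : ℂ => -(z - w).im / (z - w).re) '' {z | z ∈ U ∧ F z = 0}).Countable :=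
    (geo_countable hF).image _
  obtain ⟨μ, hμB, hμpos, hμlt⟩ := (hB.dense_compl ℝ).exists_between hμ0pos
  have hμ1 : μ < 1 := hμlt.trans_le (min_le_left _ _)
  have hμX : μ * (2 * M) < w.im - s := by
    have := hμlt.trans_le (min_le_right _ _)
    rwa [lt_div_iff₀ (by linarith)] at this
  -- sizes
  set L : ℝ := (w.im - s / 2) / μ with hL
  have hLpos : 0 < L := div_pos (by linarith) hμpos
  have hμL : μ * L = w.im - s / 2 := by rw [hL]; field_simp
  set l : ℝ := min (r / 2) ((2 * s - w.im) / 2) with hl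
  have hlpos : 0 < l := lt_min (by linarith) (by linarith)
  have hlr : l ≤ r / 2 := min_le_left _ _
  have hls : l ≤ (2 * s - w.im) / 2 := min_le_right _ _
  -- no other zeros near the segment
  have key : ∀ᶠ y : ℝ in 𝓝 0, ∀ x ∈ Icc (-l) L,
      (F (zz w μ ((x : ℂ) + y * I)) = 0 → (x : ℂ) + y * I = 0) := by
    apply isCompact_Icc.eventually_forall_of_forall_eventually
    intro x hx
    have hcont : Tendsto (fun p : ℝ × ℝ => zz w μ ((p.2 : ℂ) + p.1 * I)) (𝓝 ((0 : ℝ), x))
        (𝓝 (zz w μ (x : ℂ))) := by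
      have : Continuous (fun p : ℝ × ℝ => zz w μ ((p.2 : ℂ) + p.1 * I)) := by
        apply (geo_zz_continuous w μ).comp
        fun_prop
      have h2 := this.tendsto ((0 : ℝ), x)
      simpa using h2
    have hxU : zz w μ (x : ℂ) ∈ U := by
      simp only [U, mem_ofPred_eq, geo_zz_im, ofReal_im, ofReal_re]
      have h1 : -l ≤ x := hx.1
      have h3 : μ * (-l) ≤ μ * x := mul_le_mul_of_nonneg_left h1 hμpos.le
      nlinarith
    have hev := geo_iso hF _ hxU
    rw [eventually_nhdsWithin_iff] at hev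
    by_cases hx0 : x = 0
    · subst hx0
      have hzw : zz w μ ((0 : ℝ) : ℂ) = w := by simp [zz]
      rw [hzw] at hev hcont
      filter_upwards [hcont.eventually hev] with p hp hFp
      by_contra hne
      apply hp _ hFp
      simp only [mem_compl_iff, mem_singleton_iff, zz]
      intro h
      have h2 : (1 - (μ : ℂ) * I) * ((p.2 : ℂ) + p.1 * I) = 0 := by
        linear_combination h
      rcases mul_eq_zero.1 h2 with h3 | h3
      · exact geo_one_sub_ne μ h3
      · exact hne h3
    · have hFx : F (zz w μ (x : ℂ)) ≠ 0 := by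
        intro h0
        apply hμB
        refine ⟨zz w μ (x : ℂ), ⟨hxU, h0⟩, ?_⟩
        have h1 : (zz w μ (x : ℂ) - w).im = -(μ * x) := by
          rw [Complex.sub_im, geo_zz_im]; simp
        have h2 : (zz w μ (x : ℂ) - w).re = x := by
          rw [Complex.sub_re, geo_zz_re]; simp
        simp only [h1, h2]
        field_simp
      have hcF : ContinuousAt F (zz w μ (x : ℂ)) :=
        (hF.diff.differentiableAt (geo_U_isOpen.mem_nhds hxU)).continuousAt
      have hev2 : ∀ᶠ z in 𝓝 (zz w μ (x : ℂ)), F z ≠ 0 := hcF.eventually_ne hFx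
      filter_upwards [hcont.eventually hev2] with p hp hFp
      exact absurd hFp hp
  rw [Metric.eventually_nhds_iff] at key
  obtain ⟨δ1, hδ1, hkey⟩ := key
  set δ : ℝ := min (δ1 / 2) (min (r / 2) (min ((w.im - s) / 4) (min ((2 * s - w.im) / 4)
    (min (s / 4) 1)))) with hδ
  have d1 : δ ≤ δ1 / 2 := min_le_left _ _
  have d2 : δ ≤ r / 2 := (min_le_right _ _).trans (min_le_left _ _)
  have d3 : δ ≤ (w.im - s) / 4 :=
    (min_le_right _ _).trans ((min_le_right _ _).trans (min_le_left _ _))
  have d4 : δ ≤ (2 * s - w.im) / 4 :=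
    (min_le_right _ _).trans ((min_le_right _ _).trans ((min_le_right _ _).trans (min_le_left _ _)))
  have d5 : δ ≤ s / 4 :=
    (min_le_right _ _).trans ((min_le_right _ _).trans ((min_le_right _ _).trans
      ((min_le_right _ _).trans (min_le_left _ _))))
  have d6 : δ ≤ 1 :=
    (min_le_right _ _).trans ((min_le_right _ _).trans ((min_le_right _ _).trans
      ((min_le_right _ _).trans (min_le_right _ _))))
  have hδpos : 0 < δ := by
    refine lt_min (by linarith) (lt_min (by linarith) (lt_min (by linarith) (lt_min (by linarith)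
      (lt_min (by linarith) one_pos))))
  have hμl : μ * l ≤ l := by nlinarith
  have hμδ : μ * δ ≤ δ := by nlinarith
  refine ⟨μ, l, L, δ, hμpos, hμ1.le, hlpos, hLpos, hδpos, by linarith, by linarith, by linarith,
    by linarith, ?_, ?_, ?_⟩
  · intro ζ hζ h0
    obtain ⟨h1, h2, h3, h4⟩ := hζ
    have habs : dist ζ.im 0 < δ1 := by
      rw [Real.dist_eq, sub_zero, abs_lt]
      constructor <;> linarith
    have h5 := hkey habs ζ.re ⟨h1, h2⟩
    have h6 : (ζ.re : ℂ) + ζ.im * I = ζ := Complex.re_add_im ζ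
    rw [h6] at h5
    exact h5 h0
  · intro ζ hζ
    obtain ⟨h1, h2, h3, h4⟩ := hζ
    apply hreg
    · rw [geo_zz_re]
      have : μ * (-δ) ≤ μ * ζ.im := mul_le_mul_of_nonneg_left h3 hμpos.le
      nlinarith
    · rw [geo_zz_im]
      have : μ * ζ.re ≤ μ * L := mul_le_mul_of_nonneg_left h2 hμpos.le
      linarith
    · rw [geo_zz_im]
      have : μ * (-l) ≤ μ * ζ.re := mul_le_mul_of_nonneg_left h1 hμpos.le
      linarith
  · intro ζ hζ him
    obtain ⟨h1, h2, h3, h4⟩ := hζ
    rw [geo_zz_im] at him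
    rw [geo_zz_re]
    have h5 : μ * M ≤ μ * ζ.re := by nlinarith
    have h6 : M ≤ ζ.re := le_of_mul_le_mul_left h5 hμpos
    have h7 : μ * (-δ) ≤ μ * ζ.im := mul_le_mul_of_nonneg_left h3 hμpos.le
    have h8 : -|w.re| ≤ w.re := neg_abs_le _
    have h9 : X ≤ |X| := le_abs_self _
    nlinarith

end K34RT

end
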