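import Pool.Agent.K34RT.Defs

/-!
Leaf `S_LEVEL` (helper72): from one exponential to a finite sum of exponentials.
-/

set_option autoImplicit false

open Complex MeasureTheory Set Filter Topology

namespace K34RT

lemma exists_sep (n : ℕ) : ∃ S : Finset ℂ, S.card = n ∧ (∀ u ∈ S, ‖u‖ = 1) ∧
    ∃ ς : ℝ, 0 < ς ∧ ∀ u ∈ S, ∀ v ∈ S, u ≠ v → ς ≤ ‖u - v‖ := by
  have hinf : (Metric.sphere (0 : ℂ) 1).Infinite := by
    intro hfin
    have hinj : Function.Injective (fun t : ℕ => Complex.exp (((1 / ((t : ℝ) + 1) : ℝ) : ℂ) * I)) := by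
      intro a b hab
      simp only at hab
      rw [Complex.exp_eq_exp_iff_exists_int] at hab
      obtain ⟨m, hm⟩ := hab
      have h1 : (1 / ((a : ℝ) + 1) : ℝ) = 1 / ((b : ℝ) + 1) + m * (2 * Real.pi) := by
        have h2 : ((1 / ((a : ℝ) + 1) : ℝ) : ℂ) = ((1 / ((b : ℝ) + 1) + m * (2 * Real.pi) : ℝ) : ℂ) := by
          apply mul_right_cancel₀ Complex.I_ne_zero
          rw [hm]; push_cast; ring
        exact_mod_cast h2
      have ha : 0 < 1 / ((a : ℝ) + 1) := by positivity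
      have hb : 0 < 1 / ((b : ℝ) + 1) := by positivity
      have ha' : 1 / ((a : ℝ) + 1) ≤ 1 := by
        rw [div_le_one (by positivity)]; linarith [(Nat.cast_nonneg a : (0 : ℝ) ≤ a)]
      have hb' : 1 / ((b : ℝ) + 1) ≤ 1 := by
        rw [div_le_one (by positivity)]; linarith [(Nat.cast_nonneg b : (0 : ℝ) ≤ b)]
      have hpi := Real.pi_gt_three
      have hm0 : m = 0 := by
        by_contra hne
        rcases lt_or_gt_of_ne hne with h | h
        · have : (m : ℝ) ≤ -1 := by exact_mod_cast (by omega : m ≤ -1)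
          nlinarith
        · have : (1 : ℝ) ≤ m := by exact_mod_cast (by omega : 1 ≤ m)
          nlinarith
      rw [hm0] at h1
      have h3 : (1 / ((a : ℝ) + 1) : ℝ) = 1 / ((b : ℝ) + 1) := by simpa using h1
      rw [div_eq_div_iff (by positivity) (by positivity)] at h3
      have : (a : ℝ) = b := by linarith
      exact_mod_cast this
    have hmem : ∀ t : ℕ, Complex.exp (((1 / ((t : ℝ) + 1) : ℝ) : ℂ) * I) ∈ Metric.sphere (0 : ℂ) 1 := by
      intro t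
      rw [mem_sphere_zero_iff_norm]
      exact Complex.norm_exp_ofReal_mul_I _
    exact (Set.infinite_of_injective_forall_mem hinj hmem) hfin
  obtain ⟨S, hS, hcard⟩ := hinf.exists_subset_card_eq n
  refine ⟨S, hcard, fun u hu => by simpa using hS hu, ?_⟩
  by_cases hne : S.offDiag.Nonempty
  · obtain ⟨x, hx, hmin⟩ := S.offDiag.exists_min_image (fun x => ‖x.1 - x.2‖) hne
    refine ⟨‖x.1 - x.2‖, ?_, ?_⟩
    · rw [norm_pos_iff, sub_ne_zero]
      exact (Finset.mem_offDiag.mp hx).2.2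
    · intro u hu v hv huv
      exact hmin (u, v) (Finset.mem_offDiag.mpr ⟨hu, hv, huv⟩)
  · refine ⟨1, one_pos, fun u hu v hv huv => ?_⟩
    exact absurd ⟨(u, v), Finset.mem_offDiag.mpr ⟨hu, hv, huv⟩⟩ hne

lemma ES_sum {ι : Type*} (s : Finset ι) (a : ι → ℂ) (h : ι → ℂ →₀ ℂ) (τ : ℝ) :
    ES (∑ i ∈ s, a i • h i) τ = ∑ i ∈ s, a i * ES (h i) τ := by
  classical
  have hadd : ∀ f g : ℂ →₀ ℂ, ES (f + g) τ = ES f τ + ES g τ := by
    intro f g
    unfold ES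
    apply Finsupp.sum_add_index'
    · intro w; simp
    · intro w b c; ring
  have hsmul : ∀ (b : ℂ) (f : ℂ →₀ ℂ), ES (b • f) τ = b * ES f τ := by
    intro b f
    unfold ES
    rw [Finsupp.sum_smul_index' (fun w => by simp), Finsupp.mul_sum]
    apply Finsupp.sum_congr
    intro w _
    rw [smul_eq_mul]; ring
  have hzero : ES (0 : ℂ →₀ ℂ) τ = 0 := by simp [ES]
  induction s using Finset.induction_on with
  | empty => simp [hzero]
  | insert i s his ih => rw [Finset.sum_insert his, Finset.sum_insert his, hadd, hsmul, ih]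

theorem rt_level (hG : S_GEO) (hS : S_SIDE) (hC : S_CORE) : S_LEVEL := by
  classical
  intro F s ε ε' g hF hs hs8 hε hε' hg Cc hCc η hη A
  obtain ⟨X₀, hX₀⟩ := hF.dec (ε' / 32) (by positivity)
  obtain ⟨S, hScard, hS1, ς, hς, hsep⟩ := exists_sep (2 * g.support.card + 1)
  obtain ⟨Mg, hMg⟩ : ∃ Mg : ℝ, Mg = 1 + ∑ w ∈ g.support, ‖g w‖ := ⟨_, rfl⟩
  have hMg0 : 0 < Mg := by
    rw [hMg]
    have : 0 ≤ ∑ w ∈ g.support, ‖g w‖ := Finset.sum_nonneg fun _ _ => norm_nonneg _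
    linarith
  have hgeo0 : ∀ w ∈ g.support, ∃ μ l L δ : ℝ, Geo F s ε (X₀ + 1) w μ l L δ := fun w hw =>
    hG F s ε (X₀ + 1) w hF hs hs8 hε (hg w hw)
  choose! μ l L δ hgeo using hgeo0
  have hside := fun w (hw : w ∈ g.support) =>
    hS F s ε (X₀ + 1) w (μ w) (l w) (L w) (δ w) hF hs hs8 hε (hgeo w hw) ς hς
  choose! c₁ hc₁ hside using hside
  have hcore := fun w (hw : w ∈ g.support) =>
    hC F s ε ε' (X₀ + 1) w (μ w) (l w) (L w) (δ w) hF hs hs8 hε hε' (hg w hw).zero (hgeo w hw)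
      (by simpa using hX₀) (η / Mg) (by positivity)
  choose! c₂ hc₂ hcore using hcore
  -- `c` is small
  have hclim : Tendsto (fun T : ℝ => Cc * (ε * Real.exp (-(s * T)))) atTop (𝓝 0) := by
    have h1 : Tendsto (fun T : ℝ => Real.exp (-(s * T))) atTop (𝓝 0) := by
      apply Real.tendsto_exp_neg_atTop_nhds_zero.comp
      exact tendsto_id.const_mul_atTop hs
    have h2 := (h1.const_mul ε).const_mul Cc
    simpa using h2
  have hev : ∀ᶠ T : ℝ in atTop, A ≤ T ∧ ∀ w ∈ g.support,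
      (Cc * (ε * Real.exp (-(s * T))) ≤ c₁ w) ∧ (Cc * (ε * Real.exp (-(s * T))) ≤ c₂ w) ∧
      (∀ c : ℝ, 0 < c → c ≤ c₁ w → ∀ q : ℝ, (q = δ w ∨ q = -δ w) → ∀ p p' : ℝ, -l w ≤ p →
        p ≤ L w → -l w ≤ p' → p' ≤ L w → ∀ u u' : ℂ, ‖u‖ = 1 → ‖u'‖ = 1 →
        Bad F s ε w (μ w) c T u (p + q * I) → Bad F s ε w (μ w) c T u' (p' + q * I) →
        ‖u - u'‖ < ς) ∧
      (∀ c : ℝ, 0 < c → c ≤ c₂ w → ∀ u : ℂ, ‖u‖ = 1 →
        (∀ q : ℝ, (q = δ w ∨ q = -δ w) → ∀ p : ℝ, -l w ≤ p → p ≤ L w →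
          ¬ Bad F s ε w (μ w) c T u (p + q * I)) →
        ∃ h : ℂ →₀ ℂ, (∀ w' ∈ h.support, GZ (fun z => F z + KK ε s c T u z) (s / 2) ε' w') ∧
          (∀ τ : ℝ, 0 ≤ τ → τ ≤ T / 2 →
            ‖ES h τ - Complex.exp (-(I * w * τ))‖ ≤ (η / Mg) * Real.exp (2 * s * τ)) ∧
          (∀ j : ℕ, 1 ≤ j → ∀ σ : ℝ, 0 ≤ σ → σ ≤ T / 2 →
            ‖ES h (j * T + σ)‖ ≤ (η / Mg) * Real.exp (j * (s * T) + 2 * s * σ)) ∧
          (∀ j : ℕ, ∀ σ : ℝ, T / 2 ≤ σ → σ ≤ T →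
            ‖ES h (j * T + σ)‖ ≤ (η / Mg) * Real.exp ((j + 1) * (s * T)))) := by
    refine (eventually_ge_atTop A).and ?_
    rw [Finset.eventually_all]
    intro w hw
    refine (hclim.eventually_le_const (hc₁ w hw)).and
      ((hclim.eventually_le_const (hc₂ w hw)).and ((hside w hw).and (hcore w hw)))
  obtain ⟨T, hTA, hT⟩ := hev.exists
  obtain ⟨c, hc⟩ : ∃ c : ℝ, c = Cc * (ε * Real.exp (-(s * T))) := ⟨_, rfl⟩
  have hc0 : 0 < c := by rw [hc]; positivity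
  rw [← hc] at hT
  -- choice of the phase
  obtain ⟨u, huS, hu⟩ : ∃ u ∈ S, ∀ w ∈ g.support, ∀ q : ℝ, (q = δ w ∨ q = -δ w) → ∀ p : ℝ,
      -l w ≤ p → p ≤ L w → ¬ Bad F s ε w (μ w) c T u (p + q * I) := by
    by_contra hcon
    push Not at hcon
    choose! W hW Q hQ P hP1 hP2 hBad using hcon
    have hmaps : ∀ u ∈ S, (W u, decide (Q u = δ (W u))) ∈ g.support ×ˢ (Finset.univ : Finset Bool) := by
      intro u hu
      rw [Finset.mem_product]
      exact ⟨hW u hu, Finset.mem_univ _⟩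
    have hcard : (g.support ×ˢ (Finset.univ : Finset Bool)).card < S.card := by
      rw [Finset.card_product, hScard]
      simp
      omega
    obtain ⟨u, hu, v, hv, huv, heq⟩ := Finset.exists_ne_map_eq_of_card_lt_of_maps_to hcard hmaps
    simp only [Prod.mk.injEq, decide_eq_decide] at heq
    obtain ⟨hw, hq⟩ := heq
    have hQQ : Q u = Q v := by
      rcases hQ u hu with h | h
      · rw [h, hq.mp h, hw]
      · rcases hQ v hv with h' | h'
        · rw [h', hq.mpr h', hw]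
        · rw [h, h', hw]
    obtain ⟨h1, h2, h3, h4⟩ := hT (W u) (hW u hu)
    have hb := hBad u hu
    have hb' := hBad v hv
    rw [← hw, ← hQQ] at hb'
    have h5 := h3 c hc0 h1 (Q u) (hQ u hu) (P u) (P v) (hP1 u hu) (hP2 u hu)
      (by rw [hw]; exact hP1 v hv) (by rw [hw]; exact hP2 v hv) u v (hS1 u hu) (hS1 v hv) hb hb'
    exact absurd (hsep u hu v hv huv) (not_le.mpr h5)
  have hu1 : ‖u‖ = 1 := hS1 u huS
  have hex : ∀ w ∈ g.support, ∃ h : ℂ →₀ ℂ,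
      (∀ w' ∈ h.support, GZ (fun z => F z + KK ε s c T u z) (s / 2) ε' w') ∧
      (∀ τ : ℝ, 0 ≤ τ → τ ≤ T / 2 →
        ‖ES h τ - Complex.exp (-(I * w * τ))‖ ≤ (η / Mg) * Real.exp (2 * s * τ)) ∧
      (∀ j : ℕ, 1 ≤ j → ∀ σ : ℝ, 0 ≤ σ → σ ≤ T / 2 →
        ‖ES h (j * T + σ)‖ ≤ (η / Mg) * Real.exp (j * (s * T) + 2 * s * σ)) ∧
      (∀ j : ℕ, ∀ σ : ℝ, T / 2 ≤ σ → σ ≤ T →
        ‖ES h (j * T + σ)‖ ≤ (η / Mg) * Real.exp ((j + 1) * (s * T))) := by
    intro w hw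
    obtain ⟨h1, h2, h3, h4⟩ := hT w hw
    exact h4 c hc0 h2 u hu1 (hu w hw)
  choose! h hh1 hh2 hh3 hh4 using hex
  have hsumle : ∀ (f : ℂ → ℂ) (K : ℝ), 0 ≤ K → (∀ w ∈ g.support, ‖f w‖ ≤ (η / Mg) * K) →
      ‖∑ w ∈ g.support, g w * f w‖ ≤ η * K := by
    intro f K hK hf
    calc ‖∑ w ∈ g.support, g w * f w‖ ≤ ∑ w ∈ g.support, ‖g w * f w‖ := norm_sum_le _ _
      _ ≤ ∑ w ∈ g.support, ‖g w‖ * ((η / Mg) * K) := by
          apply Finset.sum_le_sum
          intro w hw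
          rw [norm_mul]
          exact mul_le_mul_of_nonneg_left (hf w hw) (norm_nonneg _)
      _ = (∑ w ∈ g.support, ‖g w‖) * ((η / Mg) * K) := by rw [Finset.sum_mul]
      _ ≤ Mg * ((η / Mg) * K) := by
          apply mul_le_mul_of_nonneg_right _ (by positivity)
          rw [hMg]; linarith
      _ = η * K := by field_simp
  refine ⟨T, hTA, u, hu1, ∑ w ∈ g.support, g w • h w, ?_, ?_, ?_, ?_⟩
  · rw [← hc]
    intro w' hw'
    have hsub := Finsupp.support_finsetSum hw'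
    rw [Finset.mem_biUnion] at hsub
    obtain ⟨w, hw, hw2⟩ := hsub
    exact hh1 w hw w' (Finsupp.support_smul hw2)
  · intro τ hτ0 hτ
    have e : ES (∑ w ∈ g.support, g w • h w) τ - ES g τ =
        ∑ w ∈ g.support, g w * (ES (h w) τ - Complex.exp (-(I * w * τ))) := by
      rw [ES_sum]
      simp only [mul_sub, Finset.sum_sub_distrib]
      rfl
    rw [e]
    exact hsumle _ _ (by positivity) fun w hw => hh2 w hw τ hτ0 hτ
  · intro j hj σ hσ0 hσ
    rw [ES_sum]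
    exact hsumle _ _ (by positivity) fun w hw => hh3 w hw j hj σ hσ0 hσ
  · intro j σ hσ0 hσ
    rw [ES_sum]
    exact hsumle _ _ (by positivity) fun w hw => hh4 w hw j σ hσ0 hσ

end K34RT
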