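import Pool.Agent.K34RT.Defs

set_option autoImplicit false

open Complex MeasureTheory Set Filter Topology

noncomputable section

namespace K34RT

variable {l L δ : ℝ}

lemma cont_bot {f : ℂ → ℂ} (hl : 0 < l) (hL : 0 < L) (hδ : 0 < δ) (hf : ContinuousOn f (Bd l L δ)) :
    IntervalIntegrable (fun x : ℝ => f (x + ((-δ : ℝ) : ℂ) * I)) volume (-l) L := by
  apply ContinuousOn.intervalIntegrable
  rw [uIcc_of_le (by linarith)]
  refine hf.comp (by fun_prop) ?_
  intro x hx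
  simp only [mem_Icc] at hx
  refine ⟨⟨?_, ?_, ?_, ?_⟩, Or.inr (Or.inr (Or.inl ?_))⟩ <;> simp <;> linarith [hx.1, hx.2]

lemma cont_top {f : ℂ → ℂ} (hl : 0 < l) (hL : 0 < L) (hδ : 0 < δ) (hf : ContinuousOn f (Bd l L δ)) :
    IntervalIntegrable (fun x : ℝ => f (x + (δ : ℂ) * I)) volume (-l) L := by
  apply ContinuousOn.intervalIntegrable
  rw [uIcc_of_le (by linarith)]
  refine hf.comp (by fun_prop) ?_
  intro x hx
  simp only [mem_Icc] at hx
  refine ⟨⟨?_, ?_, ?_, ?_⟩, Or.inr (Or.inr (Or.inr ?_))⟩ <;> simp <;> linarith [hx.1, hx.2]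

lemma cont_right {f : ℂ → ℂ} (hl : 0 < l) (hL : 0 < L) (hδ : 0 < δ) (hf : ContinuousOn f (Bd l L δ)) :
    IntervalIntegrable (fun y : ℝ => f ((L : ℂ) + y * I)) volume (-δ) δ := by
  apply ContinuousOn.intervalIntegrable
  rw [uIcc_of_le (by linarith)]
  refine hf.comp (by fun_prop) ?_
  intro x hx
  simp only [mem_Icc] at hx
  refine ⟨⟨?_, ?_, ?_, ?_⟩, Or.inr (Or.inl ?_)⟩ <;> simp <;> linarith [hx.1, hx.2]

lemma cont_left {f : ℂ → ℂ} (hl : 0 < l) (hL : 0 < L) (hδ : 0 < δ) (hf : ContinuousOn f (Bd l L δ)) :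
    IntervalIntegrable (fun y : ℝ => f (((-l : ℝ) : ℂ) + y * I)) volume (-δ) δ := by
  apply ContinuousOn.intervalIntegrable
  rw [uIcc_of_le (by linarith)]
  refine hf.comp (by fun_prop) ?_
  intro x hx
  simp only [mem_Icc] at hx
  refine ⟨⟨?_, ?_, ?_, ?_⟩, Or.inl ?_⟩ <;> simp <;> linarith [hx.1, hx.2]

lemma RI_congr {f g : ℂ → ℂ} (hl : 0 < l) (hL : 0 < L) (hδ : 0 < δ)
    (h : ∀ ζ ∈ Bd l L δ, f ζ = g ζ) : RI l L δ f = RI l L δ g := by
  unfold RI
  congr 1
  · congr 1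
    · congr 1
      · apply intervalIntegral.integral_congr
        intro x hx
        rw [uIcc_of_le (by linarith)] at hx
        simp only [mem_Icc] at hx
        apply h
        refine ⟨⟨?_, ?_, ?_, ?_⟩, Or.inr (Or.inr (Or.inl ?_))⟩ <;> simp <;> linarith [hx.1, hx.2]
      · apply intervalIntegral.integral_congr
        intro x hx
        rw [uIcc_of_le (by linarith)] at hx
        simp only [mem_Icc] at hx
        apply h
        refine ⟨⟨?_, ?_, ?_, ?_⟩, Or.inr (Or.inr (Or.inr ?_))⟩ <;> simp <;> linarith [hx.1, hx.2]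
    · congr 1
      apply intervalIntegral.integral_congr
      intro x hx
      rw [uIcc_of_le (by linarith)] at hx
      simp only [mem_Icc] at hx
      apply h
      refine ⟨⟨?_, ?_, ?_, ?_⟩, Or.inr (Or.inl ?_)⟩ <;> simp <;> linarith [hx.1, hx.2]
  · congr 1
    apply intervalIntegral.integral_congr
    intro x hx
    rw [uIcc_of_le (by linarith)] at hx
    simp only [mem_Icc] at hx
    apply h
    refine ⟨⟨?_, ?_, ?_, ?_⟩, Or.inl ?_⟩ <;> simp <;> linarith [hx.1, hx.2]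

lemma RI_add {f g : ℂ → ℂ} (hl : 0 < l) (hL : 0 < L) (hδ : 0 < δ)
    (hf : ContinuousOn f (Bd l L δ)) (hg : ContinuousOn g (Bd l L δ)) :
    RI l L δ (fun ζ => f ζ + g ζ) = RI l L δ f + RI l L δ g := by
  unfold RI
  rw [intervalIntegral.integral_add (cont_bot hl hL hδ hf) (cont_bot hl hL hδ hg),
    intervalIntegral.integral_add (cont_top hl hL hδ hf) (cont_top hl hL hδ hg),
    intervalIntegral.integral_add (cont_right hl hL hδ hf) (cont_right hl hL hδ hg),
    intervalIntegral.integral_add (cont_left hl hL hδ hf) (cont_left hl hL hδ hg)]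
  simp only [smul_eq_mul]
  ring

lemma RI_const_mul (f : ℂ → ℂ) (a : ℂ) :
    RI l L δ (fun ζ => a * f ζ) = a * RI l L δ f := by
  unfold RI
  rw [intervalIntegral.integral_const_mul, intervalIntegral.integral_const_mul,
    intervalIntegral.integral_const_mul, intervalIntegral.integral_const_mul]
  simp only [smul_eq_mul]
  ring

lemma RI_sub {f g : ℂ → ℂ} (hl : 0 < l) (hL : 0 < L) (hδ : 0 < δ)
    (hf : ContinuousOn f (Bd l L δ)) (hg : ContinuousOn g (Bd l L δ)) :
    RI l L δ (fun ζ => f ζ - g ζ) = RI l L δ f - RI l L δ g := by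
  unfold RI
  rw [intervalIntegral.integral_sub (cont_bot hl hL hδ hf) (cont_bot hl hL hδ hg),
    intervalIntegral.integral_sub (cont_top hl hL hδ hf) (cont_top hl hL hδ hg),
    intervalIntegral.integral_sub (cont_right hl hL hδ hf) (cont_right hl hL hδ hg),
    intervalIntegral.integral_sub (cont_left hl hL hδ hf) (cont_left hl hL hδ hg)]
  simp only [smul_eq_mul]
  ring

lemma RI_bound {f : ℂ → ℂ} {C : ℝ} (hl : 0 < l) (hL : 0 < L) (hδ : 0 < δ)
    (h : ∀ ζ ∈ Bd l L δ, ‖f ζ‖ ≤ C) : ‖RI l L δ f‖ ≤ C * (2 * (l + L) + 4 * δ) := by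
  have h1 : ‖∫ x : ℝ in (-l)..L, f (x + ((-δ : ℝ) : ℂ) * I)‖ ≤ C * |L - (-l)| := by
    apply intervalIntegral.norm_integral_le_of_norm_le_const
    intro x hx
    rw [uIoc_of_le (by linarith)] at hx
    simp only [mem_Ioc] at hx
    apply h
    refine ⟨⟨?_, ?_, ?_, ?_⟩, Or.inr (Or.inr (Or.inl ?_))⟩ <;> simp <;> linarith [hx.1, hx.2]
  have h2 : ‖∫ x : ℝ in (-l)..L, f (x + (δ : ℂ) * I)‖ ≤ C * |L - (-l)| := by
    apply intervalIntegral.norm_integral_le_of_norm_le_const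
    intro x hx
    rw [uIoc_of_le (by linarith)] at hx
    simp only [mem_Ioc] at hx
    apply h
    refine ⟨⟨?_, ?_, ?_, ?_⟩, Or.inr (Or.inr (Or.inr ?_))⟩ <;> simp <;> linarith [hx.1, hx.2]
  have h3 : ‖∫ y : ℝ in (-δ)..δ, f ((L : ℂ) + y * I)‖ ≤ C * |δ - (-δ)| := by
    apply intervalIntegral.norm_integral_le_of_norm_le_const
    intro x hx
    rw [uIoc_of_le (by linarith)] at hx
    simp only [mem_Ioc] at hx
    apply h
    refine ⟨⟨?_, ?_, ?_, ?_⟩, Or.inr (Or.inl ?_)⟩ <;> simp <;> linarith [hx.1, hx.2]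
  have h4 : ‖∫ y : ℝ in (-δ)..δ, f (((-l : ℝ) : ℂ) + y * I)‖ ≤ C * |δ - (-δ)| := by
    apply intervalIntegral.norm_integral_le_of_norm_le_const
    intro x hx
    rw [uIoc_of_le (by linarith)] at hx
    simp only [mem_Ioc] at hx
    apply h
    refine ⟨⟨?_, ?_, ?_, ?_⟩, Or.inl ?_⟩ <;> simp <;> linarith [hx.1, hx.2]
  rw [abs_of_pos (by linarith)] at h1 h2 h3 h4
  unfold RI
  refine (norm_sub_le _ _).trans ?_
  refine (add_le_add (norm_add_le _ _) le_rfl).trans ?_
  refine (add_le_add (add_le_add (norm_sub_le _ _) le_rfl) le_rfl).trans ?_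
  rw [norm_smul, norm_smul, norm_I, one_mul, one_mul]
  nlinarith [h1, h2, h3, h4]

lemma RI_zero {f : ℂ → ℂ} (hl : 0 < l) (hL : 0 < L) (hδ : 0 < δ)
    (hf : DifferentiableOn ℂ f (Rc l L δ)) : RI l L δ f = 0 := by
  have h := Complex.integral_boundary_rect_eq_zero_of_differentiableOn f (⟨-l, -δ⟩ : ℂ) (⟨L, δ⟩ : ℂ)
    (by
      refine hf.mono ?_
      intro ζ hζ
      rw [mem_reProdIm] at hζ
      simp only at hζ
      rw [uIcc_of_le (by linarith), uIcc_of_le (by linarith)] at hζ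
      exact ⟨hζ.1.1, hζ.1.2, hζ.2.1, hζ.2.2⟩)
  unfold RI
  simpa using h

lemma Ro_sub_Rc : Ro l L δ ⊆ Rc l L δ := fun _ h => ⟨h.1.le, h.2.1.le, h.2.2.1.le, h.2.2.2.le⟩

lemma Bd_sub_Rc : Bd l L δ ⊆ Rc l L δ := fun _ h => h.1

lemma isOpen_Ro : IsOpen (Ro l L δ) := by
  have h1 : IsOpen {ζ : ℂ | -l < ζ.re} := isOpen_lt continuous_const continuous_re
  have h2 : IsOpen {ζ : ℂ | ζ.re < L} := isOpen_lt continuous_re continuous_const
  have h3 : IsOpen {ζ : ℂ | -δ < ζ.im} := isOpen_lt continuous_const continuous_im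
  have h4 : IsOpen {ζ : ℂ | ζ.im < δ} := isOpen_lt continuous_im continuous_const
  exact h1.inter (h2.inter (h3.inter h4))

lemma not_Bd_of_Ro {v ζ : ℂ} (hv : v ∈ Ro l L δ) (hζ : ζ ∈ Bd l L δ) : ζ ≠ v := by
  rintro rfl
  obtain ⟨h1, h2, h3, h4⟩ := hv
  rcases hζ.2 with h | h | h | h <;> linarith

lemma cont_inv {v : ℂ} (hv : v ∈ Ro l L δ) {e : ℂ → ℂ} (he : ContinuousOn e (Bd l L δ)) :
    ContinuousOn (fun ζ => e ζ / (ζ - v)) (Bd l L δ) := by
  refine he.div (by fun_prop) ?_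
  intro ζ hζ
  exact sub_ne_zero.2 (not_Bd_of_Ro hv hζ)

lemma RI_pole {v : ℂ} {V : Set ℂ} {e : ℂ → ℂ} (hl : 0 < l) (hL : 0 < L) (hδ : 0 < δ)
    (hv : v ∈ Ro l L δ) (hV : IsOpen V) (hRV : Rc l L δ ⊆ V) (he : DifferentiableOn ℂ e V) :
    RI l L δ (fun ζ => e ζ / (ζ - v)) = e v * RI l L δ (fun ζ => 1 / (ζ - v)) := by
  have hvV : V ∈ 𝓝 v := hV.mem_nhds (hRV (Ro_sub_Rc hv))
  have h1 : DifferentiableOn ℂ (dslope e v) V := (Complex.differentiableOn_dslope hvV).2 he
  have h2 : RI l L δ (fun ζ => e ζ / (ζ - v)) =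
      RI l L δ (fun ζ => dslope e v ζ + e v * (1 / (ζ - v))) := by
    apply RI_congr hl hL hδ
    intro ζ hζ
    have h3 : ζ ≠ v := not_Bd_of_Ro hv hζ
    rw [dslope_of_ne _ h3, slope_def_field]
    have h4 : ζ - v ≠ 0 := sub_ne_zero.2 h3
    field_simp
    ring
  rw [h2, RI_add hl hL hδ ((h1.continuousOn).mono (Bd_sub_Rc.trans hRV)), RI_const_mul,
    RI_zero hl hL hδ (h1.mono hRV), zero_add]
  exact continuousOn_const.mul (cont_inv hv continuousOn_const)

lemma RI_N (hl : 0 < l) (hL : 0 < L) (hδ : 0 < δ) : RI l L δ (fun ζ => 1 / ζ) ≠ 0 := by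
  have h0 : (0:ℂ) ∈ Ro l L δ := by refine ⟨?_, ?_, ?_, ?_⟩ <;> simp <;> linarith
  have hc : ContinuousOn (fun ζ : ℂ => 1 / ζ) (Bd l L δ) := by
    have := cont_inv h0 (e := fun _ => (1:ℂ)) continuousOn_const
    simpa using this
  have i1 := cont_bot hl hL hδ hc
  have i2 := cont_top hl hL hδ hc
  have i3 := cont_right hl hL hδ hc
  have i4 := cont_left hl hL hδ hc
  have e1 : (∫ x : ℝ in (-l)..L, 1 / ((x:ℂ) + ((-δ : ℝ) : ℂ) * I)).im =
      ∫ x : ℝ in (-l)..L, (1 / ((x:ℂ) + ((-δ : ℝ) : ℂ) * I)).im := by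
    have := Complex.imCLM.intervalIntegral_comp_comm i1
    simpa using this.symm
  have e2 : (∫ x : ℝ in (-l)..L, 1 / ((x:ℂ) + (δ : ℂ) * I)).im =
      ∫ x : ℝ in (-l)..L, (1 / ((x:ℂ) + (δ : ℂ) * I)).im := by
    have := Complex.imCLM.intervalIntegral_comp_comm i2
    simpa using this.symm
  have e3 : (∫ y : ℝ in (-δ)..δ, 1 / ((L : ℂ) + y * I)).re =
      ∫ y : ℝ in (-δ)..δ, (1 / ((L : ℂ) + y * I)).re := by
    have := Complex.reCLM.intervalIntegral_comp_comm i3
    simpa using this.symm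
  have e4 : (∫ y : ℝ in (-δ)..δ, 1 / (((-l : ℝ) : ℂ) + y * I)).re =
      ∫ y : ℝ in (-δ)..δ, (1 / (((-l : ℝ) : ℂ) + y * I)).re := by
    have := Complex.reCLM.intervalIntegral_comp_comm i4
    simpa using this.symm
  have p1 : 0 < ∫ x : ℝ in (-l)..L, (1 / ((x:ℂ) + ((-δ : ℝ) : ℂ) * I)).im := by
    apply intervalIntegral.intervalIntegral_pos_of_pos_on
    · exact (Complex.imCLM.continuous.comp_continuousOn' (f := fun ζ : ℂ => 1 / ζ) hc |>.comp
        (s := uIcc (-l) L) (f := fun x : ℝ => (x:ℂ) + ((-δ : ℝ) : ℂ) * I) (by fun_prop) (by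
          intro x hx
          rw [uIcc_of_le (by linarith)] at hx
          simp only [mem_Icc] at hx
          refine ⟨⟨?_, ?_, ?_, ?_⟩, Or.inr (Or.inr (Or.inl ?_))⟩ <;> simp <;>
            linarith [hx.1, hx.2])).intervalIntegrable
    · intro x hx
      have : (1 / ((x:ℂ) + ((-δ : ℝ) : ℂ) * I)).im = δ / (x ^ 2 + δ ^ 2) := by
        rw [one_div, inv_im]
        simp [normSq_apply]
        ring_nf
      rw [this]
      positivity
    · linarith
  have p2 : ∫ x : ℝ in (-l)..L, (1 / ((x:ℂ) + (δ : ℂ) * I)).im < 0 := by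
    have h : 0 < ∫ x : ℝ in (-l)..L, -(1 / ((x:ℂ) + (δ : ℂ) * I)).im := by
      apply intervalIntegral.intervalIntegral_pos_of_pos_on
      · exact ((Complex.imCLM.continuous.comp_continuousOn' (f := fun ζ : ℂ => 1 / ζ) hc |>.comp
          (s := uIcc (-l) L) (f := fun x : ℝ => (x:ℂ) + (δ : ℂ) * I) (by fun_prop) (by
            intro x hx
            rw [uIcc_of_le (by linarith)] at hx
            simp only [mem_Icc] at hx
            refine ⟨⟨?_, ?_, ?_, ?_⟩, Or.inr (Or.inr (Or.inr ?_))⟩ <;> simp <;>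
              linarith [hx.1, hx.2])).intervalIntegrable).neg
      · intro x hx
        have : (1 / ((x:ℂ) + (δ : ℂ) * I)).im = -(δ / (x ^ 2 + δ ^ 2)) := by
          rw [one_div, inv_im]
          simp [normSq_apply]
          ring_nf
        rw [this, neg_neg]
        positivity
      · linarith
    rw [intervalIntegral.integral_neg] at h
    linarith
  have p3 : 0 < ∫ y : ℝ in (-δ)..δ, (1 / ((L : ℂ) + y * I)).re := by
    apply intervalIntegral.intervalIntegral_pos_of_pos_on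
    · exact (Complex.reCLM.continuous.comp_continuousOn' (f := fun ζ : ℂ => 1 / ζ) hc |>.comp
        (s := uIcc (-δ) δ) (f := fun y : ℝ => (L:ℂ) + (y : ℂ) * I) (by fun_prop) (by
          intro x hx
          rw [uIcc_of_le (by linarith)] at hx
          simp only [mem_Icc] at hx
          refine ⟨⟨?_, ?_, ?_, ?_⟩, Or.inr (Or.inl ?_)⟩ <;> simp <;>
            linarith [hx.1, hx.2])).intervalIntegrable
    · intro x hx
      have : (1 / ((L:ℂ) + (x : ℂ) * I)).re = L / (L ^ 2 + x ^ 2) := by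
        rw [one_div, inv_re]
        simp [normSq_apply]
        ring_nf
      rw [this]
      positivity
    · linarith
  have p4 : ∫ y : ℝ in (-δ)..δ, (1 / (((-l : ℝ) : ℂ) + y * I)).re < 0 := by
    have h : 0 < ∫ y : ℝ in (-δ)..δ, -(1 / (((-l : ℝ) : ℂ) + y * I)).re := by
      apply intervalIntegral.intervalIntegral_pos_of_pos_on
      · exact ((Complex.reCLM.continuous.comp_continuousOn' (f := fun ζ : ℂ => 1 / ζ) hc |>.comp
          (s := uIcc (-δ) δ) (f := fun y : ℝ => ((-l : ℝ):ℂ) + (y : ℂ) * I) (by fun_prop) (by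
            intro x hx
            rw [uIcc_of_le (by linarith)] at hx
            simp only [mem_Icc] at hx
            refine ⟨⟨?_, ?_, ?_, ?_⟩, Or.inl ?_⟩ <;> simp <;>
              linarith [hx.1, hx.2])).intervalIntegrable).neg
      · intro x hx
        have : (1 / (((-l : ℝ):ℂ) + (x : ℂ) * I)).re = -(l / (l ^ 2 + x ^ 2)) := by
          rw [one_div, inv_re]
          simp [normSq_apply]
          ring_nf
        rw [this, neg_neg]
        positivity
      · linarith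
    rw [intervalIntegral.integral_neg] at h
    linarith
  intro h
  have him := congrArg Complex.im h
  unfold RI at him
  simp only [smul_eq_mul, sub_im, add_im, mul_im, I_re, I_im, zero_mul, one_mul, zero_add, zero_im]
    at him
  rw [e1, e2, e3, e4] at him
  linarith

end K34RT

end
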