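import Pool.Agent.K34RT.Rect

set_option autoImplicit false

open Complex MeasureTheory Set Filter Topology

noncomputable section

namespace K34RT

variable {l L δ : ℝ}

theorem RES {V : Set ℂ} (hl : 0 < l) (hL : 0 < L) (hδ : 0 < δ) (hV : IsOpen V)
    (hRV : Rc l L δ ⊆ V) :
    ∀ (n : ℕ) (Z : Finset ℂ) (F M : ℂ → ℂ), Z.card = n → DifferentiableOn ℂ F V →
    DifferentiableOn ℂ M V → (∀ v ∈ Z, v ∈ Ro l L δ ∧ F v = 0 ∧ deriv F v ≠ 0) →
    (∀ ζ ∈ Rc l L δ, F ζ = 0 → ζ ∈ Z) →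
    ∃ c : ℂ → ℂ, ∀ e : ℂ → ℂ, DifferentiableOn ℂ e V →
      RI l L δ (fun ζ => M ζ * e ζ / F ζ) = ∑ v ∈ Z, c v * e v := by
  classical
  intro n
  induction n with
  | zero =>
    intro Z F M hZ hF hM _ hz
    have hZ0 : Z = ∅ := Finset.card_eq_zero.1 hZ
    subst hZ0
    refine ⟨fun _ => 0, fun e he => ?_⟩
    rw [Finset.sum_empty]
    apply RI_zero hl hL hδ
    refine ((hM.mul he).mono hRV).div (hF.mono hRV) ?_
    intro ζ hζ h0
    exact absurd (hz ζ hζ h0) (Finset.notMem_empty _)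
  | succ n ih =>
    intro Z F M hZ hF hM hv hz
    obtain ⟨v, hvZ⟩ : Z.Nonempty := Finset.card_pos.1 (by omega)
    obtain ⟨hvR, hFv, hFv'⟩ := hv v hvZ
    have hvV : V ∈ 𝓝 v := hV.mem_nhds (hRV (Ro_sub_Rc hvR))
    set F1 : ℂ → ℂ := dslope F v with hF1
    have hF1d : DifferentiableOn ℂ F1 V := (Complex.differentiableOn_dslope hvV).2 hF
    have hF1v : F1 v = deriv F v := dslope_same F v
    have hF1n : F1 v ≠ 0 := by rw [hF1v]; exact hFv'
    have hFF1 : ∀ ζ, F ζ = (ζ - v) * F1 ζ := by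
      intro ζ
      have := sub_smul_dslope F v ζ
      rw [hFv, sub_zero, smul_eq_mul] at this
      exact this.symm
    set A : ℂ := M v / F1 v with hA
    set M1 : ℂ → ℂ := fun ζ => M ζ - A * F1 ζ with hM1
    have hM1d : DifferentiableOn ℂ M1 V := hM.sub (hF1d.const_mul A)
    have hM1v : M1 v = 0 := by
      simp only [hM1, hA]
      field_simp
      ring
    set M2 : ℂ → ℂ := dslope M1 v with hM2
    have hM2d : DifferentiableOn ℂ M2 V := (Complex.differentiableOn_dslope hvV).2 hM1d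
    have hMM2 : ∀ ζ, M ζ = A * F1 ζ + (ζ - v) * M2 ζ := by
      intro ζ
      have := sub_smul_dslope M1 v ζ
      rw [hM1v, sub_zero, smul_eq_mul] at this
      rw [this]
      simp only [hM1]
      ring
    have hcard : (Z.erase v).card = n := by
      rw [Finset.card_erase_of_mem hvZ]; omega
    have hv1 : ∀ x ∈ Z.erase v, x ∈ Ro l L δ ∧ F1 x = 0 ∧ deriv F1 x ≠ 0 := by
      intro x hx
      rw [Finset.mem_erase] at hx
      obtain ⟨hxR, hFx, hFx'⟩ := hv x hx.2
      have hxv : x - v ≠ 0 := sub_ne_zero.2 hx.1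
      have hF1x : F1 x = 0 := by
        have := hFF1 x
        rw [hFx] at this
        rcases mul_eq_zero.1 this.symm with h | h
        · exact absurd h hxv
        · exact h
      refine ⟨hxR, hF1x, ?_⟩
      intro h0
      apply hFx'
      have hxV : V ∈ 𝓝 x := hV.mem_nhds (hRV (Ro_sub_Rc hxR))
      have hd : DifferentiableAt ℂ F1 x := hF1d.differentiableAt hxV
      have e1 : F = fun ζ => (ζ - v) * F1 ζ := funext hFF1
      rw [e1, deriv_fun_mul (by fun_prop) hd, hF1x, h0]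
      ring
    have hz1 : ∀ ζ ∈ Rc l L δ, F1 ζ = 0 → ζ ∈ Z.erase v := by
      intro ζ hζ h0
      rw [Finset.mem_erase]
      constructor
      · rintro rfl
        exact hF1n h0
      · apply hz ζ hζ
        rw [hFF1 ζ, h0, mul_zero]
    obtain ⟨c, hc⟩ := ih (Z.erase v) F1 M2 hcard hF1d hM2d hv1 hz1
    refine ⟨fun x => if x = v then A * RI l L δ (fun ζ => 1 / (ζ - v)) else c x, fun e he => ?_⟩
    have hne : ∀ ζ ∈ Bd l L δ, F1 ζ ≠ 0 := by
      intro ζ hζ h0
      have h1 := hz1 ζ (Bd_sub_Rc hζ) h0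
      have h2 := (hv1 ζ h1).1
      exact not_Bd_of_Ro h2 hζ rfl
    have hBV : Bd l L δ ⊆ V := Bd_sub_Rc.trans hRV
    have e1 : RI l L δ (fun ζ => M ζ * e ζ / F ζ) =
        RI l L δ (fun ζ => A * (e ζ / (ζ - v)) + M2 ζ * e ζ / F1 ζ) := by
      apply RI_congr hl hL hδ
      intro ζ hζ
      have h1 : ζ - v ≠ 0 := sub_ne_zero.2 (not_Bd_of_Ro hvR hζ)
      have h2 := hne ζ hζ
      rw [hFF1 ζ, hMM2 ζ]
      field_simp
    rw [e1, RI_add hl hL hδ, RI_const_mul, RI_pole hl hL hδ hvR hV hRV he, hc e he,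
      ← Finset.sum_erase_add Z _ hvZ]
    · beta_reduce
      rw [if_pos rfl, add_comm]
      congr 1
      · apply Finset.sum_congr rfl
        intro x hx
        rw [if_neg (Finset.mem_erase.1 hx).1]
      · ring
    · exact continuousOn_const.mul (cont_inv hvR (he.continuousOn.mono hBV))
    · exact ((hM2d.continuousOn.mono hBV).mul (he.continuousOn.mono hBV)).div
        (hF1d.continuousOn.mono hBV) hne

end K34RT

end
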