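import Pool.Agent.K34RT.Defs

/-!
Leaf `S_SIDE` (helper72): on a long side of the tilted rectangle only a small set of phases `u` is
excluded.
-/

set_option autoImplicit false

open Complex MeasureTheory Set Filter Topology

namespace K34RT

lemma side_max {a b : ℂ} {T : ℝ} (hT : 2 ≤ T) (h : T * ‖a + b‖ < max ‖a‖ ‖b‖) :
    ‖a + b‖ ≤ (2 / T) * ‖a‖ := by
  have hT0 : 0 < T := by linarith
  have h1 : ‖b‖ ≤ ‖a‖ + ‖a + b‖ := by
    have := norm_sub_le (a + b) a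
    simp only [add_sub_cancel_left] at this
    linarith
  have hb : ‖b‖ ≤ 2 * ‖a‖ ∨ ‖b‖ ≤ ‖a‖ := by
    by_contra hcon
    push Not at hcon
    obtain ⟨h2, h3⟩ := hcon
    rw [max_eq_right h3.le] at h
    nlinarith [norm_nonneg (a + b), norm_nonneg a]
  have h4 : max ‖a‖ ‖b‖ ≤ 2 * ‖a‖ := by
    apply max_le
    · linarith [norm_nonneg a]
    · rcases hb with hb | hb
      · exact hb
      · linarith [norm_nonneg a]
  have h5 : T * ‖a + b‖ ≤ 2 * ‖a‖ := by linarith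
  rw [div_mul_eq_mul_div, le_div_iff₀ hT0]
  linarith

lemma side_abs (μ Λ B ς : ℝ) (hμ : 0 < μ) (hΛ : 0 ≤ Λ) (hB : 1 ≤ B) (hς : 0 < ς) :
    ∃ T₀ : ℝ, 4 ≤ T₀ ∧ ∀ T : ℝ, T₀ ≤ T → ∀ (p p' : ℝ) (u u' A A' E E' : ℂ), ‖u‖ = 1 → ‖u'‖ = 1 →
      A ≠ 0 → A' ≠ 0 → ‖A‖ ≤ B * ‖A'‖ → ‖A'‖ ≤ B * ‖A‖ → ‖A - A'‖ ≤ Λ * |p - p'| * ‖A'‖ →
      E = E' * Complex.exp (-((I + μ) * (T * (p - p') : ℝ))) →
      ‖A + u * E‖ ≤ (2 / T) * ‖A‖ → ‖A' + u' * E'‖ ≤ (2 / T) * ‖A'‖ → ‖u - u'‖ < ς := by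
  obtain ⟨C₂, hC₂⟩ : ∃ C₂ : ℝ, C₂ = 9 * Λ * B / μ + 8 := ⟨_, rfl⟩
  have hC₂0 : 0 < C₂ := by rw [hC₂]; positivity
  obtain ⟨C₃, hC₃⟩ : ∃ C₃ : ℝ, C₃ = 3 * (1 + μ) * (2 * C₂ / μ) + C₂ := ⟨_, rfl⟩
  have hC₃0 : 0 < C₃ := by rw [hC₃]; positivity
  refine ⟨4 + 2 * C₂ + 2 * C₂ * (1 + μ) / μ + C₃ / ς + 1, by
    have : 0 ≤ 2 * C₂ * (1 + μ) / μ := by positivity
    have : 0 ≤ C₃ / ς := by positivity
    linarith, ?_⟩
  intro T hT p p' u u' A A' E E' hu hu' hA hA' hAB hAB' hAA hE hb hb'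
  have q1 : 0 ≤ 2 * C₂ * (1 + μ) / μ := by positivity
  have q2 : 0 ≤ C₃ / ς := by positivity
  have hT4 : 4 ≤ T := by linarith
  have hT0 : 0 < T := by linarith
  have hTC : 2 * C₂ ≤ T := by linarith
  have hTC' : 2 * C₂ * (1 + μ) / μ ≤ T := by linarith
  have hTς : C₃ / ς < T := by linarith
  have h2T : 2 / T ≤ 1 / 2 := by
    rw [div_le_iff₀ hT0]; linarith
  obtain ⟨r, hr⟩ : ∃ r : ℂ, r = -(A + u * E) / A := ⟨_, rfl⟩
  obtain ⟨r', hr'⟩ : ∃ r' : ℂ, r' = -(A' + u' * E') / A' := ⟨_, rfl⟩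
  have hA0 : 0 < ‖A‖ := norm_pos_iff.mpr hA
  have hA'0 : 0 < ‖A'‖ := norm_pos_iff.mpr hA'
  have hrn : ‖r‖ ≤ 2 / T := by
    rw [hr, norm_div, norm_neg, div_le_iff₀ hA0]; exact hb
  have hrn' : ‖r'‖ ≤ 2 / T := by
    rw [hr', norm_div, norm_neg, div_le_iff₀ hA'0]; exact hb'
  have huE : u * E = -A * (1 + r) := by
    rw [hr]; field_simp; ring
  have huE' : u' * E' = -A' * (1 + r') := by
    rw [hr']; field_simp; ring
  have hr1 : ‖1 + r‖ ≤ 3 / 2 := by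
    have := norm_add_le (1 : ℂ) r
    rw [norm_one] at this
    linarith
  have hr1' : 1 / 2 ≤ ‖1 + r'‖ := by
    have := norm_sub_le (1 + r') r'
    simp only [add_sub_cancel_right, norm_one] at this
    linarith
  have hr2 : 1 / 2 ≤ ‖1 + r‖ := by
    have := norm_sub_le (1 + r) r
    simp only [add_sub_cancel_right, norm_one] at this
    linarith
  have hr2' : ‖1 + r'‖ ≤ 3 / 2 := by
    have := norm_add_le (1 : ℂ) r'
    rw [norm_one] at this
    linarith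
  have hr'ne : 1 + r' ≠ 0 := by
    intro h; rw [h, norm_zero] at hr1'; linarith
  have hu0 : u ≠ 0 := by intro h; rw [h, norm_zero] at hu; linarith
  have hu'0 : u' ≠ 0 := by intro h; rw [h, norm_zero] at hu'; linarith
  have hE'0 : E' ≠ 0 := by
    intro h
    rw [h, mul_zero] at huE'
    have := mul_ne_zero (neg_ne_zero.mpr hA') hr'ne
    exact this huE'.symm
  obtain ⟨x, hx⟩ : ∃ x : ℝ, x = T * (p - p') := ⟨_, rfl⟩
  rw [← hx] at hE
  obtain ⟨y, hy⟩ : ∃ y : ℂ, y = (A / A') * ((1 + r) / (1 + r')) := ⟨_, rfl⟩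
  have hmain : u = u' * (y * Complex.exp ((I + μ) * x)) := by
    have h1 : u * E' * Complex.exp (-((I + μ) * x)) = -A * (1 + r) := by
      rw [← huE, hE]; ring
    have h2 : Complex.exp (-((I + μ) * x)) * Complex.exp ((I + μ) * x) = 1 := by
      rw [← Complex.exp_add]; simp
    have h3 : u * E' = -A * (1 + r) * Complex.exp ((I + μ) * x) := by
      rw [← h1, mul_assoc, h2, mul_one]
    have h4 : u' * (y * Complex.exp ((I + μ) * x)) * E' = u * E' := by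
      rw [h3, hy]
      have : u' * (A / A' * ((1 + r) / (1 + r')) * Complex.exp ((I + μ) * x)) * E' =
          (u' * E') * (A / A' * ((1 + r) / (1 + r')) * Complex.exp ((I + μ) * x)) := by ring
      rw [this, huE']
      field_simp
    exact (mul_right_cancel₀ hE'0 h4).symm
  have hexpn : ‖Complex.exp ((I + μ) * x)‖ = Real.exp (μ * x) := by
    rw [Complex.norm_exp]
    congr 1
    simp
  have hmod : 1 = ‖y‖ * Real.exp (μ * x) := by
    have := congrArg norm hmain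
    rw [norm_mul, norm_mul, hexpn, hu, hu', one_mul] at this
    exact this
  have hyu : ‖y‖ ≤ 3 * B := by
    rw [hy, norm_mul, norm_div, norm_div]
    have e1 : ‖A‖ / ‖A'‖ ≤ B := by rw [div_le_iff₀ hA'0]; exact hAB
    have e2 : ‖1 + r‖ / ‖1 + r'‖ ≤ 3 := by
      rw [div_le_iff₀ (by linarith)]; linarith
    calc ‖A‖ / ‖A'‖ * (‖1 + r‖ / ‖1 + r'‖) ≤ B * 3 := by
          apply mul_le_mul e1 e2 (by positivity) (by linarith)
      _ = 3 * B := by ring
  have hyl : 1 ≤ ‖y‖ * (3 * B) := by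
    rw [hy, norm_mul, norm_div, norm_div]
    have e1 : 1 ≤ ‖A‖ / ‖A'‖ * B := by
      rw [div_mul_eq_mul_div, le_div_iff₀ hA'0]; linarith
    have e2 : 1 ≤ ‖1 + r‖ / ‖1 + r'‖ * 3 := by
      rw [div_mul_eq_mul_div, le_div_iff₀ (by linarith)]; linarith
    calc (1 : ℝ) = 1 * 1 := by ring
      _ ≤ (‖A‖ / ‖A'‖ * B) * (‖1 + r‖ / ‖1 + r'‖ * 3) := by
          apply mul_le_mul e1 e2 (by norm_num) (by positivity)
      _ = ‖A‖ / ‖A'‖ * (‖1 + r‖ / ‖1 + r'‖) * (3 * B) := by ring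
  have hB0 : 0 < B := by linarith
  have hexp1 : Real.exp (μ * x) ≤ 3 * B := by
    have h1 := hyl
    have h2 : 0 < ‖y‖ := by
      rcases lt_or_eq_of_le (norm_nonneg y) with h | h
      · exact h
      · rw [← h] at hyl; linarith
    have h3 : ‖y‖ * Real.exp (μ * x) ≤ ‖y‖ * (3 * B) := by rw [← hmod]; exact h1
    exact le_of_mul_le_mul_left h3 h2
  have hexp2 : Real.exp (-(μ * x)) ≤ 3 * B := by
    have h1 : Real.exp (-(μ * x)) = ‖y‖ := by
      have h2 : Real.exp (μ * x) * Real.exp (-(μ * x)) = 1 := by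
        rw [← Real.exp_add]; simp
      calc Real.exp (-(μ * x)) = (‖y‖ * Real.exp (μ * x)) * Real.exp (-(μ * x)) := by
            rw [← hmod, one_mul]
        _ = ‖y‖ := by rw [mul_assoc, h2, mul_one]
    rw [h1]; exact hyu
  have hxB : μ * |x| ≤ 3 * B := by
    rcases abs_cases x with ⟨h, _⟩ | ⟨h, _⟩
    · rw [h]
      have := Real.add_one_le_exp (μ * x)
      linarith
    · rw [h]
      have := Real.add_one_le_exp (-(μ * x))
      linarith
  have hpp : |p - p'| ≤ 3 * B / (μ * T) := by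
    rw [le_div_iff₀ (by positivity)]
    have : |x| = T * |p - p'| := by
      rw [hx, abs_mul, abs_of_pos hT0]
    rw [this] at hxB
    linarith
  have hy1 : ‖y - 1‖ ≤ C₂ / T := by
    have e : y - 1 = ((A - A') / A' * (1 + r) + (r - r')) / (1 + r') := by
      rw [hy]; field_simp; ring
    rw [e, norm_div, div_le_iff₀ (by linarith)]
    have e1 : ‖(A - A') / A' * (1 + r) + (r - r')‖ ≤ Λ * |p - p'| * (3 / 2) + 4 / T := by
      refine (norm_add_le _ _).trans ?_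
      apply add_le_add
      · rw [norm_mul, norm_div]
        apply mul_le_mul _ hr1 (norm_nonneg _) (by positivity)
        rw [div_le_iff₀ hA'0]; exact hAA
      · refine (norm_sub_le _ _).trans ?_
        have : (4 : ℝ) / T = 2 / T + 2 / T := by ring
        rw [this]; linarith
    have e2 : Λ * |p - p'| * (3 / 2) + 4 / T ≤ C₂ / T * (1 / 2) := by
      have e3 : Λ * |p - p'| ≤ Λ * (3 * B / (μ * T)) := mul_le_mul_of_nonneg_left hpp hΛ
      have e4 : C₂ / T * (1 / 2) = Λ * (3 * B / (μ * T)) * (3 / 2) + 4 / T := by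
        rw [hC₂]; field_simp; ring
      rw [e4]
      have := mul_le_mul_of_nonneg_right e3 (by norm_num : (0 : ℝ) ≤ 3 / 2)
      linarith
    have e5 : C₂ / T * (1 / 2) ≤ C₂ / T * ‖1 + r'‖ :=
      mul_le_mul_of_nonneg_left hr1' (by positivity)
    linarith
  have hC₂T : C₂ / T ≤ 1 / 2 := by
    rw [div_le_iff₀ hT0]; linarith
  have hy2 : ‖y - 1‖ ≤ 1 / 2 := hy1.trans hC₂T
  have hyn1 : ‖y‖ ≤ 1 + ‖y - 1‖ := by
    have := norm_add_le (1 : ℂ) (y - 1)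
    rw [norm_one] at this
    simpa using this
  have hyn2 : 1 - ‖y - 1‖ ≤ ‖y‖ := by
    have := norm_sub_le y (y - 1)
    simp only [sub_sub_cancel, norm_one] at this
    linarith
  have hxs : μ * |x| ≤ 2 * ‖y - 1‖ := by
    rcases abs_cases x with ⟨h, _⟩ | ⟨h, hneg⟩
    · rw [h]
      have h1 := Real.add_one_le_exp (μ * x)
      have h2 : (1 / 2 : ℝ) ≤ ‖y‖ := by linarith
      have h3 : ‖y‖ * (μ * x + 1) ≤ 1 := by
        calc ‖y‖ * (μ * x + 1) ≤ ‖y‖ * Real.exp (μ * x) :=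
              mul_le_mul_of_nonneg_left h1 (norm_nonneg y)
          _ = 1 := hmod.symm
      have h4 : 0 ≤ μ * x := by rw [← h]; positivity
      nlinarith [norm_nonneg (y - 1)]
    · rw [h]
      have h1 := Real.add_one_le_exp (-(μ * x))
      have h2 : Real.exp (-(μ * x)) = ‖y‖ := by
        have h2 : Real.exp (μ * x) * Real.exp (-(μ * x)) = 1 := by
          rw [← Real.exp_add]; simp
        calc Real.exp (-(μ * x)) = (‖y‖ * Real.exp (μ * x)) * Real.exp (-(μ * x)) := by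
              rw [← hmod, one_mul]
          _ = ‖y‖ := by rw [mul_assoc, h2, mul_one]
      linarith [norm_nonneg (y - 1)]
  have hxT : |x| ≤ 2 * C₂ / μ / T := by
    have : μ * |x| ≤ 2 * (C₂ / T) := by linarith
    rw [div_div, le_div_iff₀ (by positivity)]
    have h6 : μ * |x| * T ≤ 2 * (C₂ / T) * T := mul_le_mul_of_nonneg_right this hT0.le
    have h7 : 2 * (C₂ / T) * T = 2 * C₂ := by field_simp
    linarith
  have hzn : ‖(I + μ) * (x : ℂ)‖ ≤ (1 + μ) * |x| := by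
    rw [norm_mul, Complex.norm_real, Real.norm_eq_abs]
    apply mul_le_mul_of_nonneg_right _ (abs_nonneg x)
    refine (norm_add_le _ _).trans ?_
    rw [Complex.norm_I, Complex.norm_real, Real.norm_eq_abs, abs_of_pos hμ]
  have hzn1 : ‖(I + μ) * (x : ℂ)‖ ≤ 1 := by
    refine hzn.trans ?_
    calc (1 + μ) * |x| ≤ (1 + μ) * (2 * C₂ / μ / T) :=
          mul_le_mul_of_nonneg_left hxT (by linarith)
      _ = (2 * C₂ * (1 + μ) / μ) / T := by ring
      _ ≤ 1 := by rw [div_le_iff₀ hT0]; linarith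
  have hexpd : ‖Complex.exp ((I + μ) * x) - 1‖ ≤ 2 * ‖(I + μ) * (x : ℂ)‖ :=
    Complex.norm_exp_sub_one_le hzn1
  have hfin : ‖u - u'‖ ≤ C₃ / T := by
    have e : u - u' = u' * (y * (Complex.exp ((I + μ) * x) - 1) + (y - 1)) := by
      conv_lhs => rw [hmain]
      ring
    rw [e, norm_mul, hu', one_mul]
    refine (norm_add_le _ _).trans ?_
    rw [norm_mul]
    have e1 : ‖y‖ * ‖Complex.exp ((I + μ) * x) - 1‖ ≤ (3 / 2) * (2 * ((1 + μ) * (2 * C₂ / μ / T))) := by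
      apply mul_le_mul (by linarith) _ (norm_nonneg _) (by norm_num)
      refine hexpd.trans ?_
      apply mul_le_mul_of_nonneg_left _ (by norm_num)
      refine hzn.trans ?_
      exact mul_le_mul_of_nonneg_left hxT (by linarith)
    have e2 : C₃ / T = (3 / 2) * (2 * ((1 + μ) * (2 * C₂ / μ / T))) + C₂ / T := by
      rw [hC₃]; ring
    rw [e2]
    exact add_le_add e1 hy1
  refine lt_of_le_of_lt hfin ?_
  rw [div_lt_iff₀ hT0]
  rw [div_lt_iff₀ hς] at hTς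
  linarith

lemma zz_im2 (w : ℂ) (μ : ℝ) (ζ : ℂ) : (zz w μ ζ).im = w.im + ζ.im - μ * ζ.re := by
  simp [zz]; ring

lemma zz_sub (w : ℂ) (μ : ℝ) (ζ ζ' : ℂ) : zz w μ ζ - zz w μ ζ' = (1 - μ * I) * (ζ - ζ') := by
  simp only [zz]; ring

lemma isCompact_Rc (l L δ : ℝ) : IsCompact (Rc l L δ) := by
  have : Rc l L δ = (Icc (-l) L) ×ℂ (Icc (-δ) δ) := by
    ext ζ
    simp only [Rc, mem_ofPred_eq, Complex.mem_reProdIm, mem_Icc]
    tauto
  rw [this]
  exact isCompact_Icc.reProdIm isCompact_Icc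

lemma continuous_zz (w : ℂ) (μ : ℝ) : Continuous (zz w μ) := by
  unfold zz; fun_prop

lemma zz_mem_U {F : ℂ → ℂ} {s ε X : ℝ} {w : ℂ} {μ l L δ : ℝ} (hs8 : s ≤ 1 / 8)
    (hG : Geo F s ε X w μ l L δ) {ζ : ℂ} (hζ : ζ ∈ Rc l L δ) : zz w μ ζ ∈ U := by
  obtain ⟨h1, h2, h3, h4⟩ := hζ
  have := hG.top
  have h5 : μ * (-l) ≤ μ * ζ.re := mul_le_mul_of_nonneg_left h1 hG.μ0.le
  simp only [U, mem_ofPred_eq, zz_im2]
  linarith

lemma lip_zz {F : ℂ → ℂ} {s ε X : ℝ} {w : ℂ} {μ l L δ : ℝ} (hF : FP F) (hs8 : s ≤ 1 / 8)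
    (hG : Geo F s ε X w μ l L δ) : ∃ K : ℝ, 0 ≤ K ∧ ∀ ζ ∈ Rc l L δ, ∀ ζ' ∈ Rc l L δ,
    ‖F (zz w μ ζ) - F (zz w μ ζ')‖ ≤ K * ‖ζ - ζ'‖ := by
  have hopen : IsOpen U := isOpen_lt Complex.continuous_im continuous_const
  have hcomp : IsCompact (Rc l L δ) := isCompact_Rc l L δ
  have hloc : LocallyLipschitzOn (Rc l L δ) (fun ζ => F (zz w μ ζ)) := by
    intro ζ hζ
    have hU := zz_mem_U hs8 hG hζ
    have han : AnalyticAt ℂ F (zz w μ ζ) := hF.diff.analyticAt (hopen.mem_nhds hU)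
    have h1 : ContDiffAt ℂ 1 F (zz w μ ζ) := han.contDiffAt
    have h2 : ContDiffAt ℂ 1 (fun ζ => F (zz w μ ζ)) ζ := by
      apply ContDiffAt.comp (g := F) (f := zz w μ) ζ h1
      unfold zz
      fun_prop
    obtain ⟨K, t, ht, hK⟩ := h2.exists_lipschitzOnWith
    exact ⟨K, t, mem_nhdsWithin_of_mem_nhds ht, hK⟩
  obtain ⟨K, hK⟩ := hloc.exists_lipschitzOnWith_of_compact hcomp
  refine ⟨K, K.coe_nonneg, fun ζ hζ ζ' hζ' => ?_⟩
  have := hK.dist_le_mul ζ hζ ζ' hζ'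
  simpa [dist_eq_norm] using this

theorem rt_side : S_SIDE := by
  intro F s ε X w μ l L δ hF hs hs8 hε hG ς hς
  have hδ := hG.δ0
  have hl := hG.l0
  have hL := hG.L0
  have hμ := hG.μ0
  have hcomp : IsCompact (Rc l L δ) := isCompact_Rc l L δ
  obtain ⟨K, hK0, hK⟩ := lip_zz hF hs8 hG
  -- bound of the points
  obtain ⟨R, hR⟩ : ∃ R : ℝ, ∀ ζ ∈ Rc l L δ, ‖zz w μ ζ‖ ≤ R := by
    obtain ⟨R, hR⟩ := (hcomp.image (continuous_zz w μ)).isBounded.exists_norm_le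
    exact ⟨R, fun ζ hζ => hR _ (mem_image_of_mem _ hζ)⟩
  have h0mem : (0 : ℂ) ∈ Rc l L δ := by
    simp only [Rc, mem_ofPred_eq, Complex.zero_re, Complex.zero_im]
    exact ⟨by linarith, by linarith, by linarith, by linarith⟩
  have hR0 : 0 ≤ R := (norm_nonneg _).trans (hR 0 h0mem)
  -- lower bound on the sides
  have hcont : ContinuousOn (fun ζ => F (zz w μ ζ)) (Rc l L δ) := by
    apply ContinuousOn.comp (t := U) hF.diff.continuousOn (continuous_zz w μ).continuousOn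
    intro ζ hζ
    exact zz_mem_U hs8 hG hζ
  have hSc : IsCompact (Rc l L δ ∩ {ζ : ℂ | |ζ.im| = δ}) := by
    apply hcomp.inter_right
    exact isClosed_eq (Complex.continuous_im.abs) continuous_const
  have hSne : (Rc l L δ ∩ {ζ : ℂ | |ζ.im| = δ}).Nonempty := by
    refine ⟨(δ : ℂ) * I, ?_, ?_⟩
    · simp only [Rc, mem_ofPred_eq]
      simp
      exact ⟨hl.le, hL.le, by linarith⟩
    · simp [abs_of_pos hδ]
  obtain ⟨ζ₀, hζ₀, hmin⟩ := hSc.exists_isMinOn hSne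
    ((hcont.mono inter_subset_left).norm)
  obtain ⟨m, hm⟩ : ∃ m : ℝ, m = ‖F (zz w μ ζ₀)‖ := ⟨_, rfl⟩
  have hm0 : 0 < m := by
    rw [hm, norm_pos_iff]
    intro h
    have := hG.zero ζ₀ hζ₀.1 h
    have h2 := hζ₀.2
    rw [this] at h2
    simp at h2
    linarith
  have hmle : ∀ ζ ∈ Rc l L δ, |ζ.im| = δ → m ≤ ‖F (zz w μ ζ)‖ := by
    intro ζ hζ h
    rw [hm]
    exact hmin ⟨hζ, h⟩
  obtain ⟨M, hM⟩ : ∃ M : ℝ, M = ε / 4 := ⟨_, rfl⟩
  have hMle : ∀ ζ ∈ Rc l L δ, ‖F (zz w μ ζ)‖ ≤ M := by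
    intro ζ hζ; rw [hM]; exact hG.bd ζ hζ
  have hmM : m ≤ M := by rw [hm]; exact hMle ζ₀ hζ₀.1
  have hM0 : 0 < M := by linarith
  obtain ⟨Λ, hΛ⟩ : ∃ Λ : ℝ, Λ = (M + K * (3 / 2)) * 2 * (2 / m) := ⟨_, rfl⟩
  have hΛ0 : 0 ≤ Λ := by rw [hΛ]; positivity
  obtain ⟨B, hB⟩ : ∃ B : ℝ, B = 3 * M / m := ⟨_, rfl⟩
  have hB1 : 1 ≤ B := by
    rw [hB, le_div_iff₀ hm0]; linarith
  obtain ⟨T₀, hT₀4, hT₀⟩ := side_abs μ Λ B ς hμ hΛ0 hB1 hς
  refine ⟨1 / (2 * (R + 1)), by positivity, ?_⟩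
  filter_upwards [eventually_ge_atTop T₀] with T hT
  intro c hc hc' q hq p p' hp1 hp2 hp1' hp2' u u' hu hu' hbad hbad'
  have hT4 : 4 ≤ T := by linarith
  have hT0 : 0 < T := by linarith
  have hqa : |q| = δ := by
    rcases hq with h | h
    · rw [h, abs_of_pos hδ]
    · rw [h, abs_neg, abs_of_pos hδ]
  have hq1 : -δ ≤ q := by rw [← hqa]; exact neg_abs_le q
  have hq2 : q ≤ δ := by rw [← hqa]; exact le_abs_self q
  have hmem : ∀ a : ℝ, -l ≤ a → a ≤ L → ((a : ℂ) + q * I) ∈ Rc l L δ := by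
    intro a h1 h2
    simp only [Rc, mem_ofPred_eq]
    simp
    exact ⟨h1, h2, hq1, hq2⟩
  have him : ∀ a : ℝ, |((a : ℂ) + q * I).im| = δ := by
    intro a; simp [hqa]
  obtain ⟨z, hz⟩ : ∃ z : ℂ, z = zz w μ ((p : ℂ) + q * I) := ⟨_, rfl⟩
  obtain ⟨z', hz'⟩ : ∃ z' : ℂ, z' = zz w μ ((p' : ℂ) + q * I) := ⟨_, rfl⟩
  have hζ := hmem p hp1 hp2
  have hζ' := hmem p' hp1' hp2'
  have hzR : ‖z‖ ≤ R := by rw [hz]; exact hR _ hζ
  have hzR' : ‖z'‖ ≤ R := by rw [hz']; exact hR _ hζ'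
  have hzz : z - z' = (1 - μ * I) * ((p - p' : ℝ) : ℂ) := by
    rw [hz, hz', zz_sub]; push_cast; ring
  have hFz1 : m ≤ ‖F z‖ := by rw [hz]; exact hmle _ hζ (him p)
  have hFz1' : m ≤ ‖F z'‖ := by rw [hz']; exact hmle _ hζ' (him p')
  have hFz2 : ‖F z‖ ≤ M := by rw [hz]; exact hMle _ hζ
  have hFz2' : ‖F z'‖ ≤ M := by rw [hz']; exact hMle _ hζ'
  have hFl : ‖F z - F z'‖ ≤ K * |p - p'| := by
    have := hK _ hζ _ hζ'
    rw [← hz, ← hz'] at this
    have e : ((p : ℂ) + q * I) - ((p' : ℂ) + q * I) = ((p - p' : ℝ) : ℂ) := by push_cast; ring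
    rw [e, Complex.norm_real, Real.norm_eq_abs] at this
    exact this
  -- denominators
  have hcR : c * R ≤ 1 / 2 := by
    have h1 : c * (2 * (R + 1)) ≤ 1 := by
      rwa [le_div_iff₀ (by positivity)] at hc'
    nlinarith
  have hc1 : c ≤ 1 / 2 := by
    have h1 : c * (2 * (R + 1)) ≤ 1 := by
      rwa [le_div_iff₀ (by positivity)] at hc'
    nlinarith
  have hcz : ∀ v : ℂ, ‖v‖ ≤ R → ‖I * c * v‖ ≤ 1 / 2 := by
    intro v hv
    rw [norm_mul, norm_mul, Complex.norm_I, one_mul, Complex.norm_real, Real.norm_eq_abs,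
      abs_of_pos hc]
    calc c * ‖v‖ ≤ c * R := mul_le_mul_of_nonneg_left hv hc.le
      _ ≤ 1 / 2 := hcR
  have hDl : ∀ v : ℂ, ‖v‖ ≤ R → 1 / 2 ≤ ‖1 + I * c * v‖ := by
    intro v hv
    have h1 := hcz v hv
    have := norm_sub_le (1 + I * c * v) (I * c * v)
    simp only [add_sub_cancel_right, norm_one] at this
    linarith
  have hDu : ∀ v : ℂ, ‖v‖ ≤ R → ‖1 + I * c * v‖ ≤ 3 / 2 := by
    intro v hv
    have h1 := hcz v hv
    have := norm_add_le (1 : ℂ) (I * c * v)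
    rw [norm_one] at this
    linarith
  have hD0 : ∀ v : ℂ, ‖v‖ ≤ R → 1 + I * c * v ≠ 0 := by
    intro v hv h
    have := hDl v hv
    rw [h, norm_zero] at this
    linarith
  -- bad points
  have key : ∀ v : ℂ, ‖v‖ ≤ R → ∀ x : ℂ, T * ‖F v + KK ε s c T x v‖ <
      max ‖F v‖ ‖KK ε s c T x v‖ →
      ‖F v * (1 + I * c * v) + x * (ε * Complex.exp (-((s * T : ℝ) : ℂ)) *
        Complex.exp (-(I * T * v)))‖ ≤ (2 / T) * ‖F v * (1 + I * c * v)‖ := by
    intro v hv x hx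
    have hD := hD0 v hv
    have hDn : 0 < ‖1 + I * c * v‖ := norm_pos_iff.mpr hD
    apply side_max (by linarith)
    have e1 : KK ε s c T x v = (x * (ε * Complex.exp (-((s * T : ℝ) : ℂ)) *
        Complex.exp (-(I * T * v)))) / (1 + I * c * v) := by
      unfold KK bh
      ring
    have e2 : F v + KK ε s c T x v = (F v * (1 + I * c * v) +
        x * (ε * Complex.exp (-((s * T : ℝ) : ℂ)) * Complex.exp (-(I * T * v)))) /
        (1 + I * c * v) := by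
      rw [e1, add_div, mul_div_cancel_right₀ _ hD]
    have e3 : ‖F v‖ = ‖F v * (1 + I * c * v)‖ / ‖1 + I * c * v‖ := by
      rw [norm_mul]; field_simp
    rw [e2, norm_div, e1, norm_div, e3, max_div_div_right hDn.le, mul_div_assoc'] at hx
    exact (div_lt_div_iff_of_pos_right hDn).mp hx
  have hk := key z hzR u (by rw [hz]; exact hbad)
  have hk' := key z' hzR' u' (by rw [hz']; exact hbad')
  have hAn : ∀ v : ℂ, ‖v‖ ≤ R → m ≤ ‖F v‖ → m / 2 ≤ ‖F v * (1 + I * c * v)‖ := by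
    intro v hv h
    rw [norm_mul]
    calc m / 2 = m * (1 / 2) := by ring
      _ ≤ ‖F v‖ * ‖1 + I * c * v‖ := mul_le_mul h (hDl v hv) (by norm_num) (norm_nonneg _)
  have hAu : ∀ v : ℂ, ‖v‖ ≤ R → ‖F v‖ ≤ M → ‖F v * (1 + I * c * v)‖ ≤ M * (3 / 2) := by
    intro v hv h
    rw [norm_mul]
    exact mul_le_mul h (hDu v hv) (norm_nonneg _) hM0.le
  have hBA : ∀ v v' : ℂ, ‖v‖ ≤ R → ‖v'‖ ≤ R → ‖F v‖ ≤ M → m ≤ ‖F v'‖ →
      ‖F v * (1 + I * c * v)‖ ≤ B * ‖F v' * (1 + I * c * v')‖ := by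
    intro v v' hv hv' h h'
    refine (hAu v hv h).trans ?_
    calc M * (3 / 2) = B * (m / 2) := by rw [hB]; field_simp
      _ ≤ B * ‖F v' * (1 + I * c * v')‖ :=
        mul_le_mul_of_nonneg_left (hAn v' hv' h') (by linarith)
  refine hT₀ T hT p p' u u' _ _ _ _ hu hu' ?_ ?_ (hBA z z' hzR hzR' hFz2 hFz1')
    (hBA z' z hzR' hzR hFz2' hFz1) ?_ ?_ hk hk'
  · intro h
    have := hAn z hzR hFz1
    rw [h, norm_zero] at this
    linarith
  · intro h
    have := hAn z' hzR' hFz1'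
    rw [h, norm_zero] at this
    linarith
  · have e : F z * (1 + I * c * z) - F z' * (1 + I * c * z') =
        F z * (I * c * (z - z')) + (F z - F z') * (1 + I * c * z') := by ring
    have hzn : ‖z - z'‖ ≤ 2 * |p - p'| := by
      rw [hzz, norm_mul, Complex.norm_real, Real.norm_eq_abs]
      apply mul_le_mul_of_nonneg_right _ (abs_nonneg _)
      refine (norm_sub_le _ _).trans ?_
      rw [norm_one, norm_mul, Complex.norm_I, Complex.norm_real, Real.norm_eq_abs,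
        abs_of_pos hμ]
      linarith [hG.μ1]
    have e1 : ‖F z * (I * c * (z - z'))‖ ≤ M * 2 * |p - p'| := by
      rw [norm_mul, norm_mul, norm_mul, Complex.norm_I, one_mul, Complex.norm_real,
        Real.norm_eq_abs, abs_of_pos hc]
      calc ‖F z‖ * (c * ‖z - z'‖) ≤ M * (1 * (2 * |p - p'|)) := by
            apply mul_le_mul hFz2 _ (by positivity) hM0.le
            apply mul_le_mul (by linarith) hzn (norm_nonneg _) (by norm_num)
        _ = M * 2 * |p - p'| := by ring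
    have e2 : ‖(F z - F z') * (1 + I * c * z')‖ ≤ K * |p - p'| * (3 / 2) := by
      rw [norm_mul]
      exact mul_le_mul hFl (hDu z' hzR') (norm_nonneg _) (by positivity)
    rw [e]
    refine (norm_add_le _ _).trans ?_
    have e3 := hAn z' hzR' hFz1'
    calc ‖F z * (I * c * (z - z'))‖ + ‖(F z - F z') * (1 + I * c * z')‖
        ≤ M * 2 * |p - p'| + K * |p - p'| * (3 / 2) := add_le_add e1 e2
      _ ≤ Λ * |p - p'| * (m / 2) := by
          have : Λ * |p - p'| * (m / 2) = (M + K * (3 / 2)) * 2 * |p - p'| := by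
            rw [hΛ]; field_simp
          rw [this]
          have h9 : 0 ≤ K * |p - p'| := by positivity
          nlinarith
      _ ≤ Λ * |p - p'| * ‖F z' * (1 + I * c * z')‖ :=
          mul_le_mul_of_nonneg_left e3 (by positivity)
  · rw [mul_assoc (ε * Complex.exp (-((s * T : ℝ) : ℂ)) : ℂ), ← Complex.exp_add]
    congr 2
    have h1 : z = z' + (1 - μ * I) * ((p - p' : ℝ) : ℂ) := by rw [← hzz]; ring
    rw [h1]
    push_cast
    ring_nf
    simp only [Complex.I_sq]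
    ring

end K34RT
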