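import Pool.Agent.K34RT.Core2
import Pool.Agent.K34RT.Defs2

set_option autoImplicit false

open Complex MeasureTheory Set Filter Topology

noncomputable section

namespace K34RT

theorem zero_exp_quarter : Real.exp (1 / 4) ≤ 4 / 3 := by
  have h1 := Real.add_one_le_exp (-(1 / 4) : ℝ)
  rw [Real.exp_neg] at h1
  have h2 := Real.exp_pos (1 / 4)
  have h3 : (3 / 4 : ℝ) ≤ (Real.exp (1 / 4))⁻¹ := by linarith
  rw [le_inv_comm₀ (by norm_num) h2] at h3
  calc Real.exp (1 / 4) ≤ (3 / 4 : ℝ)⁻¹ := h3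
    _ = 4 / 3 := by norm_num

theorem rt_zero : S_ZERO := by
  intro F s ε ε' X w μ l L δ hF hs hs8 hε hε' hG hX
  obtain ⟨m, hm, hmF⟩ := exists_m0 hF hs8 hG
  have hl := hG.l0
  have hL := hG.L0
  have hδ := hG.δ0
  -- derivative bound
  have hdc : ContinuousOn (fun ζ => deriv F (zz w μ ζ)) (Rc l L δ) := by
    have h1 : ContinuousOn (deriv F) U := (hF.diff.analyticOnNhd isOpen_U).deriv.continuousOn
    exact h1.comp (zz_diff w μ).continuous.continuousOn (fun ζ hζ => hG.sub_VV hs8 hζ)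
  obtain ⟨M, hM⟩ := (isCompact_Rc1 l L δ).exists_bound_of_continuousOn hdc
  obtain ⟨N, hN⟩ : ∃ N : ℝ, N = ‖w‖ + 2 * (l + L + δ) := ⟨_, rfl⟩
  have hN0 : 0 ≤ N := by rw [hN]; positivity
  refine ⟨min 1 (1 / (N + 1)), lt_min one_pos (by positivity), ?_⟩
  have hev1 : ∀ᶠ T : ℝ in atTop, 2 * ε * Real.exp (-(T * (s / 2))) < m := by
    have h1 : Tendsto (fun T : ℝ => T * (s / 2)) atTop atTop :=
      tendsto_id.atTop_mul_const (by linarith)
    have h2 : Tendsto (fun T : ℝ => Real.exp (-(T * (s / 2)))) atTop (𝓝 0) :=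
      Real.tendsto_exp_neg_atTop_nhds_zero.comp h1
    have h3 := h2.const_mul (2 * ε)
    rw [mul_zero] at h3
    exact h3.eventually_lt_const hm
  filter_upwards [hev1, eventually_ge_atTop (4 : ℝ), eventually_gt_atTop (M / m + 2)] with T h1 h4 hMT
  intro c hc hcc u hu hBd
  have hc1 : c ≤ 1 := hcc.trans (min_le_left _ _)
  have hcN : c * (‖w‖ + 2 * (l + L + δ)) ≤ 1 := by
    rw [← hN]
    have h5 : c ≤ 1 / (N + 1) := hcc.trans (min_le_right _ _)
    rw [le_div_iff₀ (by linarith)] at h5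
    nlinarith
  have hT0 : 0 < T := by linarith
  -- facts at a zero
  have key : ∀ v ∈ Rc l L δ, F (zz w μ v) + KK ε s c T u (zz w μ v) = 0 →
      v ∈ Ro l L δ ∧ s / 2 < (zz w μ v).im ∧ (zz w μ v).im < s ∧ m ≤ ‖F (zz w μ v)‖ ∧
        ‖KK ε s c T u (zz w μ v)‖ = ‖F (zz w μ v)‖ := by
    intro v hv h0
    have hno : ‖KK ε s c T u (zz w μ v)‖ = ‖F (zz w μ v)‖ := by
      rw [eq_neg_of_add_eq_zero_left h0, norm_neg]
    obtain ⟨k1, k2⟩ := KK_bounds (T := T) hG hs8 hε hc hc1 hcN hu hv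
    have hb := hG.bd v hv
    rw [hno] at k1 k2
    have hys : (zz w μ v).im < s := by
      by_contra hcon
      push Not at hcon
      have h5 : 1 ≤ Real.exp (T * ((zz w μ v).im - s)) := Real.one_le_exp (by nlinarith)
      nlinarith
    have hmv := hmF v hv (Or.inr hys.le)
    have hys2 : s / 2 < (zz w μ v).im := by
      by_contra hcon
      push Not at hcon
      have h5 : Real.exp (T * ((zz w μ v).im - s)) ≤ Real.exp (-(T * (s / 2))) := by
        apply Real.exp_le_exp.2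
        nlinarith
      have h6 : 2 * ε * Real.exp (T * ((zz w μ v).im - s)) ≤ 2 * ε * Real.exp (-(T * (s / 2))) :=
        mul_le_mul_of_nonneg_left h5 (by positivity)
      linarith
    refine ⟨?_, hys2, hys, hmv, hno⟩
    have hnb : v ∉ Bd l L δ := fun h => hBd v h h0
    obtain ⟨a1, a2, a3, a4⟩ := hv
    refine ⟨lt_of_le_of_ne a1 ?_, lt_of_le_of_ne a2 ?_, lt_of_le_of_ne a3 ?_, lt_of_le_of_ne a4 ?_⟩
    · intro h; exact hnb ⟨⟨a1, a2, a3, a4⟩, Or.inl h.symm⟩
    · intro h; exact hnb ⟨⟨a1, a2, a3, a4⟩, Or.inr (Or.inl h)⟩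
    · intro h; exact hnb ⟨⟨a1, a2, a3, a4⟩, Or.inr (Or.inr (Or.inl h.symm))⟩
    · intro h; exact hnb ⟨⟨a1, a2, a3, a4⟩, Or.inr (Or.inr (Or.inr h))⟩
  -- the derivative
  have hder : ∀ v ∈ Rc l L δ, F (zz w μ v) + KK ε s c T u (zz w μ v) = 0 →
      ∃ d : ℂ, d ≠ 0 ∧ HasDerivAt (fun ζ => F (zz w μ ζ) + KK ε s c T u (zz w μ ζ)) d v := by
    intro v hv h0
    obtain ⟨hvo, hy1, hy2, hmv, hno⟩ := key v hv h0
    have hz : (zz w μ v).im < 1/2 := by linarith
    have hFd : HasDerivAt F (deriv F (zz w μ v)) (zz w μ v) :=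
      (hF.diff.differentiableAt (U_nhds hz)).hasDerivAt
    have hKd := KK_deriv (ε := ε) (s := s) (T := T) (u := u) hc hc1 hz
    have hsum := (hFd.add hKd).comp v (zz_deriv w μ v)
    refine ⟨_, ?_, hsum⟩
    refine mul_ne_zero ?_ ?_
    · intro hzero
      have hK : KK ε s c T u (zz w μ v) = - F (zz w μ v) := by
        rw [eq_neg_iff_add_eq_zero, add_comm]; exact h0
      rw [hK] at hzero
      have h5 : deriv F (zz w μ v) = -(F (zz w μ v) * (I * (c * bh c (zz w μ v) + T))) := by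
        linear_combination hzero
      have h6 : ‖deriv F (zz w μ v)‖ ≤ M := hM v hv
      rw [h5, norm_neg, norm_mul, norm_mul, norm_I, one_mul] at h6
      have h7 : T - 2 ≤ ‖(c : ℂ) * bh c (zz w μ v) + T‖ := by
        have h8 : ‖(T : ℂ)‖ ≤ ‖(c : ℂ) * bh c (zz w μ v) + T‖ + ‖(c : ℂ) * bh c (zz w μ v)‖ := by
          calc ‖(T : ℂ)‖ = ‖((c : ℂ) * bh c (zz w μ v) + T) - (c : ℂ) * bh c (zz w μ v)‖ := by
                congr 1; ring
            _ ≤ _ := norm_sub_le _ _
        rw [norm_real, Real.norm_of_nonneg hT0.le, norm_mul, norm_real,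
          Real.norm_of_nonneg hc.le] at h8
        have h9 := bh_le hc hc1 hz
        have h10 : c * ‖bh c (zz w μ v)‖ ≤ 1 * 2 :=
          mul_le_mul hc1 h9 (norm_nonneg _) zero_le_one
        linarith
      have h11 : m * (T - 2) ≤ M := by
        refine le_trans ?_ h6
        exact mul_le_mul hmv h7 (by linarith) (norm_nonneg _)
      have h12 : T - 2 ≤ M / m := by
        rw [le_div_iff₀ hm]; linarith
      linarith
    · intro h
      have := congrArg Complex.re h
      simp at this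
  -- finiteness
  have hcont : ContinuousOn (fun ζ => F (zz w μ ζ) + KK ε s c T u (zz w μ ζ)) (Rc l L δ) := by
    have h5 : ContinuousOn (fun z => F z + KK ε s c T u z) U :=
      (hF.diff.add (KK_diff hc hc1)).continuousOn
    exact h5.comp (zz_diff w μ).continuous.continuousOn (fun ζ hζ => hG.sub_VV hs8 hζ)
  obtain ⟨S, hS⟩ : ∃ S : Set ℂ,
    S = Rc l L δ ∩ (fun ζ => F (zz w μ ζ) + KK ε s c T u (zz w μ ζ)) ⁻¹' {0} := ⟨_, rfl⟩
  have hScomp : IsCompact S := by
    rw [hS]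
    exact (isCompact_Rc1 l L δ).of_isClosed_subset
      (hcont.preimage_isClosed_of_isClosed (isCompact_Rc1 l L δ).isClosed isClosed_singleton)
      inter_subset_left
  have hSdisc : DiscreteTopology S := by
    rw [discreteTopology_subtype_iff]
    intro x hx
    rw [hS] at hx
    obtain ⟨d, hd, hdd⟩ := hder x hx.1 hx.2
    have h5 : ∀ᶠ z in 𝓝[≠] x, F (zz w μ z) + KK ε s c T u (zz w μ z) ≠ 0 :=
      hdd.eventually_ne hd
    rw [Filter.inf_principal_eq_bot]
    filter_upwards [h5] with y hy hyS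
    rw [hS] at hyS
    exact hy hyS.2
  have hSfin : S.Finite := by
    have : CompactSpace S := isCompact_iff_compactSpace.1 hScomp
    have : Finite S := finite_of_compact_of_discrete
    exact Set.toFinite S
  refine ⟨hSfin.toFinset, ?_, ?_, ?_⟩
  · intro v hv
    rw [Set.Finite.mem_toFinset, hS] at hv
    obtain ⟨hvR, hv0⟩ := hv
    have hv0' : F (zz w μ v) + KK ε s c T u (zz w μ v) = 0 := hv0
    obtain ⟨d, hd, hdd⟩ := hder v hvR hv0'
    refine ⟨(key v hvR hv0').1, hv0', ?_⟩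
    rw [hdd.deriv]
    exact hd
  · intro ζ hζ h0
    rw [Set.Finite.mem_toFinset, hS]
    exact ⟨hζ, h0⟩
  · intro v hv
    rw [Set.Finite.mem_toFinset, hS] at hv
    obtain ⟨hvR, hv0⟩ := hv
    have hv0' : F (zz w μ v) + KK ε s c T u (zz w μ v) = 0 := hv0
    obtain ⟨hvo, hy1, hy2, hmv, hno⟩ := key v hvR hv0'
    have hfar := hG.far v hvR hy2.le
    refine ⟨hv0', hy1, by linarith, ⟨1 / (4 * T), by positivity, ?_⟩⟩
    intro z hz1 hz2 hz3
    have hr : 1 / (4 * T) ≤ 1 / 16 := by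
      apply one_div_le_one_div_of_le (by norm_num)
      linarith
    have hFz : ‖F z‖ ≤ ε' / 32 := hX z (by linarith) hz2 (by linarith)
    have hFv : ‖F (zz w μ v)‖ ≤ ε' / 32 := hX _ (by linarith) (by linarith) (by linarith)
    obtain ⟨k1, k2⟩ := KK_bounds (T := T) hG hs8 hε hc hc1 hcN hu hvR
    rw [hno] at k1
    have hzU : z.im < 1/2 := by linarith
    have hKz : ‖KK ε s c T u z‖ ≤ ε' / 8 * (4 / 3) := by
      rw [KK_norm hε hu]
      have h5 := bh_le hc hc1 hzU
      have h6 : Real.exp (T * (z.im - s)) ≤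
          Real.exp (1 / 4) * Real.exp (T * ((zz w μ v).im - s)) := by
        rw [← Real.exp_add]
        apply Real.exp_le_exp.2
        have h7 : T * z.im ≤ T * ((zz w μ v).im + 1 / (4 * T)) :=
          mul_le_mul_of_nonneg_left hz3 hT0.le
        have h8 : T * (1 / (4 * T)) = 1 / 4 := by field_simp
        nlinarith
      have h9 := Real.exp_pos (T * ((zz w μ v).im - s))
      have h10 := zero_exp_quarter
      have h11 : Real.exp (T * (z.im - s)) ≤ 4 / 3 * Real.exp (T * ((zz w μ v).im - s)) :=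
        h6.trans (mul_le_mul_of_nonneg_right h10 h9.le)
      calc ε * ‖bh c z‖ * Real.exp (T * (z.im - s)) ≤
            ε * 2 * (4 / 3 * Real.exp (T * ((zz w μ v).im - s))) := by
            gcongr
        _ = 4 * (ε / 2 * Real.exp (T * ((zz w μ v).im - s))) * (4 / 3) := by ring
        _ ≤ 4 * (ε' / 32) * (4 / 3) := by
            gcongr
            linarith
        _ = ε' / 8 * (4 / 3) := by ring
    calc ‖F z + KK ε s c T u z‖ ≤ ‖F z‖ + ‖KK ε s c T u z‖ := norm_add_le _ _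
      _ ≤ ε' / 4 := by linarith

end K34RT

end
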